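import Pool.Agent.GSK.XK3K
import Pool.Agent.GSX.XiNe2
import Pool.Agent.GSX.ExGen

/-!
# GSK: the cubic of the pencil is not zero

`cub_ne`: if `det A_0 ≠ det B_0`, `A_0 ≠ 0`, `B_0 ≠ 0` and the cubic form is irreducible then
`det (T B 0 - B 1)` is not zero. Otherwise all the forms of the pencil have a common vector in the
kernel, since the discriminant of `det m`, restricted to the pencil, is not a square in `L`, and
this contradicts the position of the generic point.
-/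

set_option autoImplicit false

noncomputable section

namespace Pool.Agent.GSK

open Matrix Pool.Agent.GSH Pool.Agent.GSX Pool.Agent.GSX.Herm Pool.Agent.GSQ Pool.Agent.GSQ.XS
open MvPolynomial (eval C X)
open scoped Quaternion

/-! ### The discriminant is not a square -/

/-- If `tr (B R A R) - det R (det A + det B)` is a square of a linear form then
`det A = det B` -/
theorem sq_forms {a0 a1 a2 b0 b1 b2 p0 p1 p2 : ℂ} (h00 : a0 * b0 = p0 ^ 2)
    (h01 : a1 * b0 + a0 * b1 = p0 * p1)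
    (h11 : a2 * b0 + 2 * a1 * b1 + a0 * b2 + (a0 * a2 - a1 ^ 2 + (b0 * b2 - b1 ^ 2)) = p1 ^ 2)
    (h02 : 2 * a1 * b1 - (a0 * a2 - a1 ^ 2 + (b0 * b2 - b1 ^ 2)) = 2 * (p0 * p2))
    (h12 : a2 * b1 + a1 * b2 = p1 * p2) (h22 : a2 * b2 = p2 ^ 2)
    (hA : a0 * a2 - a1 ^ 2 ≠ 0) : a0 * a2 - a1 ^ 2 = b0 * b2 - b1 ^ 2 := by
  obtain ⟨δ, hδ⟩ : ∃ z, z = a0 * a2 - a1 ^ 2 := ⟨_, rfl⟩
  rw [← hδ] at h11 h02 hA ⊢
  obtain ⟨σ, hσ⟩ : ∃ z, z = δ + (b0 * b2 - b1 ^ 2) := ⟨_, rfl⟩
  rw [← hσ] at h11 h02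
  obtain ⟨ρ, hρ⟩ : ∃ z, z = p0 * a2 - p1 * a1 + p2 * a0 := ⟨_, rfl⟩
  -- `δ B = ρ ℓ + σ A / 2`
  have k0 : δ * b0 = ρ * p0 + σ / 2 * a0 := by
    rw [hρ, hσ, hδ]
    rw [hσ, hδ] at h02
    linear_combination a2 * h00 - a1 * h01 + (a0 / 2) * h02
  have k1 : δ * b1 = ρ * (p1 / 2) + σ / 2 * a1 := by
    rw [hρ, hσ, hδ]
    rw [hσ, hδ] at h11
    linear_combination (a2 / 2) * h01 - (a1 / 2) * h11 + (a0 / 2) * h12
  have k2 : δ * b2 = ρ * p2 + σ / 2 * a2 := by
    rw [hρ, hσ, hδ]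
    rw [hσ, hδ] at h02
    linear_combination (a2 / 2) * h02 - a1 * h12 + a0 * h22
  -- `ℓ` is a multiple of `a`
  obtain ⟨r, hr⟩ : ∃ r : ℂ, δ * r ^ 2 - ρ * r - σ / 2 = 0 := by
    obtain ⟨z, hz⟩ := IsAlgClosed.exists_pow_nat_eq (ρ ^ 2 + 2 * δ * σ) (n := 2) (by norm_num)
    refine ⟨(ρ + z) / (2 * δ), ?_⟩
    field_simp
    linear_combination hz
  obtain ⟨e, e0, e1, e2⟩ : ∃ e : ℂ, p0 = e * a0 ∧ p1 = 2 * e * a1 ∧ p2 = e * a2 := by
    have c00 : (Polynomial.C a0 * Polynomial.C b0 : Polynomial ℂ) = Polynomial.C p0 ^ 2 := by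
      rw [← map_mul, h00, map_pow]
    have c01 : (Polynomial.C a1 * Polynomial.C b0 + Polynomial.C a0 * Polynomial.C b1 :
        Polynomial ℂ) = Polynomial.C p0 * Polynomial.C p1 := by
      rw [← map_mul, ← map_mul, ← map_add, h01, map_mul]
    have c11 : (Polynomial.C a2 * Polynomial.C b0 + 4 * Polynomial.C a1 * Polynomial.C b1 +
        Polynomial.C a0 * Polynomial.C b2 : Polynomial ℂ) =
        Polynomial.C p1 ^ 2 + 2 * (Polynomial.C p0 * Polynomial.C p2) := by
      have h : a2 * b0 + 4 * a1 * b1 + a0 * b2 = p1 ^ 2 + 2 * (p0 * p2) := by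
        linear_combination h11 + h02
      have h' := congrArg (Polynomial.C (R := ℂ)) h
      simpa only [map_add, map_mul, map_pow, map_ofNat] using h'
    have c12 : (Polynomial.C a2 * Polynomial.C b1 + Polynomial.C a1 * Polynomial.C b2 :
        Polynomial ℂ) = Polynomial.C p1 * Polynomial.C p2 := by
      rw [← map_mul, ← map_mul, ← map_add, h12, map_mul]
    have c22 : (Polynomial.C a2 * Polynomial.C b2 : Polynomial ℂ) = Polynomial.C p2 ^ 2 := by
      rw [← map_mul, h22, map_pow]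
    set L : Polynomial ℂ := Polynomial.C p0 * Polynomial.X ^ 2 + Polynomial.C p1 * Polynomial.X +
      Polynomial.C p2 with hL
    set U : Polynomial ℂ := Polynomial.C a0 * Polynomial.X ^ 2 +
      Polynomial.C (2 * a1) * Polynomial.X + Polynomial.C a2 with hU
    set V : Polynomial ℂ := Polynomial.C b0 * Polynomial.X ^ 2 +
      Polynomial.C (2 * b1) * Polynomial.X + Polynomial.C b2 with hV
    have hUV : L ^ 2 = U * V := by
      rw [hL, hU, hV, map_mul, map_mul, map_ofNat]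
      linear_combination -Polynomial.X ^ 4 * c00 - 2 * Polynomial.X ^ 3 * c01 -
        Polynomial.X ^ 2 * c11 - 2 * Polynomial.X * c12 - c22
    have hV' : Polynomial.C δ * V = Polynomial.C ρ * L + Polynomial.C (σ / 2) * U := by
      rw [hL, hU, hV]
      have t0 := congrArg (Polynomial.C (R := ℂ)) k0
      have t1 := congrArg (Polynomial.C (R := ℂ)) (show δ * (2 * b1) = ρ * p1 + σ / 2 * (2 * a1) by
        linear_combination 2 * k1)
      have t2 := congrArg (Polynomial.C (R := ℂ)) k2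
      simp only [map_add, map_mul, map_ofNat] at t0 t1 t2 ⊢
      linear_combination Polynomial.X ^ 2 * t0 + Polynomial.X * t1 + t2
    have hr' := congrArg (Polynomial.C (R := ℂ)) hr
    rw [map_sub, map_sub, map_mul, map_mul, map_pow, map_zero] at hr'
    have hkey : (L - Polynomial.C r * U) * (Polynomial.C δ * L +
        (Polynomial.C δ * Polynomial.C r - Polynomial.C ρ) * U) = 0 := by
      linear_combination Polynomial.C δ * hUV + U * hV' - U ^ 2 * hr'
    have hco : ∀ e : ℂ, L = Polynomial.C e * U → p0 = e * a0 ∧ p1 = 2 * e * a1 ∧ p2 = e * a2 := by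
      intro e he
      have g0 := congrArg (fun q => Polynomial.coeff q 2) he
      have g1 := congrArg (fun q => Polynomial.coeff q 1) he
      have g2 := congrArg (fun q => Polynomial.coeff q 0) he
      simp [hL, hU] at g0 g1 g2
      exact ⟨g0, by rw [g1]; ring, g2⟩
    rcases mul_eq_zero.1 hkey with h | h
    · exact ⟨r, hco r (sub_eq_zero.1 h)⟩
    · refine ⟨(ρ - δ * r) / δ, hco _ ?_⟩
      have hδC : (Polynomial.C δ : Polynomial ℂ) ≠ 0 := by
        rw [Ne, Polynomial.C_eq_zero]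
        exact hA
      apply mul_left_cancel₀ hδC
      rw [← mul_assoc, ← map_mul, mul_div_cancel₀ _ hA, map_sub, map_mul]
      linear_combination h
  -- `b = β a`
  have hρ2 : ρ = 2 * e * δ := by
    rw [hρ, hδ, e0, e1, e2]
    ring
  have f0 : b0 = (2 * e ^ 2 + σ / (2 * δ)) * a0 := by
    apply mul_left_cancel₀ hA
    rw [k0, hρ2, e0]
    field_simp
  have f1 : b1 = (2 * e ^ 2 + σ / (2 * δ)) * a1 := by
    apply mul_left_cancel₀ hA
    rw [k1, hρ2, e1]
    field_simp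
  have f2 : b2 = (2 * e ^ 2 + σ / (2 * δ)) * a2 := by
    apply mul_left_cancel₀ hA
    rw [k2, hρ2, e2]
    field_simp
  obtain ⟨β, hβ⟩ : ∃ β, β = 2 * e ^ 2 + σ / (2 * δ) := ⟨_, rfl⟩
  rw [← hβ] at f0 f1 f2
  have hσ' : σ = δ * (1 + β ^ 2) := by
    rw [hσ, f0, f1, f2, hδ]
    ring
  have hβe : β = e ^ 2 := by
    by_contra hne
    have hne' : β - e ^ 2 ≠ 0 := sub_ne_zero.2 hne
    have g0 : (β - e ^ 2) * a0 ^ 2 = 0 := by
      rw [f0, e0] at h00
      linear_combination h00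
    have g2 : (β - e ^ 2) * a2 ^ 2 = 0 := by
      rw [f2, e2] at h22
      linear_combination h22
    have g1 : (β - e ^ 2) * (2 * a1 ^ 2 + a0 * a2) = 0 := by
      have h := h11
      have h' := h02
      rw [f0, f1, f2, e1] at h
      rw [f1, e0, e2] at h'
      linear_combination (1 / 2) * h + (1 / 2) * h'
    have z0 : a0 = 0 := pow_eq_zero_iff two_ne_zero |>.1 ((mul_eq_zero.1 g0).resolve_left hne')
    have z2 : a2 = 0 := pow_eq_zero_iff two_ne_zero |>.1 ((mul_eq_zero.1 g2).resolve_left hne')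
    have z1 := (mul_eq_zero.1 g1).resolve_left hne'
    apply hA
    rw [hδ, z0]
    rw [z0] at z1
    linear_combination -(1 / 2) * z1
  have hβ1 : (β + 1) ^ 2 = 0 := by
    have h : 2 * δ * β = 4 * δ * β + σ := by
      conv_lhs => rw [hβ]
      rw [hβe]
      field_simp
      ring
    rw [hσ'] at h
    apply mul_left_cancel₀ hA
    rw [mul_zero]
    linear_combination -h
  have hβ2 : β = -1 := by
    have := pow_eq_zero_iff two_ne_zero |>.1 hβ1
    linear_combination this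
  rw [f0, f1, f2, hβ2, hδ]
  ring

/-- a polynomial of degree at most one -/
theorem eval_of_deg {P : MvPolynomial (Fin 2) ℂ} (h : P.totalDegree ≤ 1) :
    ∃ e0 e1 e2 : ℂ, ∀ x y : ℂ, eval ![x, y] P = e0 + e1 * x + e2 * y := by
  classical
  refine ⟨P.coeff 0, P.coeff (Finsupp.single 0 1), P.coeff (Finsupp.single 1 1), fun x y => ?_⟩
  have hne1 : (Finsupp.single (0 : Fin 2) 1 : Fin 2 →₀ ℕ) ≠ Finsupp.single 1 1 := by
    intro h
    have := DFunLike.congr_fun h 0
    simp at this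
  have hne0 : ∀ i : Fin 2, (0 : Fin 2 →₀ ℕ) ≠ Finsupp.single i 1 := by
    intro i h
    have := DFunLike.congr_fun h i
    simp at this
  have hsub : P.support ⊆ {0, Finsupp.single 0 1, Finsupp.single 1 1} := by
    intro d hd
    have h1 := (MvPolynomial.le_totalDegree hd).trans h
    rw [Finsupp.sum_fintype _ _ (fun _ => rfl), Fin.sum_univ_two] at h1
    rw [Finset.mem_insert, Finset.mem_insert, Finset.mem_singleton]
    rcases Nat.eq_zero_or_pos (d 0) with h2 | h2
    · rcases Nat.eq_zero_or_pos (d 1) with h3 | h3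
      · left
        ext i
        fin_cases i
        · exact h2
        · exact h3
      · right; right
        ext i
        fin_cases i
        · rw [Finsupp.single_apply, if_neg (by decide)]
          exact h2
        · rw [Finsupp.single_apply, if_pos (by decide)]
          change d 1 = 1
          omega
    · right; left
      ext i
      fin_cases i
      · rw [Finsupp.single_apply, if_pos (by decide)]
        change d 0 = 1
        omega
      · rw [Finsupp.single_apply, if_neg (by decide)]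
        change d 1 = 0
        omega
  rw [MvPolynomial.eval_eq', Finset.sum_subset hsub, Finset.sum_insert, Finset.sum_insert,
    Finset.sum_singleton]
  · simp [Fin.prod_univ_two]
    ring
  · rw [Finset.mem_singleton]
    exact hne1
  · rw [Finset.mem_insert, Finset.mem_singleton]
    rintro (h | h)
    · exact hne0 _ h
    · exact hne0 _ h
  · intro d _ hd
    rw [MvPolynomial.notMem_support_iff.1 hd, zero_mul]

/-- the polynomial `G` -/
def GP (a b : Fin 3 → ℂ) : MvPolynomial (Fin 2) ℂ :=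
  C (a 0 * b 0) * X 1 ^ 2 - C (2 * (a 1 * b 0 + a 0 * b 1)) * (X 0 * X 1) +
    C (a 2 * b 0 + 2 * a 1 * b 1 + a 0 * b 2 +
      (a 0 * a 2 - a 1 ^ 2 + (b 0 * b 2 - b 1 ^ 2))) * X 0 ^ 2 +
    C (2 * a 1 * b 1 - (a 0 * a 2 - a 1 ^ 2 + (b 0 * b 2 - b 1 ^ 2))) * X 1 -
    C (2 * (a 2 * b 1 + a 1 * b 2)) * X 0 + C (a 2 * b 2)

theorem quad_deg (c1 c2 c3 c4 c5 c6 : ℂ) :
    (C c1 * X 1 ^ 2 - C c2 * (X 0 * X 1) + C c3 * X 0 ^ 2 + C c4 * X 1 - C c5 * X 0 +
      C c6 : MvPolynomial (Fin 2) ℂ).totalDegree ≤ 2 := by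
  have hC : ∀ (c : ℂ) (Q : MvPolynomial (Fin 2) ℂ), Q.totalDegree ≤ 2 →
      (C c * Q).totalDegree ≤ 2 := by
    intro c Q hQ
    refine (MvPolynomial.totalDegree_mul _ _).trans ?_
    rw [MvPolynomial.totalDegree_C, zero_add]
    exact hQ
  have hX : ∀ i : Fin 2, (X i : MvPolynomial (Fin 2) ℂ).totalDegree ≤ 2 := fun i => by
    rw [MvPolynomial.totalDegree_X]
    norm_num
  have hX2 : ∀ i : Fin 2, (X i ^ 2 : MvPolynomial (Fin 2) ℂ).totalDegree ≤ 2 := fun i => by
    rw [MvPolynomial.totalDegree_X_pow]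
  have hXX : (X 0 * X 1 : MvPolynomial (Fin 2) ℂ).totalDegree ≤ 2 := by
    refine (MvPolynomial.totalDegree_mul _ _).trans ?_
    rw [MvPolynomial.totalDegree_X, MvPolynomial.totalDegree_X]
  have hadd : ∀ P Q : MvPolynomial (Fin 2) ℂ, P.totalDegree ≤ 2 → Q.totalDegree ≤ 2 →
      (P + Q).totalDegree ≤ 2 := fun P Q hP hQ =>
    (MvPolynomial.totalDegree_add _ _).trans (max_le hP hQ)
  have hsub : ∀ P Q : MvPolynomial (Fin 2) ℂ, P.totalDegree ≤ 2 → Q.totalDegree ≤ 2 →
      (P - Q).totalDegree ≤ 2 := fun P Q hP hQ =>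
    (MvPolynomial.totalDegree_sub _ _).trans (max_le hP hQ)
  have h6 : (C c6 : MvPolynomial (Fin 2) ℂ).totalDegree ≤ 2 := by
    rw [MvPolynomial.totalDegree_C]
    norm_num
  exact hadd _ _ (hsub _ _ (hadd _ _ (hadd _ _ (hsub _ _ (hC _ _ (hX2 _)) (hC _ _ hXX))
    (hC _ _ (hX2 _))) (hC _ _ (hX _))) (hC _ _ (hX _))) h6

theorem GP_deg (a b : Fin 3 → ℂ) : (GP a b).totalDegree ≤ 2 := quad_deg _ _ _ _ _ _

theorem not_isSquare_GP {a b : Fin 3 → ℂ}
    (hab : a 0 * a 2 - a 1 ^ 2 ≠ b 0 * b 2 - b 1 ^ 2) :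
    ¬ IsSquare (algebraMap (MvPolynomial (Fin 2) ℂ) KK (GP a b)) := by
  rintro ⟨w, hw⟩
  have h1 : IsIntegral (MvPolynomial (Fin 2) ℂ) w := by
    apply IsIntegral.of_pow (n := 2) (by norm_num)
    rw [sq, ← hw]
    exact isIntegral_algebraMap
  obtain ⟨P, rfl⟩ := IsIntegrallyClosed.isIntegral_iff.mp h1
  have h2 : GP a b = P * P := by
    apply IsFractionRing.injective (MvPolynomial (Fin 2) ℂ) KK
    rw [map_mul, ← hw]
  have h3 : P.totalDegree ≤ 1 := by
    by_cases hP : P = 0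
    · rw [hP, MvPolynomial.totalDegree_zero]
      norm_num
    · have h4 := GP_deg a b
      rw [h2, MvPolynomial.totalDegree_mul_of_isDomain hP hP] at h4
      omega
  obtain ⟨e0, e1, e2, he⟩ := eval_of_deg h3
  have hev : ∀ x y : ℂ, eval ![x, y] (GP a b) = (e0 + e1 * x + e2 * y) ^ 2 := by
    intro x y
    rw [h2, map_mul, he]
    ring
  have k00 := hev 0 0
  have k10 := hev 1 0
  have k10' := hev (-1) 0
  have k01 := hev 0 1
  have k01' := hev 0 (-1)
  have k11 := hev 1 1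
  simp only [GP, map_add, map_sub, map_mul, map_pow, MvPolynomial.eval_C, MvPolynomial.eval_X,
    Matrix.cons_val_zero, Matrix.cons_val_one] at k00 k10 k10' k01 k01' k11
  have g22 : a 2 * b 2 = e0 ^ 2 := by linear_combination k00
  have g00 : a 0 * b 0 = e2 ^ 2 := by linear_combination (1 / 2) * (k01 + k01') - k00
  have g11 : a 2 * b 0 + 2 * a 1 * b 1 + a 0 * b 2 +
      (a 0 * a 2 - a 1 ^ 2 + (b 0 * b 2 - b 1 ^ 2)) = (-e1) ^ 2 := by
    linear_combination (1 / 2) * (k10 + k10') - k00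
  have g02 : 2 * a 1 * b 1 - (a 0 * a 2 - a 1 ^ 2 + (b 0 * b 2 - b 1 ^ 2)) = 2 * (e2 * e0) := by
    linear_combination (1 / 2) * (k01 - k01')
  have g12 : a 2 * b 1 + a 1 * b 2 = -e1 * e0 := by
    linear_combination -(1 / 4) * (k10 - k10')
  have g01 : a 1 * b 0 + a 0 * b 1 = e2 * (-e1) := by
    linear_combination -(1 / 2) * k11 + (1 / 2) * (k00 + g00 + g11 + g02) - g12 - k00 / 2 + g22 / 2
  by_cases hA : a 0 * a 2 - a 1 ^ 2 = 0
  · have hB : b 0 * b 2 - b 1 ^ 2 ≠ 0 := by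
      intro hB
      rw [hA, hB] at hab
      exact hab rfl
    refine hab (sq_forms (p0 := e2) (p1 := -e1) (p2 := e0) ?_ ?_ ?_ ?_ ?_ ?_ hB).symm
    · linear_combination g00
    · linear_combination g01
    · linear_combination g11
    · linear_combination g02
    · linear_combination g12
    · linear_combination g22
  · exact hab (sq_forms g00 g01 g11 g02 g12 g22 hA)

/-! ### The common kernel -/

section Ker

variable {F E : Type} [Field F] [CharZero F] [Field E] [Algebra F E]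

/-- If `d` and `d Δ` are not squares then `d` is not a square in `F(√Δ)`. -/
theorem two_sq {d Δ : F} {ε : E} (hε : ε ^ 2 = algebraMap F E Δ) (hd : ¬ IsSquare d)
    (hG : ¬ IsSquare (d * Δ)) {x0 x1 y0 y1 : F}
    (h : (algebraMap F E x0 + algebraMap F E x1 * ε) ^ 2 =
      algebraMap F E d * (algebraMap F E y0 + algebraMap F E y1 * ε) ^ 2) :
    algebraMap F E x0 + algebraMap F E x1 * ε = 0 ∧
      algebraMap F E y0 + algebraMap F E y1 * ε = 0 := by
  have hinj := (algebraMap F E).injective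
  suffices hy : algebraMap F E y0 + algebraMap F E y1 * ε = 0 by
    refine ⟨?_, hy⟩
    rw [hy, zero_pow two_ne_zero, mul_zero] at h
    exact pow_eq_zero_iff two_ne_zero |>.1 h
  by_cases hK : ∃ e : F, algebraMap F E e = ε
  · obtain ⟨e, rfl⟩ := hK
    have h1 : (x0 + x1 * e) ^ 2 = d * (y0 + y1 * e) ^ 2 := by
      apply hinj
      simpa only [map_add, map_mul, map_pow] using h
    by_cases hy : y0 + y1 * e = 0
    · rw [← map_mul, ← map_add, hy, map_zero]
    · exfalso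
      refine hd ⟨(x0 + x1 * e) / (y0 + y1 * e), ?_⟩
      rw [div_mul_div_comm, eq_div_iff (mul_ne_zero hy hy)]
      linear_combination -h1
  · set u := x0 * y0 - x1 * y1 * Δ with hu
    set v := x1 * y0 - x0 * y1 with hv
    set N := y0 ^ 2 - y1 ^ 2 * Δ with hN
    have h1 : algebraMap F E (u ^ 2 + v ^ 2 * Δ - d * N ^ 2) +
        algebraMap F E (2 * u * v) * ε = 0 := by
      simp only [hu, hv, hN, map_add, map_sub, map_mul, map_pow, map_ofNat, ← hε]
      linear_combination (algebraMap F E y0 - algebraMap F E y1 * ε) ^ 2 * h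
    have huv : u * v = 0 := by
      by_contra huv
      apply hK
      have h2 : (2 * u * v) ≠ 0 := by
        rw [mul_assoc]
        exact mul_ne_zero two_ne_zero huv
      have h2' : algebraMap F E (2 * u * v) ≠ 0 := by
        rw [Ne, map_eq_zero]
        exact h2
      refine ⟨-(u ^ 2 + v ^ 2 * Δ - d * N ^ 2) / (2 * u * v), ?_⟩
      rw [map_div₀, div_eq_iff h2', map_neg]
      linear_combination -h1
    have h3 : u ^ 2 + v ^ 2 * Δ - d * N ^ 2 = 0 := by
      have h4 : (2 * u * v) = 0 := by rw [mul_assoc, huv, mul_zero]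
      rw [h4, map_zero, zero_mul, add_zero] at h1
      exact hinj (by rw [h1, map_zero])
    have hN0 : N = 0 := by
      by_contra hN0
      rcases mul_eq_zero.1 huv with h4 | h4
      · rw [h4] at h3
        have hv0 : v ≠ 0 := by
          intro hv0
          rw [hv0] at h3
          have h5 : d * N ^ 2 = 0 := by linear_combination -h3
          rcases mul_eq_zero.1 h5 with h6 | h6
          · exact hd (by rw [h6]; exact IsSquare.zero)
          · exact hN0 (pow_eq_zero_iff two_ne_zero |>.1 h6)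
        refine hG ⟨d * N / v, ?_⟩
        rw [div_mul_div_comm, eq_div_iff (mul_ne_zero hv0 hv0)]
        linear_combination d * h3
      · rw [h4] at h3
        refine hd ⟨u / N, ?_⟩
        rw [div_mul_div_comm, eq_div_iff (mul_ne_zero hN0 hN0)]
        linear_combination -h3
    by_cases hy1 : y1 = 0
    · rw [hy1] at hN
      have h5 : y0 = 0 := pow_eq_zero_iff two_ne_zero |>.1 (by linear_combination hN0 - hN)
      rw [h5, hy1, map_zero, zero_mul, add_zero]
    · exfalso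
      apply hK
      have hy1' : algebraMap F E y1 ≠ 0 := by
        rw [Ne, map_eq_zero]
        exact hy1
      have h6 : (algebraMap F E y0 - algebraMap F E y1 * ε) *
          (algebraMap F E y0 + algebraMap F E y1 * ε) = 0 := by
        have h7 := congrArg (algebraMap F E) hN0
        rw [hN, map_sub, map_mul, map_pow, map_pow, map_zero, ← hε] at h7
        linear_combination h7
      rcases mul_eq_zero.1 h6 with h7 | h7
      · refine ⟨y0 / y1, ?_⟩
        rw [map_div₀, div_eq_iff hy1']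
        linear_combination h7
      · refine ⟨-y0 / y1, ?_⟩
        rw [map_div₀, div_eq_iff hy1', map_neg]
        linear_combination -h7

end Ker

section Rel

variable {K : Type} [Field K] [CharZero K] {H : Herm K} {c0 c1 c2 : K}

/-- the special form of the pencil of a cubic -/
structure Sp (H : Herm K) (c0 c1 c2 : K) : Prop where
  ne : c0 ≠ 0
  p00 : H.p 0 0 = -(4 * H.d * c1)
  p01 : H.p 0 1 = 2 * H.d * c0
  p03 : H.p 0 3 = 0
  p10 : H.p 1 0 = -(2 * H.d * c2)
  p11 : H.p 1 1 = 0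
  p13 : H.p 1 3 = 2 * H.d * c0
  q00 : H.q 0 0 = 0
  q10 : H.q 1 0 = 0

theorem Sp.rel (hS : Sp H c0 c1 c2) (hd : ¬ IsSquare H.d)
    (hG : ¬ IsSquare (H.d * (c1 ^ 2 - c0 * c2))) (hcub : cub H = 0) :
    (c0 * (H.p 0 2 - H.p 1 4) + 2 * c1 * H.p 0 4 = 0 ∧ c0 * H.p 1 2 + c2 * H.p 0 4 = 0) ∧
      (c0 * (H.q 0 1 - H.q 1 2) + 2 * c1 * H.q 0 2 = 0 ∧ c0 * H.q 1 1 + c2 * H.q 0 2 = 0) := by
  set E := AlgebraicClosure K
  have hinj := (algebraMap K E).injective
  obtain ⟨ε, hε⟩ := IsAlgClosed.exists_pow_nat_eq (algebraMap K E (c1 ^ 2 - c0 * c2))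
    (n := 2) (by norm_num)
  have hc' : algebraMap K E c0 ≠ 0 := by
    rw [Ne, map_eq_zero]
    exact hS.ne
  have hd0 : H.d ≠ 0 := fun h => hd (by rw [h]; exact IsSquare.zero)
  have hd' : algebraMap K E H.d ≠ 0 := by
    rw [Ne, map_eq_zero]
    exact hd0
  have hE : CharZero E := charZero_of_injective_algebraMap hinj
  have hε0 : ε ≠ 0 := by
    intro h0
    rw [h0, zero_pow two_ne_zero] at hε
    apply hG
    have h1 : c1 ^ 2 - c0 * c2 = 0 := hinj (by rw [← hε, map_zero])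
    rw [h1, mul_zero]
    exact IsSquare.zero
  have e2 : algebraMap K E 2 = 2 := map_ofNat _ 2
  have e4 : algebraMap K E 4 = 4 := map_ofNat _ 4
  -- the relation for one root
  have key : ∀ ε : E, ε ^ 2 = algebraMap K E (c1 ^ 2 - c0 * c2) →
      algebraMap K E ((c0 * (H.p 0 2 - H.p 1 4) + 2 * c1 * H.p 0 4) * c1 -
        c0 * (c0 * H.p 1 2 + c2 * H.p 0 4)) +
        algebraMap K E (c0 * (H.p 0 2 - H.p 1 4) + 2 * c1 * H.p 0 4) * ε = 0 ∧
      algebraMap K E ((c0 * (H.q 0 1 - H.q 1 2) + 2 * c1 * H.q 0 2) * c1 -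
        c0 * (c0 * H.q 1 1 + c2 * H.q 0 2)) +
        algebraMap K E (c0 * (H.q 0 1 - H.q 1 2) + 2 * c1 * H.q 0 2) * ε = 0 := by
    intro ε hε
    obtain ⟨μ, hμ⟩ : ∃ μ, μ = (algebraMap K E c1 + ε) / algebraMap K E c0 := ⟨_, rfl⟩
    have hμ1 : algebraMap K E c0 * μ = algebraMap K E c1 + ε := by
      rw [hμ, mul_div_cancel₀ _ hc']
    have hμ2 : algebraMap K E c0 * μ ^ 2 - 2 * algebraMap K E c1 * μ + algebraMap K E c2 = 0 := by
      apply mul_left_cancel₀ hc'
      rw [map_sub, map_mul, map_pow] at hε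
      linear_combination (algebraMap K E c0 * μ - algebraMap K E c1 + ε) * hμ1 + hε
    have hdh : dH (algebraMap K E H.d) (pM H μ) (qM H μ) = 0 := by
      rw [← aeval_cub, hcub, map_zero]
    have hP0 : pM H μ 0 = -(4 * algebraMap K E H.d * algebraMap K E c1 * μ) +
        2 * algebraMap K E H.d * algebraMap K E c2 := by
      simp only [pM, hS.p00, hS.p10, map_neg, map_mul, e2, e4]
      ring
    have hP1 : pM H μ 1 = 2 * algebraMap K E H.d * algebraMap K E c0 * μ := by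
      simp only [pM, hS.p01, hS.p11, map_zero, map_mul, e2]
      ring
    have hP3 : pM H μ 3 = -(2 * algebraMap K E H.d * algebraMap K E c0) := by
      simp only [pM, hS.p03, hS.p13, map_zero, map_mul, e2]
      ring
    have hQ0 : qM H μ 0 = 0 := by
      simp only [qM, hS.q00, hS.q10, map_zero]
      ring
    have hX : (pM H μ 2 + μ * pM H μ 4) ^ 2 =
        algebraMap K E H.d * (qM H μ 1 + μ * qM H μ 2) ^ 2 := by
      rw [dH, hP0, hP1, hP3, hQ0] at hdh
      apply mul_left_cancel₀ (mul_ne_zero (mul_ne_zero (two_ne_zero (α := E)) hd') hc')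
      linear_combination hdh + (4 * algebraMap K E H.d ^ 2 * algebraMap K E c0 * pM H μ 5 +
        2 * algebraMap K E H.d * (pM H μ 4 ^ 2 - algebraMap K E H.d * qM H μ 2 ^ 2)) * hμ2
    have hx : algebraMap K E ((c0 * (H.p 0 2 - H.p 1 4) + 2 * c1 * H.p 0 4) * c1 -
        c0 * (c0 * H.p 1 2 + c2 * H.p 0 4)) +
        algebraMap K E (c0 * (H.p 0 2 - H.p 1 4) + 2 * c1 * H.p 0 4) * ε =
        algebraMap K E c0 ^ 2 * (pM H μ 2 + μ * pM H μ 4) := by
      simp only [pM, map_add, map_sub, map_mul, e2]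
      linear_combination -(algebraMap K E c0 * (algebraMap K E (H.p 0 2) -
        algebraMap K E (H.p 1 4)) + 2 * algebraMap K E c1 * algebraMap K E (H.p 0 4)) * hμ1 -
        algebraMap K E c0 * algebraMap K E (H.p 0 4) * hμ2
    have hy : algebraMap K E ((c0 * (H.q 0 1 - H.q 1 2) + 2 * c1 * H.q 0 2) * c1 -
        c0 * (c0 * H.q 1 1 + c2 * H.q 0 2)) +
        algebraMap K E (c0 * (H.q 0 1 - H.q 1 2) + 2 * c1 * H.q 0 2) * ε =
        algebraMap K E c0 ^ 2 * (qM H μ 1 + μ * qM H μ 2) := by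
      simp only [qM, map_add, map_sub, map_mul, e2]
      linear_combination -(algebraMap K E c0 * (algebraMap K E (H.q 0 1) -
        algebraMap K E (H.q 1 2)) + 2 * algebraMap K E c1 * algebraMap K E (H.q 0 2)) * hμ1 -
        algebraMap K E c0 * algebraMap K E (H.q 0 2) * hμ2
    apply two_sq hε hd hG
    rw [hx, hy]
    linear_combination algebraMap K E c0 ^ 4 * hX
  obtain ⟨a1, a2⟩ := key ε hε
  obtain ⟨b1, b2⟩ := key (-ε) (by rw [← hε]; ring)
  have fin : ∀ x y : K, algebraMap K E (x * c1 - c0 * y) + algebraMap K E x * ε = 0 →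
      algebraMap K E (x * c1 - c0 * y) + algebraMap K E x * -ε = 0 → x = 0 ∧ y = 0 := by
    intro x y h1 h2
    have h3 : algebraMap K E x * ε = 0 := by linear_combination (1 / 2) * h1 - (1 / 2) * h2
    have hx : x = 0 := hinj (by rw [(mul_eq_zero.1 h3).resolve_right hε0, map_zero])
    refine ⟨hx, ?_⟩
    rw [hx, map_zero, zero_mul, zero_mul, add_zero, zero_sub, map_neg, neg_eq_zero, map_mul] at h1
    exact hinj (by rw [(mul_eq_zero.1 h1).resolve_left hc', map_zero])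
  exact ⟨fin _ _ a1 b1, fin _ _ a2 b2⟩

theorem cub_coeff (H : Herm K) (h : cub H = 0) :
    dH H.d (H.p 0) (H.q 0) = 0 ∧ dH' H.d (H.p 0) (H.q 0) (H.p 1) (H.q 1) = 0 := by
  have h1 : cub H = Polynomial.C (dH H.d (H.p 0) (H.q 0)) * Polynomial.X ^ 3 +
      Polynomial.C (-dH' H.d (H.p 0) (H.q 0) (H.p 1) (H.q 1)) * Polynomial.X ^ 2 +
      Polynomial.C (dH' H.d (H.p 1) (H.q 1) (H.p 0) (H.q 0)) * Polynomial.X +
      Polynomial.C (-dH H.d (H.p 1) (H.q 1)) := by
    simp only [cub, dH, dH', map_add, map_sub, map_mul, map_neg, map_pow, map_ofNat]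
    ring
  rw [h] at h1
  have h3 := congrArg (fun q => Polynomial.coeff q 3) h1
  have h2 := congrArg (fun q => Polynomial.coeff q 2) h1
  simp [-map_neg] at h3 h2
  exact ⟨h3.symm, h2⟩

/-- the common vector in the kernel -/
def th (H : Herm K) (c0 : K) : Fin 6 → K :=
  ![-H.p 0 4, -H.p 1 4, 2 * H.d * c0, H.q 0 2, H.q 1 2, 0]

theorem Sp.ker (hS : Sp H c0 c1 c2) (hd : ¬ IsSquare H.d)
    (hG : ¬ IsSquare (H.d * (c1 ^ 2 - c0 * c2))) (hcub : cub H = 0) (j : Fin 2) (i : Fin 3) :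
    H.E j i ⬝ᵥ th H c0 = 0 ∧ H.F j i ⬝ᵥ th H c0 = 0 := by
  obtain ⟨⟨r1, r2⟩, s1, s2⟩ := hS.rel hd hG hcub
  have hd0 : H.d ≠ 0 := fun h => hd (by rw [h]; exact IsSquare.zero)
  have hdc : 2 * H.d * c0 ≠ 0 := mul_ne_zero (mul_ne_zero two_ne_zero hd0) hS.ne
  obtain ⟨ne, p00, p01, p03, p10, p11, p13, q00, q10⟩ := hS
  obtain ⟨f3, f2⟩ := cub_coeff H hcub
  simp only [dH, dH', p00, p01, p03, p10, p11, p13, q00, q10] at f3 f2
  have x0 : -(H.p 0 2 * H.p 0 4) - H.p 0 4 * H.p 1 4 + 2 * H.d * c0 * H.p 0 5 +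
      H.d * H.q 0 1 * H.q 0 2 + H.d * H.q 0 2 * H.q 1 2 = 0 := by
    apply mul_left_cancel₀ hdc
    linear_combination -f3 + 2 * H.d * H.p 0 4 * r1 - 2 * H.d ^ 2 * H.q 0 2 * s1
  have x1 : -(H.p 1 2 * H.p 0 4) - H.p 1 4 * H.p 1 4 + 2 * H.d * c0 * H.p 1 5 +
      H.d * H.q 1 1 * H.q 0 2 + H.d * H.q 1 2 * H.q 1 2 = 0 := by
    apply mul_left_cancel₀ hdc
    linear_combination -f2 - 4 * H.d * c1 * x0 + 2 * H.d * (H.p 0 4 * r2 -
      (H.p 0 2 - H.p 1 4) * r1) + 2 * H.d ^ 2 * (-H.q 0 2 * s2 + (H.q 0 1 - H.q 1 2) * s1)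
  fin_cases j <;> fin_cases i
  all_goals refine ⟨?_, ?_⟩
  all_goals
    simp [Herm.E, Herm.F, th, dotProduct, Fin.sum_univ_six, p00, p01, p03, p10, p11, p13, q00, q10]
  · linear_combination 2 * H.d * r1
  · linear_combination 2 * H.d * s1
  · ring
  · ring
  · linear_combination x0
  · apply mul_left_cancel₀ ne
    linear_combination H.p 0 4 * s1 - H.q 0 2 * r1
  · linear_combination 2 * H.d * r2
  · linear_combination 2 * H.d * s2
  · ring
  · ring
  · linear_combination x1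
  · apply mul_left_cancel₀ ne
    linear_combination H.p 0 4 * s2 - H.q 0 2 * r2

end Rel

/-! ### The generic point -/

theorem disc_eq (X' : Cub ℂ) : cP X' 0 1 ^ 2 - cP X' 0 0 * cP X' 0 2 =
    (X 1 - X 0 ^ 2) * GP (X'.a 0) (X'.b 0) := by
  simp only [cP, GP, Matrix.cons_val_zero, Matrix.cons_val_one, Matrix.cons_val, map_add, map_sub,
    map_mul, map_pow, map_ofNat]
  ring

theorem not_isSquare_disc0 {X' : Cub ℂ} (hn : X'.NonDeg) : ¬ IsSquare ((tK - sK ^ 2) *
    ((X'.map (algebraMap ℂ KK)).c sK tK 0 1 ^ 2 - (X'.map (algebraMap ℂ KK)).c sK tK 0 0 *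
      (X'.map (algebraMap ℂ KK)).c sK tK 0 2)) := by
  rintro ⟨w, hw⟩
  have h1 : (X'.map (algebraMap ℂ KK)).c sK tK 0 1 ^ 2 - (X'.map (algebraMap ℂ KK)).c sK tK 0 0 *
      (X'.map (algebraMap ℂ KK)).c sK tK 0 2 = (tK - sK ^ 2) *
        algebraMap (MvPolynomial (Fin 2) ℂ) KK (GP (X'.a 0) (X'.b 0)) := by
    have h := congrArg (algebraMap (MvPolynomial (Fin 2) ℂ) KK) (disc_eq X')
    rw [map_sub, map_mul, map_pow, map_mul, map_sub, map_pow, ← c_eq, ← c_eq, ← c_eq] at h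
    exact h
  rw [h1] at hw
  refine not_isSquare_GP hn.det ⟨w / (tK - sK ^ 2), ?_⟩
  rw [div_mul_div_comm, eq_div_iff (mul_ne_zero dK_ne dK_ne), ← hw]
  ring

theorem sp_of {X' : Cub ℂ} (hn : X'.NonDeg) : Sp ((X'.map (algebraMap ℂ KK)).herm sK tK)
    ((X'.map (algebraMap ℂ KK)).c sK tK 0 0) ((X'.map (algebraMap ℂ KK)).c sK tK 0 1)
    ((X'.map (algebraMap ℂ KK)).c sK tK 0 2) where
  ne := c00_ne hn.a0
  p00 := by simp [Cub.herm, Cub.hp, Cub.m]; ring
  p01 := by simp [Cub.herm, Cub.hp, Cub.m]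
  p03 := by simp [Cub.herm, Cub.hp, Cub.m]
  p10 := by simp [Cub.herm, Cub.hp, Cub.m]
  p11 := by simp [Cub.herm, Cub.hp, Cub.m]
  p13 := by simp [Cub.herm, Cub.hp, Cub.m]
  q00 := by simp [Cub.herm, Cub.hq]
  q10 := by simp [Cub.herm, Cub.hq]

theorem cross_zero {E : Type} [Field E] {a b k z : Fin 3 → E} {ξ : E} (hξ : ξ ≠ 0)
    (ha : k ⬝ᵥ a = 0) (hb : k ⬝ᵥ b = 0)
    (h : ∀ i, a (i + 1) * b (i + 2) - a (i + 2) * b (i + 1) = ξ * z i) : k 2 * z 0 = k 0 * z 2 := by
  have h0 := h 0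
  have h2 := h 2
  have e1 : (0 : Fin 3) + 1 = 1 := rfl
  have e2 : (0 : Fin 3) + 2 = 2 := rfl
  have e5 : (2 : Fin 3) + 1 = 0 := rfl
  have e6 : (2 : Fin 3) + 2 = 1 := rfl
  rw [e1, e2] at h0
  rw [e5, e6] at h2
  rw [dotProduct, Fin.sum_univ_three] at ha hb
  apply mul_left_cancel₀ hξ
  linear_combination -k 2 * h0 + k 0 * h2 + a 1 * hb - b 1 * ha

/-- **The cubic of the pencil is not zero.** -/
theorem cub_ne {X' : Cub ℂ} (hn : X'.NonDeg) (hirr : Irreducible X'.F) :
    cub ((X'.map (algebraMap ℂ KK)).herm sK tK) ≠ 0 := by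
  intro hcub
  obtain ⟨Ω, _, _, _, _, x, hx⟩ := exists_gen hn hirr
  obtain ⟨w, hw, hwU, hL, -⟩ := hx.partX hn.a0
  have hker := (sp_of hn).ker not_isSquare_dX (not_isSquare_disc0 hn) hcub
  have hdN := hx.nsq_dX hn hirr
  set H := (X'.map (algebraMap ℂ KK)).herm sK tK with hH
  set c0 := (X'.map (algebraMap ℂ KK)).c sK tK 0 0 with hc0
  have hc0' : c0 ≠ 0 := c00_ne hn.a0
  set E := AlgebraicClosure Ω
  obtain ⟨δ, hδ⟩ := IsAlgClosed.exists_pow_nat_eq (algebraMap KK E H.d) (n := 2) (by norm_num)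
  have hδ' : (-δ) ^ 2 = algebraMap KK E H.d := by rw [← hδ]; ring
  have hw' : (fun i => algebraMap Ω E (w i)) ∈ H.pen.W E := (W_map H.pen w).2 hw
  have hab : pL w 0 ≠ 0 ∨ pL w 1 ≠ 0 := by
    by_contra hcon
    push Not at hcon
    apply hL
    funext i
    fin_cases i
    · exact hcon.1
    · exact hcon.2
  have hξ : ∀ δ : E, δ ^ 2 = algebraMap KK E H.d →
      algebraMap Ω E (pL w 0) - algebraMap Ω E (pL w 1) * δ ≠ 0 := by
    intro δ hδ h
    apply hdN.norm hab
    apply (algebraMap Ω E).injective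
    have hd1 : algebraMap KK E H.d = algebraMap Ω E (algebraMap KK Ω (tK - sK ^ 2)) := by
      rw [← IsScalarTower.algebraMap_apply]
      rfl
    rw [hd1] at hδ
    rw [map_sub, map_mul, map_pow, map_pow, ← hδ, map_zero]
    linear_combination (algebraMap Ω E (pL w 0) + algebraMap Ω E (pL w 1) * δ) * h
  have hlv : ∀ (a : Fin 6 → KK), a ⬝ᵥ th H c0 = 0 → (lv a (vK (th H c0)) : E) = 0 := by
    intro a ha
    have h1 : (lv a (vK (th H c0)) : E) = algebraMap KK E (a ⬝ᵥ th H c0) := by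
      simp only [lv, dotProduct, vK, map_sum, map_mul]
    rw [h1, ha, map_zero]
  have hln : ∀ (δ : E) (j : Fin 2), ln H j δ (vK (th H c0)) = 0 := by
    intro δ j
    funext i
    simp only [ln]
    rw [hlv _ (hker j i).1, hlv _ (hker j i).2, mul_zero, add_zero]
    rfl
  have key : ∀ δ : E, δ ^ 2 = algebraMap KK E H.d →
      cx δ (vK (th H c0)) 2 * cx δ (pU fun i => algebraMap Ω E (w i)) 0 =
        cx δ (vK (th H c0)) 0 * cx δ (pU fun i => algebraMap Ω E (w i)) 2 := by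
    intro δ hδ
    refine cross_zero (hξ δ hδ) ?_ ?_ (cone_eq H hδ hw')
    · rw [cx_ln H 0 hδ, hln, dotProduct_zero]
    · rw [cx_ln H 1 hδ, hln, dotProduct_zero]
  have k1 := key δ hδ
  have k2 := key (-δ) hδ'
  have hu : ∀ i, (pU fun i => algebraMap Ω E (w i)) i = algebraMap Ω E (Cub.uu sK tK x i) := by
    intro i
    rw [← hwU]
    rfl
  have hd0 : H.d ≠ 0 := dK_ne
  have hδ0 : δ ≠ 0 := by
    rintro rfl
    apply hd0
    apply (algebraMap KK E).injective
    rw [← hδ, map_zero]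
    ring
  have hE : CharZero E := charZero_of_injective_algebraMap (algebraMap KK E).injective
  have t2 : (vK (th H c0) : Fin 6 → E) 2 = algebraMap Ω E (algebraMap KK Ω (2 * H.d * c0)) := by
    rw [← IsScalarTower.algebraMap_apply]
    rfl
  have t3 : (vK (th H c0) : Fin 6 → E) 3 = algebraMap Ω E (algebraMap KK Ω (H.q 0 2)) := by
    rw [← IsScalarTower.algebraMap_apply]
    rfl
  have t5 : (vK (th H c0) : Fin 6 → E) 5 = 0 := map_zero _
  have u2 : Cub.uu sK tK x 2 = x 5 := rfl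
  have u3 : Cub.uu sK tK x 3 = x 4 := rfl
  have u5 : Cub.uu sK tK x 5 = 0 := rfl
  simp only [cx, hu] at k1 k2
  simp only [Matrix.cons_val_zero, Matrix.cons_val, t2, t3, t5, u2, u3, u5, map_zero] at k1 k2
  have h1 : algebraMap Ω E (algebraMap KK Ω (2 * H.d * c0) * x 4 -
      algebraMap KK Ω (H.q 0 2) * x 5) = 0 := by
    apply mul_left_cancel₀ (mul_ne_zero (two_ne_zero (α := E)) hδ0)
    rw [map_sub (algebraMap Ω E), map_mul (algebraMap Ω E), map_mul (algebraMap Ω E)]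
    linear_combination k1 - k2
  have h2 : algebraMap KK Ω (2 * H.d * c0) * x 4 - algebraMap KK Ω (H.q 0 2) * x 5 = 0 :=
    (algebraMap Ω E).injective (by rw [h1, map_zero])
  have h3 := hx.indepK hn.a0 ![0, 0, 0, 2 * H.d * c0, -H.q 0 2] (by
    rw [Fin.sum_univ_five]
    have e4 : x ((3 : Fin 5).succ) = x 4 := rfl
    have e5 : x ((4 : Fin 5).succ) = x 5 := rfl
    simp only [Matrix.cons_val_zero, Matrix.cons_val_one, Matrix.cons_val, e4, e5, map_zero,
      map_neg]
    linear_combination h2) 3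
  have h4 : 2 * H.d * c0 = 0 := h3
  exact mul_ne_zero (mul_ne_zero two_ne_zero hd0) hc0' h4

/-- **The invariants of the pencil of a cubic fourfold.** -/
theorem exists_eigX {X' : Cub ℂ} (hn : X'.NonDeg) (hirr : Irreducible X'.F) {M : Type} [Field M]
    [Algebra KK M] {n n' : Fin 3 → M} (hM : Module.finrank KK M = 3)
    (h : K3 (X'.map (algebraMap ℂ KK)) sK tK n n') :
    ∃ F : Eig X'.pen M, Nonempty
      (ℍ[M, algebraMap KK M X'.pen.d, F.c] ≃ₐ[M] ℍ[M, -dt n, n 0 * n' 0]) :=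
  exists_eigK hn (cub_ne hn hirr) hM h

end Pool.Agent.GSK
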