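import Pool.Agent.GSK.KDefs

/-!
# The K3 surface of a datum

`D` a datum, `c` two parameters, `om = m w - τ_c`. For a general datum the numbers `(c, m)` for which
the quadratic form `om(v, K_c v)` is degenerate form a surface, a K3 surface of degree six in a
quadric in `ℙ⁴`, which is a triple cover of the plane of the parameters `c`.

The vectors `g_0, …, g_3` are a basis of a subspace `V` of `U` invariant under `K_c`. Let `R` be the
matrix of the numbers `om(g_i, g_j)`, `i = 0, 1`, `j = 2, 3`, let
`P = 2 det(B) tr(Z R) - mix B Z tr(B R)` and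
`Q = tr(B R) ^ 2 - 4 det(B) (det R - om(g_0, g_1) om(g_2, g_3))`. The quaternion algebra
`(d, P ^ 2 - d Q)` over the function field of the surface is the algebra of the hermitian form
`om(v, K_c v)` on `U` modulo its kernel.

`Dat.Gen D c m`: for two functions `c` in `ℂ(s, t)` the form `om(v, K_c v)` is degenerate, and `m`
generates the extension `M` of `ℂ(s, t)`.
-/

set_option autoImplicit false

noncomputable section

namespace Pool.Agent.TK

open Matrix

section

variable {R : Type} [CommRing R] (D : Dat R) (c : Fin 2 → R) (m : R)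

/-- The alternating form `m w - τ_c`. -/
def Dat.om (v v' : Fin 6 → R) : R := m * w v v' - D.tau c v v'

/-- The vector `g_i = det(B) e_i + ln(adj B, χ)(e_i) e_4`, `e_i` the unit vector. -/
def Dat.g (i : Fin 6) : Fin 6 → R :=
  D.B.det • Pi.single i 1 + ln D.B.adjugate (D.χ c) (Pi.single i 1) • Pi.single 4 1

/-- The number `om(g_i, g_j)`. -/
def Dat.og (i j : Fin 6) : R := D.om c m (D.g c i) (D.g c j)

/-- The matrix `R` of the numbers `om(g_i, g_j)`, `i = 0, 1`, `j = 2, 3`. -/
def Dat.mat : Matrix (Fin 2) (Fin 2) R :=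
  !![D.og c m 0 2, D.og c m 0 3; D.og c m 1 2, D.og c m 1 3]

/-- The number `P ^ 2 - d Q`. -/
def Dat.cls : R :=
  (2 * D.B.det * (D.Z c * D.mat c m).trace - mix D.B (D.Z c) * (D.B * D.mat c m).trace) ^ 2 -
    D.sq c * ((D.B * D.mat c m).trace ^ 2 -
      4 * D.B.det * ((D.mat c m).det - D.og c m 0 1 * D.og c m 2 3))

/-- The quadratic form `om(v, K_c v)` is degenerate. -/
def Dat.Degen : Prop :=
  ∃ v : Fin 6 → R, v ≠ 0 ∧ ∀ u, D.om c m v (D.op c u) = D.om c m (D.op c v) u

end

variable {M : Type} [Field M] [Algebra K M]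

/-- The point `(c, m)` of the surface over the generic point of the plane. -/
structure Dat.Gen (D : Dat ℂ) (c : Fin 2 → K) (m : M) : Prop where
  surf : (D.map (cc M)).Degen (fun i => algebraMap K M (c i)) m
  top : IntermediateField.adjoin K {m} = ⊤

end Pool.Agent.TK
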