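import Pool.Agent.GSK.DK3
import Pool.Agent.GSN.Delta
import Pool.Agent.GSF.NSqD

/-!
# GSK: the form `w(v, K_c v)` is nondegenerate outside a hypersurface of data
-/

set_option autoImplicit false

noncomputable section

namespace Pool.Agent.GSK.DK

open Matrix MvPolynomial Pool.Agent.GSR Pool.Agent.GSD Pool.Agent.GSX.Sq

section Ring

variable {F F' : Type} [CommRing F] [CommRing F']

/-- the polar matrix of the quadratic form `w(v, K_c v)` -/
def W0 (D : Dat F) (c : Fin 2 → F) : Matrix (Fin 6) (Fin 6) F :=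
  Matrix.of fun i j => w (Pi.single i 1) (D.K c (Pi.single j 1)) +
    w (Pi.single j 1) (D.K c (Pi.single i 1))

theorem map_W0 (f : F →+* F') (D : Dat F) (c : Fin 2 → F) :
    W0 (D.map f) (fun i => f (c i)) = (W0 D c).map f := by
  ext i j
  simp only [W0, Matrix.of_apply, Matrix.map_apply, map_add]
  rw [← map_single f i, ← map_single f j, Dat.map_K, Dat.map_K, map_w, map_w]

end Ring

/-- an example -/
def D0 : Dat ℂ where
  B := !![1, 0; 0, -1]
  N := 0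
  E := !![0, 1; 1, 0]
  γ := 0
  δ := 0
  t := 0

theorem W0_D0 : W0 D0 ![0, 0] = !![0, 0, 0, 4, 0, 0; 0, 0, -4, 0, 0, 0; 0, -4, 0, 0, 0, 0;
    4, 0, 0, 0, 0, 0; 0, 0, 0, 0, 4, 0; 0, 0, 0, 0, 0, 4] := by
  ext i j
  fin_cases i <;> fin_cases j <;>
    simp [W0, D0, w, GSR.bl, Dat.K, KK, Dat.Z, Dat.χ, mix, GSR.ln, Matrix.adjugate_fin_two,
      Matrix.det_fin_two, Matrix.mul_apply, Fin.sum_univ_two] <;> norm_num

theorem det_W0_D0 : (W0 D0 ![0, 0]).det ≠ 0 := by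
  have h2 : W0 D0 ![0, 0] * W0 D0 ![0, 0] = (16 : ℂ) • 1 := by
    rw [W0_D0]
    ext i j
    fin_cases i <;> fin_cases j <;> simp [Matrix.mul_apply, Fin.sum_univ_six] <;> norm_num
  intro h0
  have h3 := congrArg Matrix.det h2
  rw [Matrix.det_mul, h0, zero_mul, Matrix.det_smul, Matrix.det_one] at h3
  norm_num at h3

theorem exists_DeltaW : ∃ Δ : MvPolynomial GSN.Idx ℂ, Δ ≠ 0 ∧ ∀ D : Dat ℂ,
    eval (GSN.coord D) Δ ≠ 0 → (W0 D ![0, 0]).det ≠ 0 := by
  set R := MvPolynomial GSN.Idx ℂ with hR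
  set G : Dat R := GSN.ofCoord X with hG
  have hv : ∀ D : Dat ℂ, eval (GSN.coord D) (W0 G ![0, 0]).det = (W0 D ![0, 0]).det := by
    intro D
    set φ : R →+* ℂ := eval (GSN.coord D) with hφ
    have h2 : G.map φ = D := by
      rw [hG, GSN.map_ofCoord]
      have h3 : (fun i => φ (X i)) = GSN.coord D := funext fun i => eval_X _
      rw [h3]
      rfl
    have h4 : (fun i => φ ((![0, 0] : Fin 2 → R) i)) = ![0, 0] := by
      funext i
      fin_cases i <;> exact map_zero _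
    have h1 := map_W0 φ G ![0, 0]
    rw [h2, h4] at h1
    rw [h1]
    exact RingHom.map_det _ _
  refine ⟨(W0 G ![0, 0]).det, ?_, fun D hD => ?_⟩
  · intro h0
    have h1 := hv D0
    rw [h0, map_zero] at h1
    exact det_W0_D0 h1.symm
  · rwa [hv] at hD

theorem ind_c {c : Fin 2 → Kf} (hc : IntermediateField.adjoin ℂ (Set.range c) = ⊤) :
    AlgebraicIndependent ℂ c := by
  have hX : AlgebraicIndependent ℂ (fun i : Fin 2 => algebraMap S2 Kf (MvPolynomial.X i)) := by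
    have h1 : (MvPolynomial.aeval fun i : Fin 2 => algebraMap S2 Kf (MvPolynomial.X i) :
        S2 →ₐ[ℂ] Kf) = IsScalarTower.toAlgHom ℂ S2 Kf := by
      ext i
      simp
    rw [AlgebraicIndependent, h1]
    exact IsFractionRing.injective S2 Kf
  exact GSN.ind_of_top hX hc

theorem W0_ne (D : Dat ℂ) (h : (W0 D ![0, 0]).det ≠ 0) {c : Fin 2 → Kf}
    (hc : IntermediateField.adjoin ℂ (Set.range c) = ⊤) :
    (W0 (D.map (algebraMap ℂ Kf)) c).det ≠ 0 := by
  have hind := ind_c hc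
  set Q : S2 := (W0 (D.map (C : ℂ →+* S2)) X).det with hQ
  have hQ0 : Q ≠ 0 := by
    intro h0
    apply h
    have h1 := map_W0 (eval (![0, 0] : Fin 2 → ℂ)) (D.map (C : ℂ →+* S2)) X
    have h2 : (D.map (C : ℂ →+* S2)).map (eval (![0, 0] : Fin 2 → ℂ)) = D := by
      simp only [Dat.map, Matrix.map_map, Function.comp_def, eval_C]
      rfl
    have h3 : (fun i => eval (![0, 0] : Fin 2 → ℂ) (X i)) = ![0, 0] := funext fun i => eval_X _
    rw [h2, h3] at h1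
    rw [h1]
    have h4 : ((W0 (D.map (C : ℂ →+* S2)) X).map (eval (![0, 0] : Fin 2 → ℂ))).det =
        eval (![0, 0] : Fin 2 → ℂ) Q := (RingHom.map_det _ _).symm
    rw [h4, h0, map_zero]
  have h1 := map_W0 ((aeval c : S2 →ₐ[ℂ] Kf) : S2 →+* Kf) (D.map (C : ℂ →+* S2)) X
  have h2 : (D.map (C : ℂ →+* S2)).map ((aeval c : S2 →ₐ[ℂ] Kf) : S2 →+* Kf) =
      D.map (algebraMap ℂ Kf) := by
    have h5 : ∀ z : ℂ, ((aeval c : S2 →ₐ[ℂ] Kf) : S2 →+* Kf) (C z) = algebraMap ℂ Kf z :=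
      fun z => aeval_C c z
    simp only [Dat.map, Matrix.map_map, Function.comp_def, h5]
  have h3 : (fun i => ((aeval c : S2 →ₐ[ℂ] Kf) : S2 →+* Kf) (X i)) = c :=
    funext fun i => aeval_X _ i
  rw [h2, h3] at h1
  rw [h1]
  have h4 : ((aeval c : S2 →ₐ[ℂ] Kf) : S2 →+* Kf) Q =
      ((W0 (D.map (C : ℂ →+* S2)) X).map ((aeval c : S2 →ₐ[ℂ] Kf) : S2 →+* Kf)).det :=
    RingHom.map_det ((aeval c : S2 →ₐ[ℂ] Kf) : S2 →+* Kf) _
  rw [← h4]
  intro h5
  have h6 : (aeval c : S2 →ₐ[ℂ] Kf) Q = (aeval c : S2 →ₐ[ℂ] Kf) 0 := by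
    rw [map_zero]
    exact h5
  exact hQ0 (hind h6)

theorem Z_ne (D : Dat ℂ) {c : Fin 2 → Kf}
    (hc : IntermediateField.adjoin ℂ (Set.range c) = ⊤) :
    (D.map (algebraMap ℂ Kf)).Z c 1 1 ≠ 0 := by
  have hind := ind_c hc
  intro h0
  have h1 : aeval c (C (D.E 1 1) - X 0 - X 1 * C (D.N 1 1) : S2) = 0 := by
    simp only [map_sub, map_mul, aeval_C, aeval_X]
    simpa [Dat.Z, Dat.map] using h0
  have h2 : (C (D.E 1 1) - X 0 - X 1 * C (D.N 1 1) : S2) = 0 := by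
    apply hind
    rw [h1, map_zero]
  have h3 := congrArg (eval (![0, 0] : Fin 2 → ℂ)) h2
  have h4 := congrArg (eval (![1, 0] : Fin 2 → ℂ)) h2
  simp at h3 h4
  rw [h3] at h4
  norm_num at h4

end Pool.Agent.GSK.DK
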