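import Pool.Agent.GSK.KDefs
import Pool.Agent.GSK.CubNe
import Pool.Agent.GSF.Final

/-!
# GSK: the theorem with the K3 surface of the cubic fourfold
-/

set_option autoImplicit false

noncomputable section

namespace Pool.Agent.TK

open MvPolynomial Matrix
open scoped Quaternion

section Bridge

variable {K : Type} [Field K] {M : Type} [Field M] [Algebra K M]

/-- eigenvectors of a pencil of the library -/
def eigOf {H : GSH.Pen K} (E : GSQ.Eig H M) : (toPencil H).Eig M where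
  m := E.m
  v := E.v
  gen := E.gen
  eig := by
    intro i
    change aeval E.v (pderiv i (pol6 (H.Q 1))) = E.m * aeval E.v (pderiv i (pol6 (H.Q 0)))
    rw [pderiv_pol6, pderiv_pol6]
    exact congrFun E.eig i
  ne := by
    change aeval E.v (pol6 (H.Q 0)) ≠ 0
    rw [aeval_pol6]
    exact E.ne

theorem eigOf_c {H : GSH.Pen K} (E : GSQ.Eig H M) : (eigOf E).c = E.c :=
  (eigOf E).to_c.symm

end Bridge

variable {M : Type} [Field M] [Algebra K M]

theorem Cub.Gen.to {X : Cub ℂ} {n n' : Fin 3 → M} (h : X.Gen n n') :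
    GSK.K3 (X.to.map (algebraMap ℂ K)) GSX.sK GSX.tK n n' := by
  have hg : ∀ k, GSK.gS (X.to.map (algebraMap ℂ K)) n n' k = (X.map (cc M)).gg n n' k :=
    fun k => rfl
  refine ⟨?_, h.surf.quad, ?_, h.p0, h.p1, h.p2, h.top⟩
  · rw [hg]
    exact h.surf.lin
  · rw [hg, hg, hg, hg, hg]
    exact h.surf.cubic

/-- **The invariants of the pencil of a cubic fourfold.** -/
theorem Cub.Gen.exists_eig {X : Cub ℂ} {n n' : Fin 3 → M} (h : X.Gen n n') (hn : X.NonDeg)
    (hirr : Irreducible X.F) (hM : Module.finrank K M = 3) : ∃ E : X.pencil.Eig M, Nonempty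
      (ℍ[M, algebraMap K M X.pencil.d, E.c] ≃ₐ[M] ℍ[M, -det2 n, n 0 * n' 0]) := by
  rw [← X.to_F] at hirr
  obtain ⟨F, hF⟩ := GSK.exists_eigX (X' := X.to) ⟨hn.det, hn.a0, hn.b0⟩ hirr hM h.to
  rw [cub_pencil]
  refine ⟨eigOf F, ?_⟩
  rw [eigOf_c]
  exact hF

/-- **The theorem with the K3 surface of the cubic.** -/
theorem final_K3 : ∃ Δ : MvPolynomial Idx ℂ, Δ ≠ 0 ∧
    ∀ (X : Cub ℂ) (D : Dat ℂ) (c : Fin 2 → K), X.NonDeg → Irreducible X.F →
      eval D.coord Δ ≠ 0 → IntermediateField.adjoin ℂ (Set.range c) = ⊤ →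
      ∀ (M : Type) [Field M] [Algebra K M] (n n' : Fin 3 → M) (E : (D.pencil c).Eig M),
        Module.finrank K M = 3 → X.Gen n n' →
        Nonempty (ℍ[M, -det2 n, n 0 * n' 0] ≃ₐ[M] ℍ[M, algebraMap K M (D.pencil c).d, E.c]) →
        Pool.Agent.P28.Rational X.F := by
  obtain ⟨Δ, hΔ, h⟩ := final
  refine ⟨Δ, hΔ, fun X D c hn hirr hD hc M _ _ n n' E hM hg he => ?_⟩
  obtain ⟨E₁, ⟨q₁⟩⟩ := hg.exists_eig hn hirr hM
  obtain ⟨q₂⟩ := he
  exact h X D c hn hirr hD hc ⟨M, inferInstance, inferInstance, hM, E₁, E, ⟨q₁.trans q₂⟩⟩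

end Pool.Agent.TK
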