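import Pool.Agent.GSK.Quat

/-!
# GSK: degenerate quaternion algebras

`ne_zero`: an algebra `(a', b')` isomorphic to `(a, b)`, `a, b` not zero, has `b'` not zero.
-/

set_option autoImplicit false

noncomputable section

namespace Pool.Agent.GSK.Quat

open scoped Quaternion

variable {F : Type*} [Field F]

theorem re_zero (h2 : (2 : F) ≠ 0) {a b : F} (q : ℍ[F, a, b]) (h : q * q = 0) : q.re = 0 := by
  by_contra h0
  have e0 := congrArg QuaternionAlgebra.re h
  have e1 := congrArg QuaternionAlgebra.imI h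
  have e2 := congrArg QuaternionAlgebra.imJ h
  have e3 := congrArg QuaternionAlgebra.imK h
  simp at e0 e1 e2 e3
  have f1 : (2 * q.re) * q.imI = 0 := by linear_combination e1
  have f2 : (2 * q.re) * q.imJ = 0 := by linear_combination e2
  have f3 : (2 * q.re) * q.imK = 0 := by linear_combination e3
  have g1 := (mul_eq_zero.1 f1).resolve_left (mul_ne_zero h2 h0)
  have g2 := (mul_eq_zero.1 f2).resolve_left (mul_ne_zero h2 h0)
  have g3 := (mul_eq_zero.1 f3).resolve_left (mul_ne_zero h2 h0)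
  rw [g1, g2, g3] at e0
  simp at e0
  exact h0 e0

theorem ne_zero (h2 : (2 : F) ≠ 0) {a b a' b' : F} (ha : a ≠ 0) (hb : b ≠ 0)
    (h : Nonempty (ℍ[F, a, b] ≃ₐ[F] ℍ[F, a', b'])) : b' ≠ 0 := by
  rintro rfl
  obtain ⟨φ⟩ := h
  set j : ℍ[F, a', 0] := ⟨0, 0, 1, 0⟩ with hj
  have h1 : ∀ x : ℍ[F, a', 0], j * x * j = 0 := by
    intro x
    rw [hj]
    ext <;> simp
  set y : ℍ[F, a, b] := φ.symm j with hy
  have h3 : ∀ z : ℍ[F, a, b], (y * z).re = 0 := by
    intro z
    apply re_zero h2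
    have h4 : y * z * (y * z) = φ.symm (j * φ z * j) * z := by
      rw [map_mul, map_mul, AlgEquiv.symm_apply_apply]
      simp only [mul_assoc]
      rfl
    rw [h4, h1, map_zero, zero_mul]
  have e0 := h3 ⟨1, 0, 0, 0⟩
  have e1 := h3 ⟨0, 1, 0, 0⟩
  have e2 := h3 ⟨0, 0, 1, 0⟩
  have e3 := h3 ⟨0, 0, 0, 1⟩
  simp [ha, hb] at e0 e1 e2 e3
  have h5 : y = 0 := by
    ext
    · exact e0
    · exact e1
    · exact e2
    · exact e3
  have h6 : j = 0 := by
    have h7 : φ y = j := by rw [hy, AlgEquiv.apply_symm_apply]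
    rw [← h7, h5, map_zero]
  have h8 := congrArg QuaternionAlgebra.imJ h6
  rw [hj] at h8
  simp at h8

end Pool.Agent.GSK.Quat
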