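import Pool.Agent.GSK.DDel
import Pool.Agent.GSK.DDefs
import Pool.Agent.GSK.KFin
import Pool.Agent.GSK.QuatNe

/-!
# GSK: the theorem with the two K3 surfaces
-/

set_option autoImplicit false

noncomputable section

namespace Pool.Agent.TK

open MvPolynomial Matrix
open scoped Quaternion

section Ring

variable {R : Type} [CommRing R] (D : Dat R) (c : Fin 2 → R) (m : R)

theorem Dat.cls_eq : D.cls c m = 4 * (D.B.det * GSK.DK.ka D.to c m) := by
  have h1 : D.sq c = mix D.B (D.Z c) ^ 2 - 4 * D.B.det * (D.Z c).det := rfl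
  have h2 : GSK.DK.ka D.to c m = D.sq c * ((D.mat c m).det - D.og c m 0 1 * D.og c m 2 3) +
    ((D.Z c).det * (D.B * D.mat c m).trace ^ 2 -
      mix D.B (D.Z c) * ((D.B * D.mat c m).trace * (D.Z c * D.mat c m).trace) +
      D.B.det * (D.Z c * D.mat c m).trace ^ 2) := rfl
  rw [h2, Dat.cls, h1]
  ring

end Ring

variable {M : Type} [Field M] [Algebra K M]

theorem Dat.toM (D : Dat ℂ) : (D.map (cc M)).to = GSK.DK.DM (D.to.map (algebraMap ℂ K)) M := rfl

/-- **The invariants of the pencil of a datum.** -/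
theorem Dat.Gen.exists_eig : ∃ Δ : MvPolynomial Idx ℂ, Δ ≠ 0 ∧
    ∀ (D : Dat ℂ) (c : Fin 2 → K), eval D.coord Δ ≠ 0 →
      IntermediateField.adjoin ℂ (Set.range c) = ⊤ →
      ∀ (M : Type) [Field M] [Algebra K M] (m : M), Module.finrank K M = 3 → D.Gen c m →
        (D.map (cc M)).cls (fun i => algebraMap K M (c i)) m ≠ 0 →
        ∃ E : (D.pencil c).Eig M, E.m = m ∧
          Nonempty (ℍ[M, algebraMap K M (D.pencil c).d, E.c] ≃ₐ[M]
            ℍ[M, (D.map (cc M)).sq (fun i => algebraMap K M (c i)),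
              (D.map (cc M)).cls (fun i => algebraMap K M (c i)) m]) := by
  obtain ⟨Δ₁, h₁, hg⟩ := GSN.exists_Delta
  obtain ⟨Δ₂, h₂, hw⟩ := GSK.DK.exists_DeltaW
  refine ⟨Δ₁ * Δ₂, mul_ne_zero h₁ h₂, fun D c hD hc M _ _ m hM hm hcls => ?_⟩
  rw [map_mul] at hD
  obtain ⟨hgood, hli⟩ := hg D.to (left_ne_zero_of_mul hD)
  have hw0 := hw D.to (right_ne_zero_of_mul hD)
  have hw1 := GSK.DK.W0_ne D.to hw0 hc
  obtain ⟨_, _, _, _, _, hB, _⟩ := id hgood
  have hB' : (D.to.map (algebraMap ℂ K)).B.det ≠ 0 := by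
    have h1 : (D.to.map (algebraMap ℂ K)).B.det = algebraMap ℂ K D.to.B.det := GSR.map_det' _ _
    rw [h1, Ne, map_eq_zero]
    exact hB
  have hns := GSF.s2_nsq D.to hB hli hc
  obtain ⟨v, hv, hv'⟩ := hm.surf
  have hM2 : CharZero M := charZero_of_injective_algebraMap (algebraMap K M).injective
  have hcls' : 4 * ((D.map (cc M)).B.det * GSK.DK.ka (D.map (cc M)).to
      (fun i => algebraMap K M (c i)) m) ≠ 0 := by
    rw [← Dat.cls_eq]
    exact hcls
  have hka := right_ne_zero_of_mul (right_ne_zero_of_mul hcls')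
  have hnd : (GSQ.pol (GSD.hd (D.to.map (algebraMap ℂ K)) c) 0).det ≠ 0 := hw1
  obtain ⟨F, hF, ⟨φ⟩⟩ := GSK.DK.exists_eig_hd (D.to.map (algebraMap ℂ K)) c m hM hB'
    (GSK.DK.Z_ne D.to hc) hns hnd hm.top hv hv' hka
  rw [dat_pencil]
  refine ⟨eigOf F, hF, ?_⟩
  rw [eigOf_c]
  have hs : (D.map (cc M)).sq (fun i => algebraMap K M (c i)) =
      algebraMap K M (GSD.hd (D.to.map (algebraMap ℂ K)) c).d :=
    GSK.DK.s2_M (D.to.map (algebraMap ℂ K)) c
  have hdet : algebraMap K M (D.to.map (algebraMap ℂ K)).B.det = (D.map (cc M)).B.det :=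
    (GSR.map_det' (algebraMap K M) (D.to.map (algebraMap ℂ K)).B).symm
  rw [hdet] at φ
  obtain ⟨ψ⟩ := GSK.Quat.norm (a := algebraMap K M (GSD.hd (D.to.map (algebraMap ℂ K)) c).d)
    (b := (D.map (cc M)).B.det * GSK.DK.ka (D.map (cc M)).to (fun i => algebraMap K M (c i)) m)
    (x := 2) (y := 0) hcls (by rw [Dat.cls_eq]; ring)
  rw [hs]
  exact ⟨φ.trans ψ.symm⟩

theorem Pencil.Eig.c_ne {F : Type} [Field F] [CharZero F] {H : GSH.Pen F} {M : Type} [Field M]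
    [Algebra F M] (hM : Module.finrank F M = 3) (E : (toPencil H).Eig M) : E.c ≠ 0 := by
  have hfin := GSQ.fin_of_three hM
  have he : E.e ≠ 0 := by
    refine mul_ne_zero ?_ E.ne
    exact (Algebra.IsSeparable.isSeparable F E.m).aeval_derivative_ne_zero (minpoly.aeval F E.m)
  rw [Pencil.Eig.c]
  refine mul_ne_zero he ?_
  rw [Ne, map_eq_zero, Algebra.norm_eq_zero_iff]
  exact he

/-- **The theorem with the two K3 surfaces.** -/
theorem final_KK : ∃ Δ : MvPolynomial Idx ℂ, Δ ≠ 0 ∧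
    ∀ (X : Cub ℂ) (D : Dat ℂ) (c : Fin 2 → K), X.NonDeg → Irreducible X.F →
      eval D.coord Δ ≠ 0 → IntermediateField.adjoin ℂ (Set.range c) = ⊤ →
      ∀ (M : Type) [Field M] [Algebra K M] (n n' : Fin 3 → M) (m : M),
        Module.finrank K M = 3 → X.Gen n n' → D.Gen c m →
        Nonempty (ℍ[M, -det2 n, n 0 * n' 0] ≃ₐ[M]
          ℍ[M, (D.map (cc M)).sq (fun i => algebraMap K M (c i)),
            (D.map (cc M)).cls (fun i => algebraMap K M (c i)) m]) →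
        Pool.Agent.P28.Rational X.F := by
  obtain ⟨Δ₁, h₁, h⟩ := final
  obtain ⟨Δ₂, h₂, h'⟩ := Dat.Gen.exists_eig
  refine ⟨Δ₁ * Δ₂, mul_ne_zero h₁ h₂, fun X D c hn hirr hD hc M _ _ n n' m hM hg hm he => ?_⟩
  rw [map_mul] at hD
  obtain ⟨E₁, ⟨q₁⟩⟩ := hg.exists_eig hn hirr hM
  obtain ⟨q⟩ := he
  have hM2 : CharZero M := charZero_of_injective_algebraMap (algebraMap K M).injective
  have hd : algebraMap K M X.pencil.d ≠ 0 := by
    rw [Ne, map_eq_zero]
    exact GSX.dK_ne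
  have hc0 : E₁.c ≠ 0 := by
    revert E₁
    rw [cub_pencil]
    intro E₁ _
    exact E₁.c_ne hM
  have hcls := GSK.Quat.ne_zero (two_ne_zero : (2 : M) ≠ 0) hd hc0 ⟨q₁.trans q⟩
  obtain ⟨E₂, -, ⟨q₂⟩⟩ := h' D c (right_ne_zero_of_mul hD) hc M m hM hm hcls
  exact h X D c hn hirr (left_ne_zero_of_mul hD) hc
    ⟨M, inferInstance, inferInstance, hM, E₁, E₂, ⟨(q₁.trans q).trans q₂.symm⟩⟩

end Pool.Agent.TK
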