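import Mathlib.Algebra.Quaternion
import Mathlib.Tactic.FieldSimp
import Mathlib.Tactic.LinearCombination

/-!
# GSK: isomorphisms of quaternion algebras

`norm`: `(a, b (x² - a y²)) = (a, b)`. `swap`: `(a, b) = (b, a)`.
-/

set_option autoImplicit false

noncomputable section

namespace Pool.Agent.GSK.Quat

open scoped Quaternion

variable {F : Type*} [Field F]

/-- `(a, b (x² - a y²)) = (a, b)` -/
def normEquiv {a b b' x y : F} (hN : x ^ 2 - a * y ^ 2 ≠ 0) (h : b' = b * (x ^ 2 - a * y ^ 2)) :
    ℍ[F, a, b'] ≃ₐ[F] ℍ[F, a, b] :=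
  AlgEquiv.ofLinearEquiv
    { toFun := fun z => ⟨z.re, z.imI, z.imJ * x + z.imK * (a * y), z.imJ * y + z.imK * x⟩
      invFun := fun z => ⟨z.re, z.imI, (x * z.imJ - a * y * z.imK) / (x ^ 2 - a * y ^ 2),
        (x * z.imK - y * z.imJ) / (x ^ 2 - a * y ^ 2)⟩
      map_add' := fun z w => by
        ext <;> simp <;> ring
      map_smul' := fun c z => by
        ext <;> simp <;> ring
      left_inv := fun z => by
        ext
        · rfl
        · rfl
        · simp only
          rw [div_eq_iff hN]
          ring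
        · simp only
          rw [div_eq_iff hN]
          ring
      right_inv := fun z => by
        ext
        · rfl
        · rfl
        · simp only
          rw [div_mul_eq_mul_div, div_mul_eq_mul_div, ← add_div, div_eq_iff hN]
          ring
        · simp only
          rw [div_mul_eq_mul_div, div_mul_eq_mul_div, ← add_div, div_eq_iff hN]
          ring }
    (by
      ext <;> simp)
    (fun z w => by
      subst h
      ext <;> simp <;> ring)

theorem norm {a b b' x y : F} (hb' : b' ≠ 0) (h : b' = b * (x ^ 2 - a * y ^ 2)) :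
    Nonempty (ℍ[F, a, b'] ≃ₐ[F] ℍ[F, a, b]) :=
  ⟨normEquiv (fun h0 => hb' (by rw [h, h0, mul_zero])) h⟩

theorem swap (a b : F) : Nonempty (ℍ[F, a, b] ≃ₐ[F] ℍ[F, b, a]) :=
  ⟨QuaternionAlgebra.swapEquiv a b⟩

end Pool.Agent.GSK.Quat
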