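import Pool.Agent.GSK.Model
import Pool.Agent.GSK.Quat
import Pool.Agent.GSF.AsmQ

/-!
# GSK: the quaternion algebra of a type O datum

`D` a type O datum over `K`, `c` two parameters, `om = m w - τ_c`. The four vectors
`g_i = det(B) e_i + ln(adj B, χ)(e_i) e_x` span a subspace invariant under `K_c`. `R` is the `2 × 2`
matrix of the numbers `om(g_i, g_j)`, `i = 0, 1`, `j = 2, 3`, and
`κ = d (det R - om(g_0, g_1) om(g_2, g_3)) + det Z tr(BR)² - mix tr(BR) tr(ZR) + det B tr(ZR)²`.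

`kap_eq`: the minor of the hermitian matrix of `m Q 0 - Q 1` on `g_0, g_2` is, up to a norm from
`K(√d)`, the number `- det(B) κ`. So the quaternion algebra is `(d, det(B) κ)` (`exists_eig_hd`).
-/

set_option autoImplicit false

noncomputable section

namespace Pool.Agent.GSK.DK

open Matrix Pool.Agent.GSH Pool.Agent.GSX Pool.Agent.GSQ Pool.Agent.GSR Pool.Agent.GSD
open Pool.Agent.GSK
open scoped Quaternion

section Ring

variable {R : Type} [CommRing R] (D : GSR.Dat R) (c : Fin 2 → R) (m : R)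

/-- the alternating form `m w - τ_c` -/
def om (u v : Fin 6 → R) : R := m * w u v - D.tau c u v

/-- the vector `det(B) e_i + ln(adj B, χ)(e_i) e_x` -/
def g (i : Fin 6) : Fin 6 → R :=
  D.B.det • Pi.single i 1 + ln D.B.adjugate (D.χ c) (Pi.single i 1) • Pi.single 4 1

/-- the matrix of the numbers `om(g_i, g_j)` -/
def Rm : Matrix (Fin 2) (Fin 2) R :=
  !![om D c m (g D c 0) (g D c 2), om D c m (g D c 0) (g D c 3);
    om D c m (g D c 1) (g D c 2), om D c m (g D c 1) (g D c 3)]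

/-- the number `κ` -/
def ka : R :=
  D.s2 c * ((Rm D c m).det - om D c m (g D c 0) (g D c 1) * om D c m (g D c 2) (g D c 3)) +
    ((D.Z c).det * (D.B * Rm D c m).trace ^ 2 -
      mix D.B (D.Z c) * ((D.B * Rm D c m).trace * (D.Z c * Rm D c m).trace) +
      D.B.det * (D.Z c * Rm D c m).trace ^ 2)

/-- the coefficients of `K g_0 = a g_0 + b g_1`, `K g_2 = a' g_2 + b' g_3` -/
def ca : Fin 4 → R :=
  ![2 * (D.B.adjugate * D.Z c) 0 0 - mix D.B (D.Z c), 2 * (D.B.adjugate * D.Z c) 0 1,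
    2 * (D.Z c * D.B.adjugate) 0 0 - mix D.B (D.Z c), 2 * (D.Z c * D.B.adjugate) 1 0]

theorem K_g0 : D.K c (g D c 0) = ca D c 0 • g D c 0 + ca D c 1 • g D c 1 := by
  funext i
  fin_cases i <;>
    simp [Dat.K, KK, g, ca, ln, mix, Matrix.det_fin_two, Matrix.adjugate_fin_two, Matrix.mul_apply,
      Fin.sum_univ_two] <;> ring

theorem K_g2 : D.K c (g D c 2) = ca D c 2 • g D c 2 + ca D c 3 • g D c 3 := by
  funext i
  fin_cases i <;>
    simp [Dat.K, KK, g, ca, ln, mix, Matrix.det_fin_two, Matrix.adjugate_fin_two, Matrix.mul_apply,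
      Fin.sum_univ_two] <;> ring

theorem kap_id (B Z r : Matrix (Fin 2) (Fin 2) R) (s t a b a' b' : R)
    (ha : a = 2 * (B.adjugate * Z) 0 0 - mix B Z) (hb : b = 2 * (B.adjugate * Z) 0 1)
    (ha' : a' = 2 * (Z * B.adjugate) 0 0 - mix B Z) (hb' : b' = 2 * (Z * B.adjugate) 1 0) :
    4 * disc B Z * (b * s * (b' * t)) -
      disc B Z * ((a' - a) * r 0 0 + b' * r 0 1 - b * r 1 0) ^ 2 +
      ((disc B Z - a * a') * r 0 0 - a * b' * r 0 1 - b * a' * r 1 0 - b * b' * r 1 1) ^ 2 =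
    -(4 * (b * b') * (disc B Z * (r.det - s * t) + (Z.det * (B * r).trace ^ 2 -
      mix B Z * ((B * r).trace * (Z * r).trace) + B.det * (Z * r).trace ^ 2))) := by
  subst ha hb ha' hb'
  simp only [disc, mix, Matrix.det_fin_two, Matrix.adjugate_fin_two, Matrix.mul_apply,
    Fin.sum_univ_two, Matrix.trace, Matrix.diag_apply, Matrix.of_apply, Matrix.cons_val_zero,
    Matrix.cons_val_one, Matrix.cons_val_fin_one, Matrix.cons_val']
  ring

/-- `-4 b b' det(B)` is a norm -/
theorem norm_id (B Z : Matrix (Fin 2) (Fin 2) R) :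
    -(B.det * ((2 * (B.adjugate * Z) 0 1) * (2 * (Z * B.adjugate) 1 0))) =
      (2 * B.det * Z 1 1 - B 1 1 * mix B Z) ^ 2 - disc B Z * B 1 1 ^ 2 := by
  simp only [disc, mix, Matrix.det_fin_two, Matrix.adjugate_fin_two, Matrix.mul_apply,
    Fin.sum_univ_two, Matrix.of_apply, Matrix.cons_val_zero,
    Matrix.cons_val_one, Matrix.cons_val_fin_one, Matrix.cons_val']
  ring

end Ring

/-! ### The pencil -/

section Pen

variable {K : Type} [Field K] (D : GSR.Dat K) (c : Fin 2 → K)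

theorem S_eq (v : Fin 6 → K) : (hd D c).S *ᵥ v = D.K c v := by
  funext i
  exact (lin_sum (KL D c) v i).symm

theorem dot_mat (β : (Fin 6 → K) →ₗ[K] (Fin 6 → K) →ₗ[K] K) (u v : Fin 6 → K) :
    u ⬝ᵥ ((mat β + (mat β)ᵀ) *ᵥ v) = β u v + β v u := by
  have h1 : ∀ u v : Fin 6 → K, u ⬝ᵥ (mat β *ᵥ v) = β u v := fun u v => (bil_sum β u v).symm
  rw [add_mulVec, dotProduct_add, h1, mulVec_transpose, dotProduct_comm, ← dotProduct_mulVec, h1]

theorem dot0 (u v : Fin 6 → K) :
    u ⬝ᵥ (pol (hd D c) 0 *ᵥ v) = w u (D.K c v) + w v (D.K c u) :=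
  dot_mat (wL.compl₂ (KL D c)) u v

theorem dot1 (u v : Fin 6 → K) :
    u ⬝ᵥ (pol (hd D c) 1 *ᵥ v) = D.tau c u (D.K c v) + D.tau c v (D.K c u) :=
  dot_mat ((tauL D c).compl₂ (KL D c)) u v

theorem K_K' (v : Fin 6 → K) : D.K c (D.K c v) = D.s2 c • v := funext fun i => D.K_K c v i

theorem K_add (u v : Fin 6 → K) : D.K c (u + v) = D.K c u + D.K c v := (KL D c).map_add u v

theorem K_smul (a : K) (v : Fin 6 → K) : D.K c (a • v) = a • D.K c v := (KL D c).map_smul a v

variable {M : Type} [Field M] [Algebra K M] (m : M)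

/-- the alternating form `m w - τ_c` over `M` -/
def oM (u v : Fin 6 → K) : M := algebraMap K M (w u v) * m - algebraMap K M (D.tau c u v)

theorem oM_add_left (u u' v : Fin 6 → K) : oM D c m (u + u') v = oM D c m u v + oM D c m u' v := by
  have h1 : w (u + u') v = w u v + w u' v := wL.map_add₂ u u' v
  rw [oM, h1, tau_add_left, map_add, map_add]
  simp only [oM]
  ring

theorem oM_smul_left (a : K) (u v : Fin 6 → K) :
    oM D c m (a • u) v = algebraMap K M a * oM D c m u v := by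
  have h1 : w (a • u) v = a * w u v := wL.map_smul₂ a u v
  rw [oM, h1, tau_smul_left, map_mul, map_mul]
  simp only [oM]
  ring

theorem oM_anti (u v : Fin 6 → K) : oM D c m u v = -oM D c m v u := by
  rw [oM, oM, w_anti u v, tau_anti D c u v, map_neg, map_neg]
  ring

theorem oM_add_right (u v v' : Fin 6 → K) :
    oM D c m u (v + v') = oM D c m u v + oM D c m u v' := by
  rw [oM_anti, oM_add_left, oM_anti D c m u v, oM_anti D c m u v']
  ring

theorem oM_smul_right (a : K) (u v : Fin 6 → K) :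
    oM D c m u (a • v) = algebraMap K M a * oM D c m u v := by
  rw [oM_anti, oM_smul_left, oM_anti D c m u v]
  ring

theorem half (a : K) : algebraMap K M (1 / 2 * a) = 1 / 2 * algebraMap K M a := by
  rw [map_mul, map_div₀, map_one, map_ofNat]

theorem hp_M (u v : Fin 6 → K) :
    algebraMap K M (hp (hd D c) 0 u v) * m - algebraMap K M (hp (hd D c) 1 u v) =
      1 / 2 * (oM D c m u (D.K c v) + oM D c m v (D.K c u)) := by
  rw [hp, hp, dot0, dot1, half, half, map_add, map_add]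
  simp only [oM]
  ring

theorem hq_j [CharZero K] (h0 : D.s2 c ≠ 0) (j : Fin 2) (u v : Fin 6 → K) :
    2 * D.s2 c * hq (hd D c) j u v = -(u ⬝ᵥ (pol (hd D c) j *ᵥ D.K c v)) := by
  have h1 : (hd D c).d = D.s2 c := rfl
  rw [hq, S_eq, h1, mul_div_cancel₀ _ (mul_ne_zero two_ne_zero h0)]

theorem hq_M [CharZero K] (h0 : D.s2 c ≠ 0) (u v : Fin 6 → K) :
    2 * algebraMap K M (D.s2 c) * (algebraMap K M (hq (hd D c) 0 u v) * m -
      algebraMap K M (hq (hd D c) 1 u v)) =
      -(algebraMap K M (D.s2 c) * oM D c m u v + oM D c m (D.K c v) (D.K c u)) := by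
  have h1 := congrArg (algebraMap K M) (hq_j D c h0 0 u v)
  have h2 := congrArg (algebraMap K M) (hq_j D c h0 1 u v)
  have h3 : w u (D.s2 c • v) = D.s2 c * w u v := by
    rw [w_anti, w_anti u v]
    have h4 : w (D.s2 c • v) u = D.s2 c * w v u := wL.map_smul₂ _ v u
    rw [h4]
    ring
  rw [dot0, K_K', h3] at h1
  rw [dot1, K_K', tau_smul_right] at h2
  simp only [map_mul, map_neg, map_add, map_ofNat] at h1 h2
  simp only [oM]
  linear_combination m * h1 - h2

/-- the vectors `g_0, g_2, e_x` -/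
def fv : Fin 3 → Fin 6 → K := ![g D c 0, g D c 2, Pi.single 4 1]

theorem g_l (i l : Fin 6) : g D c i l = D.B.det * (Pi.single i 1 : Fin 6 → K) l +
    ln D.B.adjugate (D.χ c) (Pi.single i 1) * (Pi.single 4 1 : Fin 6 → K) l := rfl

theorem K_x : D.K c (Pi.single 4 1) = ![0, 0, 0, 0, mix D.B (D.Z c), -2 * D.B.det] := by
  funext i
  fin_cases i <;> simp [Dat.K, KK, ln]

theorem det_fT (hB : D.B.det ≠ 0) (h2 : (2 : K) ≠ 0) (h1 : ca D c 1 ≠ 0) (h3 : ca D c 3 ≠ 0) :
    (fT (hd D c) (fv D c)).det ≠ 0 := by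
  intro h0
  obtain ⟨x, hx, hx0⟩ := Matrix.exists_mulVec_eq_zero_iff.2 h0
  have hf : ∀ l, (fT (hd D c) (fv D c) *ᵥ x) l = g D c 0 l * x 0 + g D c 2 l * x 1 +
      (Pi.single 4 1 : Fin 6 → K) l * x 2 + (D.K c (g D c 0)) l * x 3 +
      (D.K c (g D c 2)) l * x 4 + (D.K c (Pi.single 4 1)) l * x 5 := by
    intro l
    simp only [mulVec, dotProduct, fT, Matrix.of_apply, Fin.sum_univ_six, fc, S_eq, fv]
    rfl
  rw [hx0, K_g0, K_g2, K_x] at hf
  have e5 := hf 5
  have e1 := hf 1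
  have e3 := hf 3
  have e0 := hf 0
  have e2 := hf 2
  have e4 := hf 4
  simp only [Pi.add_apply, Pi.smul_apply, smul_eq_mul, g_l] at e0 e1 e2 e3 e4 e5
  have x5 : x 5 = 0 := by
    simpa [h2, hB] using e5
  have x3 : x 3 = 0 := by
    simpa [h1, hB] using e1
  have x4 : x 4 = 0 := by
    simpa [h3, hB] using e3
  have x0 : x 0 = 0 := by
    simpa [x3, hB] using e0
  have x1 : x 1 = 0 := by
    simpa [x4, hB] using e2
  have x2 : x 2 = 0 := by
    simpa [x0, x1, x3, x4, x5, hB] using e4.symm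
  apply hx
  funext i
  fin_cases i
  · exact x0
  · exact x1
  · exact x2
  · exact x3
  · exact x4
  · exact x5

/-! ### Extension of scalars -/

/-- the datum over `M` -/
abbrev DM (M : Type) [Field M] [Algebra K M] : GSR.Dat M := D.map (algebraMap K M)

/-- the parameters over `M` -/
abbrev cM (M : Type) [Field M] [Algebra K M] : Fin 2 → M := fun i => algebraMap K M (c i)

theorem map_g (i : Fin 6) : g (DM D M) (cM c M) i = fun l => algebraMap K M (g D c i l) := by
  funext l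
  have h1 : (DM D M).B.det = algebraMap K M D.B.det := map_det' _ _
  have h2 : ln (DM D M).B.adjugate ((DM D M).χ (cM c M)) (Pi.single i 1) =
      algebraMap K M (ln D.B.adjugate (D.χ c) (Pi.single i 1)) := by
    rw [← map_single (algebraMap K M) i, Dat.map_χ]
    have h3 : (DM D M).B.adjugate = D.B.adjugate.map (algebraMap K M) := map_adj _ _
    rw [h3, map_ln]
  rw [g_l, g_l, h1, h2, map_add, map_mul, map_mul, ← map_single (algebraMap K M) i,
    ← map_single (algebraMap K M) 4]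

theorem om_g (i j : Fin 6) : om (DM D M) (cM c M) m (g (DM D M) (cM c M) i)
    (g (DM D M) (cM c M) j) = oM D c m (g D c i) (g D c j) := by
  rw [map_g, map_g, om, map_w, Dat.map_tau, mul_comm]
  rfl

theorem s2_M : (DM D M).s2 (cM c M) = algebraMap K M (D.s2 c) := by
  rw [Dat.s2, Dat.map_Z]
  exact map_disc _ _ _

theorem ca_M (i : Fin 4) : ca (DM D M) (cM c M) i = algebraMap K M (ca D c i) := by
  have h1 : (DM D M).B.adjugate = D.B.adjugate.map (algebraMap K M) := map_adj _ _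
  have h2 : mix (DM D M).B ((D.Z c).map (algebraMap K M)) = algebraMap K M (mix D.B (D.Z c)) :=
    map_mix _ _ _
  have h3 : algebraMap K M 2 = 2 := map_ofNat _ 2
  fin_cases i <;> simp [ca, h1, h2, h3, Dat.map_Z, ← map_mul', -Matrix.map_mul]

theorem kap_eq [CharZero K] (h0 : D.s2 c ≠ 0) :
    4 * algebraMap K M (D.s2 c) * kap (algebraMap K M (D.s2 c)) (pM (hm (hd D c) (fv D c)) m)
      (qM (hm (hd D c) (fv D c)) m) =
    -(4 * (ca (DM D M) (cM c M) 1 * ca (DM D M) (cM c M) 3) * ka (DM D M) (cM c M) m) := by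
  have h2 : (2 : M) ≠ 0 := by
    have : CharZero M := charZero_of_injective_algebraMap (algebraMap K M).injective
    exact two_ne_zero
  have e0 : ∀ u, oM D c m u u = 0 := by
    intro u
    have h3 := oM_anti D c m u u
    have h4 : 2 * oM D c m u u = 0 := by linear_combination h3
    exact (mul_eq_zero.1 h4).resolve_left h2
  have p0 := hp_M D c m (g D c 0) (g D c 0)
  have p3 := hp_M D c m (g D c 2) (g D c 2)
  have p1 := hp_M D c m (g D c 0) (g D c 2)
  have q0 := hq_M D c m h0 (g D c 0) (g D c 2)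
  rw [K_g0] at p0
  rw [K_g2] at p3
  rw [K_g0, K_g2] at p1 q0
  simp only [oM_add_left, oM_add_right, oM_smul_left, oM_smul_right, e0,
    oM_anti D c m (g D c 2) (g D c 0), oM_anti D c m (g D c 2) (g D c 1),
    oM_anti D c m (g D c 3) (g D c 0), oM_anti D c m (g D c 3) (g D c 1)] at p0 p1 p3 q0
  have hk := kap_id (DM D M).B ((DM D M).Z (cM c M)) (Rm (DM D M) (cM c M) m)
    (om (DM D M) (cM c M) m (g (DM D M) (cM c M) 0) (g (DM D M) (cM c M) 1))
    (om (DM D M) (cM c M) m (g (DM D M) (cM c M) 2) (g (DM D M) (cM c M) 3))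
    (ca (DM D M) (cM c M) 0) (ca (DM D M) (cM c M) 1) (ca (DM D M) (cM c M) 2)
    (ca (DM D M) (cM c M) 3) rfl rfl rfl rfl
  have hs : disc (DM D M).B ((DM D M).Z (cM c M)) = algebraMap K M (D.s2 c) := s2_M D c
  refine Eq.trans ?_ hk
  rw [hs, om_g, om_g, ca_M, ca_M, ca_M, ca_M]
  have h00 : Rm (DM D M) (cM c M) m 0 0 = oM D c m (g D c 0) (g D c 2) := om_g D c m 0 2
  have h01 : Rm (DM D M) (cM c M) m 0 1 = oM D c m (g D c 0) (g D c 3) := om_g D c m 0 3
  have h10 : Rm (DM D M) (cM c M) m 1 0 = oM D c m (g D c 1) (g D c 2) := om_g D c m 1 2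
  have h11 : Rm (DM D M) (cM c M) m 1 1 = oM D c m (g D c 1) (g D c 3) := om_g D c m 1 3
  rw [h00, h01, h10, h11]
  have hkap : kap (algebraMap K M (D.s2 c)) (pM (hm (hd D c) (fv D c)) m)
      (qM (hm (hd D c) (fv D c)) m) =
    (algebraMap K M (hp (hd D c) 0 (g D c 0) (g D c 0)) * m -
      algebraMap K M (hp (hd D c) 1 (g D c 0) (g D c 0))) *
    (algebraMap K M (hp (hd D c) 0 (g D c 2) (g D c 2)) * m -
      algebraMap K M (hp (hd D c) 1 (g D c 2) (g D c 2))) -
    ((algebraMap K M (hp (hd D c) 0 (g D c 0) (g D c 2)) * m -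
      algebraMap K M (hp (hd D c) 1 (g D c 0) (g D c 2))) ^ 2 - algebraMap K M (D.s2 c) *
    (algebraMap K M (hq (hd D c) 0 (g D c 0) (g D c 2)) * m -
      algebraMap K M (hq (hd D c) 1 (g D c 0) (g D c 2))) ^ 2) := rfl
  rw [hkap]
  generalize algebraMap K M (hp (hd D c) 0 (g D c 0) (g D c 0)) * m -
      algebraMap K M (hp (hd D c) 1 (g D c 0) (g D c 0)) = P0 at *
  generalize algebraMap K M (hp (hd D c) 0 (g D c 2) (g D c 2)) * m -
      algebraMap K M (hp (hd D c) 1 (g D c 2) (g D c 2)) = P3 at *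
  generalize algebraMap K M (hp (hd D c) 0 (g D c 0) (g D c 2)) * m -
      algebraMap K M (hp (hd D c) 1 (g D c 0) (g D c 2)) = P1 at *
  generalize algebraMap K M (hq (hd D c) 0 (g D c 0) (g D c 2)) * m -
      algebraMap K M (hq (hd D c) 1 (g D c 0) (g D c 2)) = Q0 at *
  generalize oM D c m (g D c 0) (g D c 1) = t at *
  generalize oM D c m (g D c 2) (g D c 3) = t' at *
  generalize oM D c m (g D c 0) (g D c 2) = r00 at *
  generalize oM D c m (g D c 0) (g D c 3) = r01 at *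
  generalize oM D c m (g D c 1) (g D c 2) = r10 at *
  generalize oM D c m (g D c 1) (g D c 3) = r11 at *
  generalize algebraMap K M (ca D c 0) = a at *
  generalize algebraMap K M (ca D c 1) = b at *
  generalize algebraMap K M (ca D c 2) = a' at *
  generalize algebraMap K M (ca D c 3) = b' at *
  generalize algebraMap K M (D.s2 c) = s at *
  clear hk hkap h00 h01 h10 h11
  have h12 : (1 / 2 : M) * 2 = 1 := by field_simp
  have p0' : P0 = b * t := by rw [p0]; linear_combination (b * t) * h12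
  have p3' : P3 = b' * t' := by rw [p3]; linear_combination (b' * t') * h12
  have p1' : 2 * P1 = (a' - a) * r00 + b' * r01 - b * r10 := by
    rw [p1]; linear_combination ((a' - a) * r00 + b' * r01 - b * r10) * h12
  have q0' : 2 * s * Q0 = -((s - a * a') * r00 - a * b' * r01 - b * a' * r10 - b * b' * r11) := by
    rw [q0]; ring
  rw [p0', p3']
  linear_combination (-s * (2 * P1 + ((a' - a) * r00 + b' * r01 - b * r10))) * p1' +
    (2 * s * Q0 - ((s - a * a') * r00 - a * b' * r01 - b * a' * r10 - b * b' * r11)) * q0'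

/-! ### The eigenvalue -/

theorem bl0 (u v : Fin 6 → M) : GSH.bl (pol (hd D c) 0) u v =
    w u ((DM D M).K (cM c M) v) + w v ((DM D M).K (cM c M) u) := by
  have h1 : ∀ u v : Fin 6 → M, GSH.bl ((hd D c).Q 0) u v = w u ((DM D M).K (cM c M) v) := by
    intro u v
    refine bl_mat (wL.compl₂ (KL D c)) (wL.compl₂ (KL (DM D M) (cM c M))) ?_ u v
    intro i j
    change w (Pi.single i 1) ((DM D M).K (cM c M) (Pi.single j 1)) =
      algebraMap K M (w (Pi.single i 1) (D.K c (Pi.single j 1)))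
    rw [← map_single (algebraMap K M) j, ← map_single (algebraMap K M) i, Dat.map_K, map_w]
  have h2 : GSH.bl ((hd D c).Q 0)ᵀ u v = GSH.bl ((hd D c).Q 0) v u := by
    unfold GSH.bl
    have h2 : (mK ((hd D c).Q 0)ᵀ : Matrix (Fin 6) (Fin 6) M) = (mK ((hd D c).Q 0))ᵀ := rfl
    rw [h2, mulVec_transpose, dotProduct_comm, ← dotProduct_mulVec]
  unfold pol
  rw [bl_add_mat, h2, h1, h1]

theorem bl1 (u v : Fin 6 → M) : GSH.bl (pol (hd D c) 1) u v =
    (DM D M).tau (cM c M) u ((DM D M).K (cM c M) v) +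
      (DM D M).tau (cM c M) v ((DM D M).K (cM c M) u) := by
  have h1 : ∀ u v : Fin 6 → M, GSH.bl ((hd D c).Q 1) u v =
      (DM D M).tau (cM c M) u ((DM D M).K (cM c M) v) := by
    intro u v
    refine bl_mat ((tauL D c).compl₂ (KL D c))
      ((tauL (DM D M) (cM c M)).compl₂ (KL (DM D M) (cM c M))) ?_ u v
    intro i j
    change (DM D M).tau (cM c M) (Pi.single i 1) ((DM D M).K (cM c M) (Pi.single j 1)) =
      algebraMap K M (D.tau c (Pi.single i 1) (D.K c (Pi.single j 1)))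
    rw [← map_single (algebraMap K M) j, ← map_single (algebraMap K M) i, Dat.map_K, Dat.map_tau]
  have h2 : GSH.bl ((hd D c).Q 1)ᵀ u v = GSH.bl ((hd D c).Q 1) v u := by
    unfold GSH.bl
    have h2 : (mK ((hd D c).Q 1)ᵀ : Matrix (Fin 6) (Fin 6) M) = (mK ((hd D c).Q 1))ᵀ := rfl
    rw [h2, mulVec_transpose, dotProduct_comm, ← dotProduct_mulVec]
  unfold pol
  rw [bl_add_mat, h2, h1, h1]

theorem eig_of {v : Fin 6 → M} (h : ∀ u : Fin 6 → M, om (DM D M) (cM c M) m v
    ((DM D M).K (cM c M) u) = om (DM D M) (cM c M) m ((DM D M).K (cM c M) v) u) :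
    mK (pol (hd D c) 1) *ᵥ v = m • (mK (pol (hd D c) 0) *ᵥ v) := by
  funext i
  have h0 := bl0 D c (Pi.single i 1) v
  have h1 := bl1 D c (Pi.single i 1) v
  rw [GSH.bl, single_one_dotProduct] at h0 h1
  rw [Pi.smul_apply, smul_eq_mul, h0, h1]
  have h2 := h (Pi.single i 1)
  simp only [om] at h2
  rw [w_anti ((DM D M).K (cM c M) v), tau_anti (DM D M) (cM c M) ((DM D M).K (cM c M) v)] at h2
  linear_combination -h2

theorem ca_ne [CharZero K] (hB : D.B.det ≠ 0) (hZ : D.Z c 1 1 ≠ 0)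
    (hns : ¬IsSquare (D.s2 c)) : ca D c 1 * ca D c 3 ≠ 0 := by
  intro h0
  have h1 := norm_id D.B (D.Z c)
  have h2 : (2 * (D.B.adjugate * D.Z c) 0 1) * (2 * (D.Z c * D.B.adjugate) 1 0) = 0 := h0
  rw [h2, mul_zero, neg_zero] at h1
  by_cases hB1 : D.B 1 1 = 0
  · rw [hB1, zero_mul, sub_zero, zero_pow two_ne_zero, mul_zero, sub_zero] at h1
    exact mul_ne_zero (mul_ne_zero two_ne_zero hB) hZ (pow_eq_zero_iff two_ne_zero |>.1 h1.symm)
  · apply hns
    refine ⟨(2 * D.B.det * D.Z c 1 1 - D.B 1 1 * mix D.B (D.Z c)) / D.B 1 1, ?_⟩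
    change disc D.B (D.Z c) = _
    field_simp
    linear_combination h1

/-- **The quaternion algebra of a type O datum** is `(d, det(B) κ)`. -/
theorem exists_eig_hd [CharZero K] (hM : Module.finrank K M = 3) (hB : D.B.det ≠ 0)
    (hZ : D.Z c 1 1 ≠ 0) (hns : ¬IsSquare (D.s2 c))
    (hw : (pol (hd D c) 0).det ≠ 0)
    (hgen : IntermediateField.adjoin K {m} = ⊤) {v : Fin 6 → M} (hv : v ≠ 0)
    (h : ∀ u : Fin 6 → M, om (DM D M) (cM c M) m v
      ((DM D M).K (cM c M) u) = om (DM D M) (cM c M) m ((DM D M).K (cM c M) v) u)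
    (hκ : ka (DM D M) (cM c M) m ≠ 0) :
    ∃ F : Eig (hd D c) M, F.m = m ∧
      Nonempty (ℍ[M, algebraMap K M (hd D c).d, F.c] ≃ₐ[M] ℍ[M, algebraMap K M (hd D c).d,
        algebraMap K M D.B.det * ka (DM D M) (cM c M) m]) := by
  have hcM : CharZero M := charZero_of_injective_algebraMap (algebraMap K M).injective
  have hs : D.s2 c ≠ 0 := by
    intro h0
    exact hns (by rw [h0]; exact IsSquare.zero)
  have hca := ca_ne D c hB hZ hns
  have hT := det_fT D c hB two_ne_zero (left_ne_zero_of_mul hca) (right_ne_zero_of_mul hca)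
  have hke := kap_eq D c m hs
  have hcaM : ca (DM D M) (cM c M) 1 * ca (DM D M) (cM c M) 3 ≠ 0 := by
    rw [ca_M, ca_M, ← map_mul, Ne, map_eq_zero]
    exact hca
  have hsM : algebraMap K M (D.s2 c) ≠ 0 := by rwa [Ne, map_eq_zero]
  have hBM : algebraMap K M D.B.det ≠ 0 := by rwa [Ne, map_eq_zero]
  have hkap : kap (algebraMap K M (hd D c).d) (pM (GSK.hm (hd D c) (fv D c)) m)
      (qM (GSK.hm (hd D c) (fv D c)) m) ≠ 0 := by
    intro h0
    have h0' : kap (algebraMap K M (D.s2 c)) (pM (GSK.hm (hd D c) (fv D c)) m)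
      (qM (GSK.hm (hd D c) (fv D c)) m) = 0 := h0
    rw [h0', mul_zero, zero_eq_neg] at hke
    exact mul_ne_zero (mul_ne_zero (OfNat.ofNat_ne_zero 4) hcaM) hκ hke
  obtain ⟨F, h1, h2, x, y, h3⟩ := exists_eig_pen (GSF.isHer_hd D c) hs hT hM hgen
    (dH_ne (GSF.isHer_hd D c) hs hT hw) hv (eig_of D c m h) hkap
  refine ⟨F, h1, ?_⟩
  have hn := norm_id (DM D M).B ((DM D M).Z (cM c M))
  have hdet : (DM D M).B.det = algebraMap K M D.B.det := map_det' _ _
  have hdisc : disc (DM D M).B ((DM D M).Z (cM c M)) = algebraMap K M (D.s2 c) := s2_M D c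
  have hn' : -(algebraMap K M D.B.det * (ca (DM D M) (cM c M) 1 * ca (DM D M) (cM c M) 3)) =
      (2 * (DM D M).B.det * (DM D M).Z (cM c M) 1 1 - (DM D M).B 1 1 *
        mix (DM D M).B ((DM D M).Z (cM c M))) ^ 2 -
      algebraMap K M (D.s2 c) * (DM D M).B 1 1 ^ 2 := by
    rw [← hdisc, ← hn, hdet]
    rfl
  have h3' : F.c = -kap (algebraMap K M (D.s2 c)) (pM (GSK.hm (hd D c) (fv D c)) m)
      (qM (GSK.hm (hd D c) (fv D c)) m) * (x ^ 2 - algebraMap K M (D.s2 c) * y ^ 2) := h3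
  generalize kap (algebraMap K M (D.s2 c)) (pM (GSK.hm (hd D c) (fv D c)) m)
      (qM (GSK.hm (hd D c) (fv D c)) m) = k at hke h3'
  generalize 2 * (DM D M).B.det * (DM D M).Z (cM c M) 1 1 - (DM D M).B 1 1 *
        mix (DM D M).B ((DM D M).Z (cM c M)) = n1 at hn'
  generalize (DM D M).B 1 1 = n2 at hn'
  generalize ca (DM D M) (cM c M) 1 * ca (DM D M) (cM c M) 3 = bb at hn' hke hcaM
  refine Quat.norm (x := (n1 * y + n2 * x) / algebraMap K M D.B.det)
    (y := (n1 * x + algebraMap K M (D.s2 c) * n2 * y) /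
      (algebraMap K M (D.s2 c) * algebraMap K M D.B.det)) h2 ?_
  change F.c = algebraMap K M D.B.det * ka (DM D M) (cM c M) m *
    (((n1 * y + n2 * x) / algebraMap K M D.B.det) ^ 2 - algebraMap K M (D.s2 c) *
      ((n1 * x + algebraMap K M (D.s2 c) * n2 * y) /
      (algebraMap K M (D.s2 c) * algebraMap K M D.B.det)) ^ 2)
  rw [h3']
  generalize ka (DM D M) (cM c M) m = κ at hke
  generalize algebraMap K M D.B.det = β at hn' hBM
  generalize algebraMap K M (D.s2 c) = s at hn' hke hsM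
  field_simp
  have hke' : s * k = -(bb * κ) := by
    refine mul_left_cancel₀ (OfNat.ofNat_ne_zero 4 : (4 : M) ≠ 0) ?_
    linear_combination hke
  linear_combination (-(x ^ 2 - s * y ^ 2) * β) * hke' - (κ * (x ^ 2 - s * y ^ 2)) * hn'

end Pen

end Pool.Agent.GSK.DK
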