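import Pool.Agent.GSQ.XSide

/-!
# GSK: the quaternion algebra of a pencil of hermitian forms on `L ^ 3`

`H`: two hermitian matrices `B 0`, `B 1` over `L = K(√d)`. `cub H = det (T B 0 - B 1)`, and for a root
`μ` of `cub H` in an extension `M` of degree 3 of `K`: `vH`, the last column of the adjoint matrix of
`μ B 0 - B 1` (conjugated), is an eigenvector `v`, with `Q 0 (v) = (cub H)'(μ) κ`, `κ` the upper left
`2 × 2` minor of `μ B 0 - B 1`. The number `e = p'(μ) Q 0 (v)` is `det(B 0) p'(μ) ^ 2 κ`, and the norm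
of `e` is `- det(B 0)` times a norm from `L` times a square. So `(d, e N(e)) = (d, -κ)`.
-/

set_option autoImplicit false

noncomputable section

namespace Pool.Agent.GSK

open Matrix Pool.Agent.GSH Pool.Agent.GSX Pool.Agent.GSX.Herm Pool.Agent.GSQ Pool.Agent.GSQ.XS

/-! ### Hermitian `3 × 3` matrices -/

section Ring

variable {R : Type} [CommRing R]

/-- the upper left minor -/
def kap (d : R) (P : Fin 6 → R) (Q : Fin 3 → R) : R := P 0 * P 3 - (P 1 ^ 2 - d * Q 0 ^ 2)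

/-- the determinant -/
def dH (d : R) (P : Fin 6 → R) (Q : Fin 3 → R) : R :=
  P 0 * P 3 * P 5 + 2 * ((P 1 * P 4 + d * (Q 0 * Q 2)) * P 2 - d * (P 1 * Q 2 + Q 0 * P 4) * Q 1) -
    P 0 * (P 4 ^ 2 - d * Q 2 ^ 2) - P 3 * (P 2 ^ 2 - d * Q 1 ^ 2) - P 5 * (P 1 ^ 2 - d * Q 0 ^ 2)

/-- the derivative of the determinant -/
def dH' (d : R) (P : Fin 6 → R) (Q : Fin 3 → R) (P' : Fin 6 → R) (Q' : Fin 3 → R) : R :=
  P' 0 * (P 3 * P 5 - (P 4 ^ 2 - d * Q 2 ^ 2)) + P' 3 * (P 0 * P 5 - (P 2 ^ 2 - d * Q 1 ^ 2)) +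
    P' 5 * (P 0 * P 3 - (P 1 ^ 2 - d * Q 0 ^ 2)) +
    2 * P' 1 * (P 4 * P 2 - d * (Q 2 * Q 1) - P 5 * P 1) +
    2 * P' 4 * (P 1 * P 2 - d * (Q 0 * Q 1) - P 0 * P 4) +
    2 * P' 2 * (P 1 * P 4 + d * (Q 0 * Q 2) - P 3 * P 2) +
    2 * d * Q' 0 * (Q 2 * P 2 - P 4 * Q 1 + P 5 * Q 0) +
    2 * d * Q' 1 * (P 3 * Q 1 - (P 1 * Q 2 + Q 0 * P 4)) +
    2 * d * Q' 2 * (Q 0 * P 2 - P 1 * Q 1 + P 0 * Q 2)

/-- the conjugate of the last column of the adjoint matrix -/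
def vH (d : R) (P : Fin 6 → R) (Q : Fin 3 → R) : Fin 6 → R :=
  ![P 1 * P 4 + d * (Q 0 * Q 2) - P 2 * P 3, P 1 * P 2 - d * (Q 0 * Q 1) - P 0 * P 4, kap d P Q,
    -(P 1 * Q 2 + Q 0 * P 4 - Q 1 * P 3), -(Q 1 * P 1 - P 2 * Q 0 - P 0 * Q 2), 0]

end Ring

variable {K : Type} [Field K] {M : Type} [Field M] [Algebra K M]

/-- the matrix `μ B 0 - B 1` -/
def pM (H : Herm K) (μ : M) (i : Fin 6) : M :=
  algebraMap K M (H.p 0 i) * μ - algebraMap K M (H.p 1 i)

/-- the matrix `μ B 0 - B 1` -/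
def qM (H : Herm K) (μ : M) (i : Fin 3) : M :=
  algebraMap K M (H.q 0 i) * μ - algebraMap K M (H.q 1 i)

open Polynomial in
/-- the polynomial `det (T B 0 - B 1)` -/
def cub (H : Herm K) : K[X] :=
  dH (C H.d) (fun i => C (H.p 0 i) * X - C (H.p 1 i)) fun i => C (H.q 0 i) * X - C (H.q 1 i)

theorem aeval_cub (H : Herm K) (μ : M) :
    Polynomial.aeval μ (cub H) = dH (algebraMap K M H.d) (pM H μ) (qM H μ) := by
  simp only [cub, dH, pM, qM, map_add, map_sub, map_mul, map_pow, map_ofNat, Polynomial.aeval_C,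
    Polynomial.aeval_X]

theorem aeval_cub' (H : Herm K) (μ : M) :
    Polynomial.aeval μ (Polynomial.derivative (cub H)) = dH' (algebraMap K M H.d) (pM H μ) (qM H μ)
      (fun i => algebraMap K M (H.p 0 i)) fun i => algebraMap K M (H.q 0 i) := by
  simp only [cub, dH, dH', pM, qM, pow_two, Polynomial.derivative_mul, Polynomial.derivative_add,
    Polynomial.derivative_sub, Polynomial.derivative_C, Polynomial.derivative_X,
    Polynomial.derivative_ofNat, map_add, map_sub, map_mul, map_ofNat, map_zero, map_one,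
    Polynomial.aeval_C, Polynomial.aeval_X]
  ring

theorem cub_eq (H : Herm K) : ∃ a b c : K, cub H = Polynomial.C (dH H.d (H.p 0) (H.q 0)) *
    Polynomial.X ^ 3 + Polynomial.C a * Polynomial.X ^ 2 + Polynomial.C b * Polynomial.X +
      Polynomial.C c := by
  refine ⟨-dH' H.d (H.p 0) (H.q 0) (H.p 1) (H.q 1), dH' H.d (H.p 1) (H.q 1) (H.p 0) (H.q 0),
    -dH H.d (H.p 1) (H.q 1), ?_⟩
  simp only [cub, dH, dH', map_add, map_sub, map_mul, map_neg, map_pow, map_ofNat]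
  ring

/-- the eigenvector -/
def vM (H : Herm K) (μ : M) : Fin 6 → M := vH (algebraMap K M H.d) (pM H μ) (qM H μ)

theorem vM_E (H : Herm K) (μ : M) (h : dH (algebraMap K M H.d) (pM H μ) (qM H μ) = 0)
    (i : Fin 3) : lv (H.E 1 i) (vM H μ) = μ * lv (H.E 0 i) (vM H μ) := by
  fin_cases i
  · simp [lv, dotProduct, vK, Fin.sum_univ_six, Herm.E, vM, vH, kap, pM, qM]
    ring
  · simp [lv, dotProduct, vK, Fin.sum_univ_six, Herm.E, vM, vH, kap, pM, qM]
    ring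
  · simp [dH, pM, qM] at h
    simp [lv, dotProduct, vK, Fin.sum_univ_six, Herm.E, vM, vH, kap, pM, qM]
    linear_combination -h

theorem vM_F (H : Herm K) (μ : M) (i : Fin 3) :
    lv (H.F 1 i) (vM H μ) = μ * lv (H.F 0 i) (vM H μ) := by
  fin_cases i
  · simp [lv, dotProduct, vK, Fin.sum_univ_six, Herm.F, vM, vH, kap, pM, qM]
    ring
  · simp [lv, dotProduct, vK, Fin.sum_univ_six, Herm.F, vM, vH, kap, pM, qM]
    ring
  · simp [lv, dotProduct, vK, Fin.sum_univ_six, Herm.F, vM, vH, kap, pM, qM]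
    ring

theorem vM_cv (H : Herm K) (μ : M) (h : dH (algebraMap K M H.d) (pM H μ) (qM H μ) = 0) :
    bl (H.pen.Q 0) (vM H μ) (vM H μ) = Polynomial.aeval μ (Polynomial.derivative (cub H)) *
      kap (algebraMap K M H.d) (pM H μ) (qM H μ) := by
  rw [aeval_cub', bl_Q]
  simp only [dH, pM, qM] at h
  simp [lv, dotProduct, vK, Fin.sum_univ_six, Herm.E, Herm.F, vM, vH, kap, pM, qM, dH']
  linear_combination -(algebraMap K M (H.p 0 0) *
    (algebraMap K M (H.p 0 3) * μ - algebraMap K M (H.p 1 3)) + algebraMap K M (H.p 0 3) *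
    (algebraMap K M (H.p 0 0) * μ - algebraMap K M (H.p 1 0)) - 2 * (algebraMap K M (H.p 0 1) *
    (algebraMap K M (H.p 0 1) * μ - algebraMap K M (H.p 1 1)) - algebraMap K M H.d *
    algebraMap K M (H.q 0 0) * (algebraMap K M (H.q 0 0) * μ - algebraMap K M (H.q 1 0)))) * h

/-! ### The minimal polynomial -/

section Min

variable {H : Herm K} {μ : M}

theorem deg_minpoly (hM : Module.finrank K M = 3) (hμ : IntermediateField.adjoin K {μ} = ⊤) :
    (minpoly K μ).natDegree = 3 := by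
  have hfin := fin_of_three hM
  have hint : IsIntegral K μ := Algebra.IsIntegral.isIntegral _
  rw [← IntermediateField.adjoin.finrank hint, hμ, IntermediateField.finrank_top', hM]

open Polynomial in
theorem cub_minpoly (hM : Module.finrank K M = 3) (hμ : IntermediateField.adjoin K {μ} = ⊤)
    (hf : cub H ≠ 0) (h : aeval μ (cub H) = 0) :
    cub H = C (dH H.d (H.p 0) (H.q 0)) * minpoly K μ := by
  have hfin := fin_of_three hM
  have hint : IsIntegral K μ := Algebra.IsIntegral.isIntegral _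
  have hmon := minpoly.monic hint
  have hdeg := deg_minpoly hM hμ
  obtain ⟨g, hg⟩ := minpoly.dvd K μ h
  obtain ⟨a, b, c, habc⟩ := cub_eq H
  have h3 : (cub H).natDegree ≤ 3 := by
    rw [habc]
    exact natDegree_cubic_le
  have hg0 : g ≠ 0 := by
    rintro rfl
    rw [mul_zero] at hg
    exact hf hg
  have hg1 : g.natDegree = 0 := by
    rw [hg, hmon.natDegree_mul' hg0, hdeg] at h3
    omega
  obtain ⟨e, rfl⟩ : ∃ e, g = C e := ⟨_, eq_C_of_natDegree_eq_zero hg1⟩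
  have h4 : (cub H).coeff 3 = dH H.d (H.p 0) (H.q 0) := by
    rw [habc]
    simp
  have h5 : (minpoly K μ).coeff 3 = 1 := by
    have := hmon.coeff_natDegree
    rwa [hdeg] at this
  rw [hg, coeff_mul_C, h5, one_mul] at h4
  rw [hg, h4, mul_comm]

theorem det_ne_zero (hM : Module.finrank K M = 3) (hμ : IntermediateField.adjoin K {μ} = ⊤)
    (hf : cub H ≠ 0) (h : Polynomial.aeval μ (cub H) = 0) : dH H.d (H.p 0) (H.q 0) ≠ 0 := by
  intro h0
  apply hf
  rw [cub_minpoly hM hμ hf h, h0, map_zero, zero_mul]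

/-- the derivative at the root -/
theorem cub_deriv (hM : Module.finrank K M = 3) (hμ : IntermediateField.adjoin K {μ} = ⊤)
    (hf : cub H ≠ 0) (h : Polynomial.aeval μ (cub H) = 0) :
    Polynomial.aeval μ (Polynomial.derivative (cub H)) = algebraMap K M (dH H.d (H.p 0) (H.q 0)) *
      Polynomial.aeval μ (Polynomial.derivative (minpoly K μ)) := by
  conv_lhs => rw [cub_minpoly hM hμ hf h]
  rw [Polynomial.derivative_C_mul, map_mul, Polynomial.aeval_C]

end Min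

/-! ### The norm of the number `Q 0 (v)` -/

section Norm

variable {E : Type} [Field E] [Algebra K E]

/-- the matrix `B 0` -/
def B0 (H : Herm K) (δ : E) : Matrix (Fin 3) (Fin 3) E :=
  !![algebraMap K E (H.p 0 0), algebraMap K E (H.p 0 1) + δ * algebraMap K E (H.q 0 0),
      algebraMap K E (H.p 0 2) + δ * algebraMap K E (H.q 0 1);
    algebraMap K E (H.p 0 1) - δ * algebraMap K E (H.q 0 0), algebraMap K E (H.p 0 3),
      algebraMap K E (H.p 0 4) + δ * algebraMap K E (H.q 0 2);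
    algebraMap K E (H.p 0 2) - δ * algebraMap K E (H.q 0 1),
      algebraMap K E (H.p 0 4) - δ * algebraMap K E (H.q 0 2), algebraMap K E (H.p 0 5)]

theorem det_B0 (H : Herm K) {δ : E} (hδ : δ ^ 2 = algebraMap K E H.d) :
    (B0 H δ).det = algebraMap K E (dH H.d (H.p 0) (H.q 0)) := by
  rw [Matrix.det_fin_three]
  simp only [B0, dH, map_add, map_sub, map_mul, map_pow, map_ofNat, ← hδ]
  simp
  ring

theorem ln_B0 (H : Herm K) {δ : E} (hδ : δ ^ 2 = algebraMap K E H.d) (u : Fin 6 → E) :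
    ln H 0 δ u = B0 H δ *ᵥ cx (-δ) u := by
  funext i
  fin_cases i
  · simp [ln, lv, dotProduct, vK, Fin.sum_univ_six, Fin.sum_univ_three, Herm.E, Herm.F, B0, cx,
      mulVec, ← hδ]
    ring
  · simp [ln, lv, dotProduct, vK, Fin.sum_univ_six, Fin.sum_univ_three, Herm.E, Herm.F, B0, cx,
      mulVec, ← hδ]
    ring
  · simp [ln, lv, dotProduct, vK, Fin.sum_univ_six, Fin.sum_univ_three, Herm.E, Herm.F, B0, cx,
      mulVec, ← hδ]
    ring

/-- the determinant of the matrix with the rows `x + δ y` -/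
theorem det_cx (d : K) (w : Fin 3 → Fin 6 → K) : ∃ a b : K, ∀ (E : Type) [Field E] [Algebra K E]
    (δ : E), δ ^ 2 = algebraMap K E d →
      (Matrix.of fun k => cx δ (vK (w k))).det = algebraMap K E a + algebraMap K E b * δ := by
  refine ⟨w 0 0 * w 1 1 * w 2 2 - w 0 0 * w 1 2 * w 2 1 - w 0 1 * w 1 0 * w 2 2 +
      w 0 1 * w 1 2 * w 2 0 + w 0 2 * w 1 0 * w 2 1 - w 0 2 * w 1 1 * w 2 0 +
      d * (w 0 0 * w 1 4 * w 2 5 + w 0 3 * w 1 1 * w 2 5 + w 0 3 * w 1 4 * w 2 2 -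
        (w 0 0 * w 1 5 * w 2 4 + w 0 3 * w 1 2 * w 2 4 + w 0 3 * w 1 5 * w 2 1) -
        (w 0 1 * w 1 3 * w 2 5 + w 0 4 * w 1 0 * w 2 5 + w 0 4 * w 1 3 * w 2 2) +
        (w 0 1 * w 1 5 * w 2 3 + w 0 4 * w 1 2 * w 2 3 + w 0 4 * w 1 5 * w 2 0) +
        (w 0 2 * w 1 3 * w 2 4 + w 0 5 * w 1 0 * w 2 4 + w 0 5 * w 1 3 * w 2 1) -
        (w 0 2 * w 1 4 * w 2 3 + w 0 5 * w 1 1 * w 2 3 + w 0 5 * w 1 4 * w 2 0)),
    (w 0 3 * w 1 1 * w 2 2 + w 0 0 * w 1 4 * w 2 2 + w 0 0 * w 1 1 * w 2 5) -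
      (w 0 3 * w 1 2 * w 2 1 + w 0 0 * w 1 5 * w 2 1 + w 0 0 * w 1 2 * w 2 4) -
      (w 0 4 * w 1 0 * w 2 2 + w 0 1 * w 1 3 * w 2 2 + w 0 1 * w 1 0 * w 2 5) +
      (w 0 4 * w 1 2 * w 2 0 + w 0 1 * w 1 5 * w 2 0 + w 0 1 * w 1 2 * w 2 3) +
      (w 0 5 * w 1 0 * w 2 1 + w 0 2 * w 1 3 * w 2 1 + w 0 2 * w 1 0 * w 2 4) -
      (w 0 5 * w 1 1 * w 2 0 + w 0 2 * w 1 4 * w 2 0 + w 0 2 * w 1 1 * w 2 3) +
      d * (w 0 3 * w 1 4 * w 2 5 - w 0 3 * w 1 5 * w 2 4 - w 0 4 * w 1 3 * w 2 5 +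
      w 0 4 * w 1 5 * w 2 3 + w 0 5 * w 1 3 * w 2 4 - w 0 5 * w 1 4 * w 2 3), ?_⟩
  intro E _ _ δ hδ
  rw [Matrix.det_fin_three]
  simp only [Matrix.of_apply, cx, vK, map_add, map_sub, map_mul, ← hδ]
  simp
  ring

variable {H : Herm K}

/-- the norm of `Q 0 (v)` for an eigenvector `v` -/
theorem norm_cv [CharZero K] (hd : H.d ≠ 0) (hM : Module.finrank K M = 3) (F : Eig H.pen M)
    (w : Fin 3 → Fin 6 → K) (hv : F.v = ∑ k : Fin 3, F.m ^ (k : ℕ) • (vK (w k) : Fin 6 → M)) :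
    ∃ a b : K, Algebra.norm K F.cv = -(dH H.d (H.p 0) (H.q 0) * (a ^ 2 - H.d * b ^ 2) *
      Algebra.norm K F.pd) := by
  obtain ⟨a, b, hab⟩ := det_cx H.d w
  refine ⟨a, b, ?_⟩
  obtain ⟨δ, hδ⟩ := IsAlgClosed.exists_pow_nat_eq (algebraMap K (AlgebraicClosure K) H.d)
    (n := 2) (by norm_num)
  obtain ⟨s, hs⟩ := exists_s (M := M) (Ω := AlgebraicClosure K) hM
  have hδ' : (-δ) ^ 2 = algebraMap K (AlgebraicClosure K) H.d := by rw [← hδ]; ring
  apply (algebraMap K (AlgebraicClosure K)).injective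
  rw [map_neg, map_mul, map_mul, map_sub, map_pow, map_mul, map_pow, nm_eq hM hs, nm_eq hM hs,
    ← det_B0 H hδ]
  -- the vectors `x + ε y`
  have hcx : ∀ ε : AlgebraicClosure K, ε ^ 2 = algebraMap K (AlgebraicClosure K) H.d →
      (Matrix.of fun i => cx ε (F.vi s i)) =
        Matrix.vandermonde (fun i => s i F.m) * Matrix.of fun k => cx ε (vK (w k)) := by
    intro ε _
    have h1 : ∀ i, F.vi s i = ∑ k : Fin 3, (s i F.m) ^ (k : ℕ) • (vK (w k) : Fin 6 → AlgebraicClosure K) := by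
      intro i
      funext l
      rw [Eig.vi, hv]
      simp only [Finset.sum_apply, Pi.smul_apply, smul_eq_mul, map_sum, map_mul, map_pow, vK,
        AlgHom.commutes]
    ext i j
    rw [Matrix.mul_apply, Matrix.of_apply, h1]
    simp only [Fin.sum_univ_three, cx_add, cx_smul, Matrix.vandermonde_apply, Matrix.of_apply,
      Pi.add_apply, Pi.smul_apply, smul_eq_mul]
  have h1 : (Matrix.of fun i => cx δ (F.vi s i)) * (B0 H δ *
      (Matrix.of fun i => cx (-δ) (F.vi s i))ᵀ) = Matrix.diagonal fun i => F.ci s i := by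
    ext i j
    rw [Matrix.diagonal_apply, ← orth hd F hs hδ, ln_B0 H hδ, Matrix.mul_apply]
    rfl
  have h2 := congrArg Matrix.det h1
  rw [Matrix.det_mul, Matrix.det_mul, Matrix.det_transpose, hcx δ hδ, hcx (-δ) hδ',
    Matrix.det_mul, Matrix.det_mul, hab _ δ hδ, hab _ (-δ) hδ', Matrix.det_diagonal] at h2
  have h3 : ∏ i, s i F.cv = ∏ i, F.ci s i := rfl
  rw [h3, ← h2, Fin.prod_univ_three, s_pd hM F hs, s_pd hM F hs, s_pd hM F hs, ← hδ]
  have h4 : (Matrix.vandermonde fun i => s i F.m).det =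
      (s 1 F.m - s 0 F.m) * (s 2 F.m - s 0 F.m) * (s 2 F.m - s 1 F.m) := by
    rw [Matrix.det_fin_three]
    simp [Matrix.vandermonde_apply]
    ring
  rw [h4]
  have e1 : (0 : Fin 3) + 1 = 1 := rfl
  have e2 : (0 : Fin 3) + 2 = 2 := rfl
  have e3 : (1 : Fin 3) + 1 = 2 := rfl
  have e4 : (1 : Fin 3) + 2 = 0 := rfl
  have e5 : (2 : Fin 3) + 1 = 0 := rfl
  have e6 : (2 : Fin 3) + 2 = 1 := rfl
  simp only [e1, e2, e3, e4, e5, e6]
  ring

end Norm

/-! ### The eigenvector -/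

section Eig

variable {H : Herm K} {μ : M}

theorem mK_Q [CharZero K] (H : Herm K) (j : Fin 2) (u : Fin 6 → M) :
    (mK (pol H.pen j) *ᵥ u : Fin 6 → M) = (2 : M) • (mK (H.pen.Q j) *ᵥ u) := by
  unfold pol
  rw [H.isPen.symQ]
  funext i
  simp only [mulVec, dotProduct, mK, Matrix.map_apply, Matrix.add_apply, map_add, Pi.smul_apply,
    smul_eq_mul, Finset.mul_sum]
  exact Finset.sum_congr rfl fun k _ => by ring

theorem vM_eig [CharZero K] (H : Herm K) (μ : M)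
    (h : dH (algebraMap K M H.d) (pM H μ) (qM H μ) = 0) :
    (mK (pol H.pen 1) *ᵥ vM H μ : Fin 6 → M) = μ • (mK (pol H.pen 0) *ᵥ vM H μ) := by
  rw [mK_Q, mK_Q, smul_comm]
  congr 1
  have h1 : ∀ i, lv (H.d • H.F 1 i) (vM H μ) = μ * lv (H.d • H.F 0 i) (vM H μ) := by
    intro i
    rw [lv_smul_left, lv_smul_left, vM_F]
    ring
  funext i
  fin_cases i
  · exact vM_E H μ h 0
  · exact vM_E H μ h 1
  · exact vM_E H μ h 2
  · exact h1 0
  · exact h1 1
  · exact h1 2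

/-- the coefficients of the eigenvector -/
def wH (H : Herm K) : Fin 3 → Fin 6 → K :=
  ![vH H.d (H.p 1) (H.q 1), vH H.d (H.p 1) (H.q 1) + vH H.d (H.p 0) (H.q 0) -
    vH H.d (H.p 0 + H.p 1) (H.q 0 + H.q 1), vH H.d (H.p 0) (H.q 0)]

theorem vM_eq (H : Herm K) (μ : M) :
    vM H μ = ∑ k : Fin 3, μ ^ (k : ℕ) • (vK (wH H k) : Fin 6 → M) := by
  funext l
  rw [Finset.sum_apply, Fin.sum_univ_three]
  fin_cases l
  · simp [vM, vH, kap, pM, qM, vK, wH]
    ring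
  · simp [vM, vH, kap, pM, qM, vK, wH]
    ring
  · simp [vM, vH, kap, pM, qM, vK, wH]
    ring
  · simp [vM, vH, kap, pM, qM, vK, wH]
    ring
  · simp [vM, vH, kap, pM, qM, vK, wH]
    ring
  · simp [vM, vH, kap, pM, qM, vK, wH]

/-- **The quaternion algebra of a pencil of hermitian forms on `L ^ 3`** is `(d, -κ)`. -/
theorem exists_eig [CharZero K] (H : Herm K) (hd : H.d ≠ 0) (hM : Module.finrank K M = 3) {μ : M}
    (hμ : IntermediateField.adjoin K {μ} = ⊤) (hf : cub H ≠ 0)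
    (h : dH (algebraMap K M H.d) (pM H μ) (qM H μ) = 0)
    (hκ : kap (algebraMap K M H.d) (pM H μ) (qM H μ) ≠ 0) :
    ∃ F : Eig H.pen M, F.m = μ ∧ F.c ≠ 0 ∧ ∃ x y : M,
      F.c = -kap (algebraMap K M H.d) (pM H μ) (qM H μ) * (x ^ 2 - algebraMap K M H.d * y ^ 2) := by
  have hfin := fin_of_three hM
  have h' : Polynomial.aeval μ (cub H) = 0 := by rw [aeval_cub, h]
  have h1 := cub_deriv hM hμ hf h'
  have h2 := vM_cv H μ h
  rw [h1] at h2
  have h3 : Polynomial.aeval μ (Polynomial.derivative (minpoly K μ)) ≠ 0 :=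
    (Algebra.IsSeparable.isSeparable K μ).aeval_derivative_ne_zero (minpoly.aeval K μ)
  have h4 : algebraMap K M (dH H.d (H.p 0) (H.q 0)) ≠ 0 := by
    rw [Ne, map_eq_zero]
    exact det_ne_zero hM hμ hf h'
  have h5 : bl (H.pen.Q 0) (vM H μ) (vM H μ) ≠ 0 := by
    rw [h2]
    exact mul_ne_zero (mul_ne_zero h4 h3) hκ
  let F : Eig H.pen M := ⟨μ, vM H μ, hμ, vM_eig H μ h, h5⟩
  have e1 : F.pd = Polynomial.aeval μ (Polynomial.derivative (minpoly K μ)) := rfl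
  have e2 : F.cv = bl (H.pen.Q 0) (vM H μ) (vM H μ) := rfl
  obtain ⟨a, b, hab⟩ := norm_cv hd hM F (wH H) (vM_eq H μ)
  rw [← e1, ← e2] at h2
  have e3 : F.e = F.pd * F.cv := rfl
  have e4 : F.c = F.e * algebraMap K M (Algebra.norm K F.e) := rfl
  have he : F.e ≠ 0 := by
    rw [e3]
    exact mul_ne_zero (pd_ne hM F) F.ne
  refine ⟨F, rfl, ?_, algebraMap K M (dH H.d (H.p 0) (H.q 0)) * F.pd *
    algebraMap K M (Algebra.norm K F.pd) * algebraMap K M a,
    algebraMap K M (dH H.d (H.p 0) (H.q 0)) * F.pd *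
    algebraMap K M (Algebra.norm K F.pd) * algebraMap K M b, ?_⟩
  · rw [e4]
    refine mul_ne_zero he ?_
    rw [Ne, map_eq_zero, Algebra.norm_eq_zero_iff]
    exact he
  · rw [e4, e3, map_mul, hab, h2]
    simp only [map_neg, map_mul, map_sub, map_pow]
    ring

end Eig

end Pool.Agent.GSK
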