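import Pool.Agent.GSF.FDefs

/-!
# The K3 surface of the cubic fourfold

For two symmetric `2 × 2` matrices `n`, `n'` (entries 00, 01, 11) and the cubic fourfold with the
matrices `A_k`, `B_k` let `g_k = tr(n' B_k) - tr(n A_k)`. In `ℙ⁵`, with the coordinates `(n : n')`,
the hyperplane `g_0 = 0`, the quadric `det n = det n'` and the cubic

`4 g_5 det n + (g_1, g_2) adj(n) (g_1, g_2)ᵀ = (g_3, g_4) adj(n') (g_3, g_4)ᵀ`

define a surface `S`, for a general cubic fourfold a K3 surface of degree six. The linear projection
`(n : n') ↦ n + n'`, written as `n + n' = (t, -s; -s, 1)`, makes `S` a triple cover of the plane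
with the function field `ℂ(s, t)`; its centre is a line in the quadric threefold
`g_0 = 0`, `det n = det n'`. The quadric surface `n(x) = n'(y)` over the function field of `S` has
the square discriminant `det n det n'`, and the quaternion algebra of its rulings is
`(-det n, n_00 n'_00)`.

`Cub.Gen X n n'`: `(n : n')` is the point of `S` with coordinates in the extension `M` of `ℂ(s, t)`
over the generic point of the plane, and its coordinates generate `M`.
-/

set_option autoImplicit false

noncomputable section

namespace Pool.Agent.TK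

section

variable {M : Type} [CommRing M]

/-- The determinant of the symmetric matrix `n`. -/
def det2 (n : Fin 3 → M) : M := n 0 * n 2 - n 1 ^ 2

/-- The number `(x, y) adj(n) (x, y)ᵀ`. -/
def adj2 (n : Fin 3 → M) (x y : M) : M := n 2 * x ^ 2 - 2 * n 1 * (x * y) + n 0 * y ^ 2

/-- The trace of the product of the symmetric matrices `n`, `a`. -/
def tr2 (n a : Fin 3 → M) : M := n 0 * a 0 + 2 * n 1 * a 1 + n 2 * a 2

/-- The linear form `g_k = tr(n' B_k) - tr(n A_k)`. -/
def Cub.gg (X : Cub M) (n n' : Fin 3 → M) (k : Fin 6) : M := tr2 n' (X.b k) - tr2 n (X.a k)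

/-- The three equations of the surface. -/
structure Cub.Surf (X : Cub M) (n n' : Fin 3 → M) : Prop where
  lin : X.gg n n' 0 = 0
  quad : det2 n = det2 n'
  cubic : 4 * X.gg n n' 5 * det2 n + adj2 n (X.gg n n' 1) (X.gg n n' 2) =
    adj2 n' (X.gg n n' 3) (X.gg n n' 4)

end

variable {M : Type} [Field M] [Algebra K M]

/-- The complex numbers in an extension `M` of `ℂ(s, t)`. -/
def cc (M : Type) [Field M] [Algebra K M] (z : ℂ) : M := algebraMap K M (algebraMap ℂ K z)

/-- The point `(n : n')` of the surface over the generic point `n + n' = (t, -s; -s, 1)` of the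
plane, with coordinates which generate the extension `M` of `ℂ(s, t)`. -/
structure Cub.Gen (X : Cub ℂ) (n n' : Fin 3 → M) : Prop where
  surf : (X.map (cc M)).Surf n n'
  p0 : n 0 + n' 0 = algebraMap K M (var 1)
  p1 : n 1 + n' 1 = -algebraMap K M (var 0)
  p2 : n 2 + n' 2 = 1
  top : IntermediateField.adjoin K (Set.range n) = ⊤

end Pool.Agent.TK
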