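import Pool.Agent.CFL.L24
import Pool.Agent.GSL.NoW

/-!
# The lattices `A_k = ⟨3⟩ + ⟨8⟩ + ⟨18 k²⟩`, `k` odd

They satisfy the criterion of Hassett and Kuznetsov, the generator of square 8 has a class of type O
(a K3 surface of degree 24), and there is no isotropic vector `w` with `(w, λ₁) = 1`.
-/

set_option autoImplicit false

namespace Pool.Agent.GSK

open Pool.Agent.DIX.Labels Pool.Agent.CFL

theorem formA_apply (k : ℤ) (S T : Fin 3 → ℤ) :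
    Matrix.toLinearMap₂' ℤ (Matrix.diagonal ![(3 : ℤ), 8, 18 * k ^ 2]) S T =
      3 * S 0 * T 0 + 8 * S 1 * T 1 + 18 * k ^ 2 * S 2 * T 2 := by
  rw [Matrix.toLinearMap₂'_apply']
  simp [Matrix.mulVec_diagonal, dotProduct, Fin.sum_univ_three]
  ring

theorem mukai_formA (k : ℤ) (v w : ℤ × (Fin 3 → ℤ)) :
    mukai (Matrix.toLinearMap₂' ℤ (Matrix.diagonal ![(3 : ℤ), 8, 18 * k ^ 2])) ![1, 0, 0] v w =
      GSL.bil k ![v.2 0, v.1 + 2 * v.2 0, v.2 1, v.2 2] ![w.2 0, w.1 + 2 * w.2 0, w.2 1, w.2 2] := by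
  unfold mukai GSL.bil
  simp only [formA_apply]
  simp
  ring

theorem lattice_k (k : ℤ) (hk : Odd k) :
    HassettKuznetsov (Matrix.toLinearMap₂' ℤ (Matrix.diagonal ![(3 : ℤ), 8, 18 * k ^ 2]))
      ![1, 0, 0] ∧
    TypeO (Matrix.toLinearMap₂' ℤ (Matrix.diagonal ![(3 : ℤ), 8, 18 * k ^ 2])) ![1, 0, 0]
      ![0, 1, 0] ∧
    ¬ GalkinShinder (Matrix.toLinearMap₂' ℤ (Matrix.diagonal ![(3 : ℤ), 8, 18 * k ^ 2]))
      ![1, 0, 0] ∧
    ∀ T, label (Matrix.toLinearMap₂' ℤ (Matrix.diagonal ![(3 : ℤ), 8, 18 * k ^ 2])) ![1, 0, 0] T ∉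
      ({8, 14, 18, 20, 26, 38, 42} : Set ℤ) := by
  refine ⟨?_, ?_, ?_, ?_⟩
  · obtain ⟨v, u, hv, hu, hvu⟩ := GSL.hyperbolic k hk
    refine ⟨(v 1 - 2 * v 0, ![v 0, v 2, v 3]), (u 1 - 2 * u 0, ![u 0, u 2, u 3]), ?_, ?_, ?_⟩ <;>
      rw [mukai_formA]
    · rw [← hv]; unfold GSL.bil; simp
    · rw [← hu]; unfold GSL.bil; simp
    · rw [← hvu]; unfold GSL.bil; simp
  · obtain ⟨j, hj⟩ := hk
    obtain ⟨m, hm⟩ : ∃ m : ℤ, 2 * m = 1 - 9 * k ^ 2 := ⟨-4 - 18 * j ^ 2 - 18 * j, by rw [hj]; ring⟩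
    -- v' = l2 + f + m w0, w0 = 2 l1 + e
    refine ⟨(1 - 4 * m, ![2 * m, m, 1]), ?_, ?_, ?_⟩
    · rw [mukai_formA]; unfold GSL.bil; simp; linear_combination (-2 : ℤ) * hm
    · rw [mukai_formA]; unfold GSL.bil w24; simp; ring
    · rw [mukai_formA]; unfold GSL.bil; simp; refine ⟨1, ?_⟩; ring
  · rintro ⟨w, h0, h1⟩
    rw [mukai_formA] at h0 h1
    refine GSL.no_w k ![w.2 0, w.1 + 2 * w.2 0, w.2 1, w.2 2] ⟨h0, ?_⟩
    rw [← h1]; unfold GSL.bil GSL.l1; simp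
  · intro T hT
    have e : label (Matrix.toLinearMap₂' ℤ (Matrix.diagonal ![(3 : ℤ), 8, 18 * k ^ 2])) ![1, 0, 0]
        T = 24 * T 1 ^ 2 + 54 * (k * T 2) ^ 2 := by
      unfold label; simp only [formA_apply]; simp; ring
    rw [e] at hT
    obtain ⟨x, hx⟩ : ∃ x, x = T 1 := ⟨_, rfl⟩
    obtain ⟨y, hy⟩ : ∃ y, y = k * T 2 := ⟨_, rfl⟩
    rw [← hx, ← hy] at hT
    have hy0 : y ^ 2 < 1 := by
      simp only [Set.mem_insert_iff, Set.mem_singleton_iff] at hT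
      have := sq_nonneg x
      rcases hT with h | h | h | h | h | h | h <;> nlinarith
    have hy1 : y ^ 2 = 0 := by have := sq_nonneg y; omega
    rw [hy1] at hT
    have hx0 : x ^ 2 < 2 := by
      simp only [Set.mem_insert_iff, Set.mem_singleton_iff] at hT
      rcases hT with h | h | h | h | h | h | h <;> nlinarith
    have := sq_nonneg x
    have hx1 : x ^ 2 = 0 ∨ x ^ 2 = 1 := by omega
    rcases hx1 with h | h <;> rw [h] at hT <;>
      simp only [Set.mem_insert_iff, Set.mem_singleton_iff] at hT <;> omega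

end Pool.Agent.GSK
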