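import Pool.Agent.GSK.HermK

/-!
# GSK: hermitian matrices of a pencil

For a pencil `H` on `U = K ^ 6` and vectors `f 0, f 1, f 2` (a basis of `U` over `L = K(√d)`):
`hm H f` is the pencil of hermitian `3 × 3` matrices of `Q 0`, `Q 1` in this basis, `fT H f` the
matrix with the columns `f i`, `S f i`.

`Eig.ofHm`: an eigenvector of `hm H f` gives an eigenvector of `H`. `dH_zero`: if `Q 1 - μ Q 0` is
degenerate, then `μ` is a root of the determinant of the hermitian matrices. `exists_eig_pen`: the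
quaternion algebra of `H` is `(d, -κ)`, `κ` the upper left `2 × 2` minor of the hermitian matrix of
`μ Q 0 - Q 1`.
-/

set_option autoImplicit false

noncomputable section

namespace Pool.Agent.GSK

open Matrix Pool.Agent.GSH Pool.Agent.GSX Pool.Agent.GSX.Herm Pool.Agent.GSQ Pool.Agent.GSQ.XS

variable {K : Type} [Field K]

/-- the vectors `f 0, f 1, f 2, S f 0, S f 1, S f 2` -/
def fc (H : Pen K) (f : Fin 3 → Fin 6 → K) : Fin 6 → Fin 6 → K :=
  ![f 0, f 1, f 2, H.S *ᵥ f 0, H.S *ᵥ f 1, H.S *ᵥ f 2]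

/-- the matrix with the columns `f i`, `S f i` -/
def fT (H : Pen K) (f : Fin 3 → Fin 6 → K) : Matrix (Fin 6) (Fin 6) K :=
  Matrix.of fun l j => fc H f j l

/-- the real part of the hermitian form `Q j` -/
def hp (H : Pen K) (j : Fin 2) (u v : Fin 6 → K) : K := 1 / 2 * (u ⬝ᵥ (pol H j *ᵥ v))

/-- the coefficient of `√d` of the hermitian form `Q j` -/
def hq (H : Pen K) (j : Fin 2) (u v : Fin 6 → K) : K :=
  -(u ⬝ᵥ (pol H j *ᵥ (H.S *ᵥ v))) / (2 * H.d)

/-- the hermitian matrices of the pencil -/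
def hm (H : Pen K) (f : Fin 3 → Fin 6 → K) : Herm K where
  d := H.d
  p := fun j => ![hp H j (f 0) (f 0), hp H j (f 0) (f 1), hp H j (f 0) (f 2), hp H j (f 1) (f 1),
    hp H j (f 1) (f 2), hp H j (f 2) (f 2)]
  q := fun j => ![hq H j (f 0) (f 1), hq H j (f 0) (f 2), hq H j (f 1) (f 2)]

section Gram

variable (H : Pen K) (f : Fin 3 → Fin 6 → K)

theorem pol_comm (j : Fin 2) (u v : Fin 6 → K) :
    u ⬝ᵥ (pol H j *ᵥ v) = v ⬝ᵥ (pol H j *ᵥ u) := by
  conv_lhs => rw [← pol_symm H j]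
  rw [mulVec_transpose, dotProduct_comm, ← dotProduct_mulVec]

variable {H}

theorem pol_S (hH : IsHer H) (j : Fin 2) (u v : Fin 6 → K) :
    (H.S *ᵥ u) ⬝ᵥ (pol H j *ᵥ v) = -(u ⬝ᵥ (pol H j *ᵥ (H.S *ᵥ v))) := by
  have h1 : H.Sᵀ * pol H j = -(pol H j * H.S) := eq_neg_of_add_eq_zero_left (hH.her j)
  have h2 : (H.S *ᵥ u) ⬝ᵥ (pol H j *ᵥ v) = u ⬝ᵥ ((H.Sᵀ * pol H j) *ᵥ v) := by
    rw [← mulVec_mulVec, dotProduct_mulVec u, vecMul_transpose]
  rw [h2, h1, neg_mulVec, dotProduct_neg, mulVec_mulVec]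

theorem S_S (hH : IsHer H) (u : Fin 6 → K) : H.S *ᵥ (H.S *ᵥ u) = H.d • u := by
  rw [mulVec_mulVec, hH.sq, smul_mulVec, one_mulVec]

theorem pol_SS (hH : IsHer H) (j : Fin 2) (u v : Fin 6 → K) :
    (H.S *ᵥ u) ⬝ᵥ (pol H j *ᵥ (H.S *ᵥ v)) = -(H.d * (u ⬝ᵥ (pol H j *ᵥ v))) := by
  rw [pol_S hH, S_S hH, mulVec_smul, dotProduct_smul, smul_eq_mul]

theorem pol_u_S (hH : IsHer H) (j : Fin 2) (u v : Fin 6 → K) :
    u ⬝ᵥ (pol H j *ᵥ (H.S *ᵥ v)) = -(v ⬝ᵥ (pol H j *ᵥ (H.S *ᵥ u))) := by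
  rw [pol_comm, pol_S hH]

theorem pol_self_S [CharZero K] (hH : IsHer H) (j : Fin 2) (u : Fin 6 → K) :
    u ⬝ᵥ (pol H j *ᵥ (H.S *ᵥ u)) = 0 := by
  have h := pol_u_S hH j u u
  have h2 : (2 : K) * (u ⬝ᵥ (pol H j *ᵥ (H.S *ᵥ u))) = 0 := by linear_combination h
  exact (mul_eq_zero.1 h2).resolve_left two_ne_zero

variable (H)

theorem fT_gram (P : Matrix (Fin 6) (Fin 6) K) (i k : Fin 6) :
    ((fT H f)ᵀ * P * fT H f) i k = fc H f i ⬝ᵥ (P *ᵥ fc H f k) := by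
  rw [Matrix.mul_assoc, Matrix.mul_apply]
  simp only [dotProduct, mulVec, fT, Matrix.transpose_apply, Matrix.of_apply, Matrix.mul_apply]

theorem pol_pen (H' : Herm K) (j : Fin 2) (i k : Fin 6) :
    pol H'.pen j i k = 2 * H'.pen.Q j i k := by
  have h := congrFun (congrFun (H'.isPen.symQ j) i) k
  rw [pol, Matrix.add_apply, h, two_mul]

variable {H}

theorem gram [CharZero K] (hH : IsHer H) (hd : H.d ≠ 0) (j : Fin 2) :
    (fT H f)ᵀ * pol H j * fT H f = pol (hm H f).pen j := by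
  have h2 : (2 : K) ≠ 0 := two_ne_zero
  have b10 := pol_comm H j (f 1) (f 0)
  have b20 := pol_comm H j (f 2) (f 0)
  have b21 := pol_comm H j (f 2) (f 1)
  have c0 := pol_self_S hH j (f 0)
  have c1 := pol_self_S hH j (f 1)
  have c2 := pol_self_S hH j (f 2)
  have c10 := pol_u_S hH j (f 1) (f 0)
  have c20 := pol_u_S hH j (f 2) (f 0)
  have c21 := pol_u_S hH j (f 2) (f 1)
  have hS := fun u v => pol_S hH j u v
  have hSS := fun u v => pol_SS hH j u v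
  ext i k
  rw [fT_gram, pol_pen]
  fin_cases i <;> fin_cases k <;>
    simp only [fc, hm, Herm.pen, Herm.E, Herm.F, hp, hq, Fin.zero_eta, Fin.mk_one, Fin.reduceFinMk,
      Matrix.of_apply, Matrix.cons_val, Matrix.cons_val_zero, Matrix.cons_val_one, Pi.smul_apply,
      smul_eq_mul, hSS, hS, b10, b20, b21, c0, c1, c2, c10, c20, c21] <;>
    (try field_simp) <;> (try ring)

end Gram

/-! ### Extension of scalars -/

section Ext

variable {H : Pen K} {f : Fin 3 → Fin 6 → K} {M : Type} [Field M] [Algebra K M]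

theorem mK_one (u : Fin 6 → M) : mK (1 : Matrix (Fin 6) (Fin 6) K) *ᵥ u = u := by
  have h1 : (mK (1 : Matrix (Fin 6) (Fin 6) K) : Matrix (Fin 6) (Fin 6) M) = 1 :=
    Matrix.map_one _ (map_zero _) (map_one _)
  rw [h1, one_mulVec]

theorem mK_inj {A : Matrix (Fin 6) (Fin 6) K} (hA : A.det ≠ 0) {u v : Fin 6 → M}
    (h : mK A *ᵥ u = mK A *ᵥ v) : u = v := by
  have h1 := congrArg (mK A⁻¹ *ᵥ ·) h
  simp only [mK_mul, Matrix.nonsing_inv_mul A (isUnit_iff_ne_zero.2 hA), mK_one] at h1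
  exact h1

theorem mK_inv {A : Matrix (Fin 6) (Fin 6) K} (hA : A.det ≠ 0) (u : Fin 6 → M) :
    mK A *ᵥ (mK A⁻¹ *ᵥ u) = u := by
  rw [mK_mul, Matrix.mul_nonsing_inv A (isUnit_iff_ne_zero.2 hA), mK_one]

theorem gram_mK [CharZero K] (hH : IsHer H) (hd : H.d ≠ 0) (j : Fin 2) (u : Fin 6 → M) :
    mK (fT H f)ᵀ *ᵥ (mK (pol H j) *ᵥ (mK (fT H f) *ᵥ u)) = mK (pol (hm H f).pen j) *ᵥ u := by
  rw [mK_mul, mK_mul, ← gram f hH hd, Matrix.mul_assoc]

theorem bl_fT [CharZero K] (hH : IsHer H) (hd : H.d ≠ 0) (u : Fin 6 → M) :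
    bl (H.Q 0) (mK (fT H f) *ᵥ u) (mK (fT H f) *ᵥ u) = bl ((hm H f).pen.Q 0) u u := by
  have : CharZero M := charZero_of_injective_algebraMap (algebraMap K M).injective
  have h1 := bl_pol (Ω := M) H 0 (mK (fT H f) *ᵥ u)
  have h2 := bl_pol (Ω := M) (hm H f).pen 0 u
  rw [bl_left, bl_right, gram f hH hd, h2] at h1
  exact (mul_left_cancel₀ (two_ne_zero : (2 : M) ≠ 0) h1).symm

/-- an eigenvector of the hermitian matrices gives an eigenvector of the pencil -/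
def ofHm [CharZero K] (hH : IsHer H) (hd : H.d ≠ 0) (hT : (fT H f).det ≠ 0)
    (F : Eig (hm H f).pen M) : Eig H M where
  m := F.m
  v := mK (fT H f) *ᵥ F.v
  gen := F.gen
  eig := by
    have hT' : ((fT H f)ᵀ).det ≠ 0 := by rwa [det_transpose]
    apply mK_inj hT'
    rw [mulVec_smul, gram_mK hH hd, gram_mK hH hd]
    exact F.eig
  ne := by
    rw [bl_fT hH hd]
    exact F.ne

theorem ofHm_c [CharZero K] (hH : IsHer H) (hd : H.d ≠ 0) (hT : (fT H f).det ≠ 0)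
    (F : Eig (hm H f).pen M) : (ofHm hH hd hT F).c = F.c := by
  have h1 : (ofHm hH hd hT F).cv = F.cv := bl_fT hH hd F.v
  have h2 : (ofHm hH hd hT F).pd = F.pd := rfl
  unfold Eig.c Eig.e
  rw [h1, h2]

end Ext

/-! ### The eigenvalues -/

section Val

variable {E : Type} [Field E] [Algebra K E]

/-- the matrix `μ B 0 - B 1` -/
def MH (H : Herm K) (μ δ : E) : Matrix (Fin 3) (Fin 3) E :=
  !![pM H μ 0, pM H μ 1 + δ * qM H μ 0, pM H μ 2 + δ * qM H μ 1;
    pM H μ 1 - δ * qM H μ 0, pM H μ 3, pM H μ 4 + δ * qM H μ 2;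
    pM H μ 2 - δ * qM H μ 1, pM H μ 4 - δ * qM H μ 2, pM H μ 5]

theorem det_MH (H : Herm K) (μ : E) {δ : E} (hδ : δ ^ 2 = algebraMap K E H.d) :
    (MH H μ δ).det = dH (algebraMap K E H.d) (pM H μ) (qM H μ) := by
  rw [Matrix.det_fin_three]
  simp only [MH, dH, ← hδ]
  simp
  ring

theorem MH_mulVec (H : Herm K) (μ : E) {δ : E} (hδ : δ ^ 2 = algebraMap K E H.d) (u : Fin 6 → E) :
    MH H μ δ *ᵥ cx (-δ) u = μ • ln H 0 δ u - ln H 1 δ u := by
  funext i
  fin_cases i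
  · simp [ln, lv, dotProduct, vK, Fin.sum_univ_six, Fin.sum_univ_three, Herm.E, Herm.F, MH, cx,
      mulVec, pM, qM, ← hδ]
    ring
  · simp [ln, lv, dotProduct, vK, Fin.sum_univ_six, Fin.sum_univ_three, Herm.E, Herm.F, MH, cx,
      mulVec, pM, qM, ← hδ]
    ring
  · simp [ln, lv, dotProduct, vK, Fin.sum_univ_six, Fin.sum_univ_three, Herm.E, Herm.F, MH, cx,
      mulVec, pM, qM, ← hδ]
    ring

theorem cx_zero {H : Herm K} {μ δ : E} (hδ : δ ^ 2 = algebraMap K E H.d) {u : Fin 6 → E}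
    (hE : ∀ i, lv (H.E 1 i) u = μ * lv (H.E 0 i) u) (hF : ∀ i, lv (H.F 1 i) u = μ * lv (H.F 0 i) u)
    (h : dH (algebraMap K E H.d) (pM H μ) (qM H μ) ≠ 0) : cx (-δ) u = 0 := by
  have h1 : MH H μ δ *ᵥ cx (-δ) u = 0 := by
    rw [MH_mulVec H μ hδ]
    funext i
    simp only [ln, hE, hF, Pi.sub_apply, Pi.smul_apply, smul_eq_mul, Pi.zero_apply]
    ring
  rw [← det_MH H μ hδ] at h
  exact Matrix.eq_zero_of_mulVec_eq_zero h h1

theorem dH_zero_aux [CharZero K] {H : Herm K} (hd : H.d ≠ 0) {μ δ : E}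
    (hδ : δ ^ 2 = algebraMap K E H.d) {u : Fin 6 → E} (hu : u ≠ 0)
    (hE : ∀ i, lv (H.E 1 i) u = μ * lv (H.E 0 i) u)
    (hF : ∀ i, lv (H.F 1 i) u = μ * lv (H.F 0 i) u) :
    dH (algebraMap K E H.d) (pM H μ) (qM H μ) = 0 := by
  have : CharZero E := charZero_of_injective_algebraMap (algebraMap K E).injective
  by_contra h
  apply hu
  have hδ' : (-δ) ^ 2 = algebraMap K E H.d := by rw [← hδ]; ring
  have h1 := cx_zero hδ hE hF h
  have h2 := cx_zero hδ' hE hF h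
  rw [neg_neg] at h2
  have hδ0 : δ ≠ 0 := by
    rintro rfl
    apply hd
    rw [zero_pow two_ne_zero] at hδ
    exact (map_eq_zero _).1 hδ.symm
  have h3 : ∀ a b : E, a + -δ * b = 0 → a + δ * b = 0 → a = 0 ∧ b = 0 := by
    intro a b h4 h5
    have h6 : 2 * a = 0 := by linear_combination h4 + h5
    have h7 : a = 0 := (mul_eq_zero.1 h6).resolve_left two_ne_zero
    rw [h7, zero_add] at h5
    exact ⟨h7, (mul_eq_zero.1 h5).resolve_left hδ0⟩
  have h4 := h3 _ _ (congrFun h1 0) (congrFun h2 0)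
  have h5 := h3 _ _ (congrFun h1 1) (congrFun h2 1)
  have h6 := h3 _ _ (congrFun h1 2) (congrFun h2 2)
  funext i
  fin_cases i
  · exact h4.1
  · exact h5.1
  · exact h6.1
  · exact h4.2
  · exact h5.2
  · exact h6.2

variable {M : Type} [Field M] [Algebra K M]

theorem map_dH (φ : M →ₐ[K] E) (H : Herm K) (μ : M) :
    φ (dH (algebraMap K M H.d) (pM H μ) (qM H μ)) =
      dH (algebraMap K E H.d) (pM H (φ μ)) (qM H (φ μ)) := by
  simp only [dH, pM, qM, map_add, map_sub, map_mul, map_pow, map_ofNat, AlgHom.commutes]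

theorem dH_zero [CharZero K] {H : Herm K} (hd : H.d ≠ 0) {μ : M} {u : Fin 6 → M} (hu : u ≠ 0)
    (h : (mK (pol H.pen 1) *ᵥ u : Fin 6 → M) = μ • (mK (pol H.pen 0) *ᵥ u)) :
    dH (algebraMap K M H.d) (pM H μ) (qM H μ) = 0 := by
  have : CharZero M := charZero_of_injective_algebraMap (algebraMap K M).injective
  rw [mK_Q, mK_Q, smul_comm] at h
  have h1 : (mK (H.pen.Q 1) *ᵥ u : Fin 6 → M) = μ • (mK (H.pen.Q 0) *ᵥ u) :=
    smul_right_injective _ (two_ne_zero : (2 : M) ≠ 0) h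
  have hdM : algebraMap K M H.d ≠ 0 := by rwa [Ne, map_eq_zero]
  have hE : ∀ i, lv (H.E 1 i) u = μ * lv (H.E 0 i) u := by
    intro i
    fin_cases i
    · exact congrFun h1 0
    · exact congrFun h1 1
    · exact congrFun h1 2
  have hF' : ∀ i, lv (H.d • H.F 1 i) u = μ * lv (H.d • H.F 0 i) u := by
    intro i
    fin_cases i
    · exact congrFun h1 3
    · exact congrFun h1 4
    · exact congrFun h1 5
  have hF : ∀ i, lv (H.F 1 i) u = μ * lv (H.F 0 i) u := by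
    intro i
    have h2 := hF' i
    rw [lv_smul_left, lv_smul_left] at h2
    refine mul_left_cancel₀ hdM ?_
    rw [h2]
    ring
  obtain ⟨δ, hδ⟩ := IsAlgClosed.exists_pow_nat_eq
    (algebraMap K (AlgebraicClosure M) H.d) (n := 2) (by norm_num)
  let φ : M →ₐ[K] AlgebraicClosure M := IsScalarTower.toAlgHom K M (AlgebraicClosure M)
  apply φ.toRingHom.injective
  change φ _ = φ 0
  rw [map_dH φ, map_zero]
  refine dH_zero_aux hd hδ (u := fun l => φ (u l)) ?_ ?_ ?_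
  · intro h3
    apply hu
    funext l
    exact (map_eq_zero φ).1 (congrFun h3 l)
  · intro i
    rw [← map_lv, ← map_lv, hE, map_mul]
  · intro i
    rw [← map_lv, ← map_lv, hF, map_mul]

theorem cub_ne_zero {H : Herm K} (h : dH H.d (H.p 0) (H.q 0) ≠ 0) : cub H ≠ 0 := by
  intro h0
  obtain ⟨a, b, c, habc⟩ := cub_eq H
  have h4 : (cub H).coeff 3 = dH H.d (H.p 0) (H.q 0) := by
    rw [habc]
    simp
  rw [h0, Polynomial.coeff_zero] at h4
  exact h h4.symm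

end Val

section Main

variable {H : Pen K} {f : Fin 3 → Fin 6 → K} {M : Type} [Field M] [Algebra K M]

/-- **The quaternion algebra of a pencil** is `(d, -κ)`. -/
theorem exists_eig_pen [CharZero K] (hH : IsHer H) (hd : H.d ≠ 0) (hT : (fT H f).det ≠ 0)
    (hM : Module.finrank K M = 3) {μ : M} (hμ : IntermediateField.adjoin K {μ} = ⊤)
    (h0 : dH H.d ((hm H f).p 0) ((hm H f).q 0) ≠ 0) {v : Fin 6 → M} (hv : v ≠ 0)
    (h : mK (pol H 1) *ᵥ v = μ • (mK (pol H 0) *ᵥ v))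
    (hκ : kap (algebraMap K M H.d) (pM (hm H f) μ) (qM (hm H f) μ) ≠ 0) :
    ∃ F : Eig H M, F.m = μ ∧ F.c ≠ 0 ∧ ∃ x y : M,
      F.c = -kap (algebraMap K M H.d) (pM (hm H f) μ) (qM (hm H f) μ) *
        (x ^ 2 - algebraMap K M H.d * y ^ 2) := by
  have hv' : mK (fT H f) *ᵥ (mK (fT H f)⁻¹ *ᵥ v) = v := mK_inv hT v
  have hu : (mK (fT H f)⁻¹ *ᵥ v : Fin 6 → M) ≠ 0 := by
    intro h1
    apply hv
    rw [← hv', h1, mulVec_zero]
  have h1 : (mK (pol (hm H f).pen 1) *ᵥ (mK (fT H f)⁻¹ *ᵥ v) : Fin 6 → M) =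
      μ • (mK (pol (hm H f).pen 0) *ᵥ (mK (fT H f)⁻¹ *ᵥ v)) := by
    rw [← gram_mK hH hd, ← gram_mK hH hd, hv', h, mulVec_smul]
  have h2 := dH_zero (H := hm H f) hd hu h1
  obtain ⟨F, h3, h4, x, y, h5⟩ := exists_eig (hm H f) hd hM hμ (cub_ne_zero h0) h2 hκ
  refine ⟨ofHm hH hd hT F, h3, ?_, x, y, ?_⟩
  · rwa [ofHm_c]
  · rw [ofHm_c]
    exact h5

/-- the determinant of the hermitian matrix of `Q 0` -/
theorem dH_ne [CharZero K] (hH : IsHer H) (hd : H.d ≠ 0) (hT : (fT H f).det ≠ 0)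
    (h : (pol H 0).det ≠ 0) : dH H.d ((hm H f).p 0) ((hm H f).q 0) ≠ 0 := by
  intro h0
  have h1 : (pol (hm H f).pen 0).det ≠ 0 := by
    rw [← gram f hH hd, det_mul, det_mul, det_transpose]
    exact mul_ne_zero (mul_ne_zero hT h) hT
  obtain ⟨δ, hδ⟩ := IsAlgClosed.exists_pow_nat_eq
    (algebraMap K (AlgebraicClosure K) H.d) (n := 2) (by norm_num)
  have hδ' : (-δ) ^ 2 = algebraMap K (AlgebraicClosure K) (hm H f).d := by
    change (-δ) ^ 2 = algebraMap K (AlgebraicClosure K) H.d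
    rw [← hδ]
    ring
  have hδ0 : δ ≠ 0 := by
    rintro rfl
    apply hd
    rw [zero_pow two_ne_zero] at hδ
    exact (map_eq_zero _).1 hδ.symm
  have h2 : (B0 (hm H f) δ).det = 0 := by
    rw [det_B0 (hm H f) hδ]
    change algebraMap K _ (dH H.d ((hm H f).p 0) ((hm H f).q 0)) = 0
    rw [h0, map_zero]
  obtain ⟨z, hz, hz0⟩ := Matrix.exists_mulVec_eq_zero_iff.2 h2
  let u : Fin 6 → AlgebraicClosure K :=
    ![δ * z 0, δ * z 1, δ * z 2, -z 0, -z 1, -z 2]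
  have h3 : cx δ u = 0 := by
    funext i
    fin_cases i <;> simp [cx, u]
  have h4 : cx (-δ) u = (2 * δ) • z := by
    funext i
    fin_cases i <;> simp [cx, u] <;> ring
  have h5 : ln (hm H f) 0 δ u = 0 := by
    rw [ln_B0 (hm H f) hδ, h4, mulVec_smul, hz0, smul_zero]
  have h6 : ln (hm H f) 0 (-δ) u = 0 := by
    rw [ln_B0 (hm H f) hδ', neg_neg, h3, mulVec_zero]
  have h7 : ∀ i, lv ((hm H f).E 0 i) u = 0 ∧ lv ((hm H f).F 0 i) u = 0 := by
    intro i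
    have h8 := congrFun h5 i
    have h9 := congrFun h6 i
    simp only [ln, Pi.zero_apply] at h8 h9
    have h10 : 2 * lv ((hm H f).E 0 i) u = 0 := by linear_combination h8 + h9
    have h11 : lv ((hm H f).E 0 i) u = 0 := (mul_eq_zero.1 h10).resolve_left two_ne_zero
    rw [h11, zero_add] at h8
    exact ⟨h11, (mul_eq_zero.1 h8).resolve_left hδ0⟩
  have h8 : ∀ i, lv ((hm H f).d • (hm H f).F 0 i) u = 0 := by
    intro i
    rw [lv_smul_left, (h7 i).2, mul_zero]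
  have h9 : (mK ((hm H f).pen.Q 0) *ᵥ u : Fin 6 → AlgebraicClosure K) = 0 := by
    funext i
    fin_cases i
    · exact (h7 0).1
    · exact (h7 1).1
    · exact (h7 2).1
    · exact h8 0
    · exact h8 1
    · exact h8 2
  have h10 : (mK (pol (hm H f).pen 0) *ᵥ u : Fin 6 → AlgebraicClosure K) = 0 := by
    rw [mK_Q, h9, smul_zero]
  have h11 : u = 0 := mK_inj h1 (by rw [h10, mulVec_zero])
  apply hz
  rw [h11] at h4
  have h12 : (2 * δ) • z = 0 := by
    rw [← h4]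
    funext i
    fin_cases i <;> simp [cx]
  exact (smul_eq_zero.1 h12).resolve_left (mul_ne_zero two_ne_zero hδ0)

end Main

end Pool.Agent.GSK
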