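import Pool.Agent.GSK.DDefs

/-!
# A cubic fourfold and a type O datum with the same twisted K3 surface over the plane
-/

set_option autoImplicit false

noncomputable section

namespace Pool.Agent.TK

open scoped Quaternion

/-- The cubic fourfold `X` and the type O datum `D` with the parameters `c` have the same twisted K3
surface over the plane: there are a field extension `M` of `K` of degree 3, a point `(n : n')` of
the K3 surface of `X` over the generic point `(s, t)` of the plane, which generates `M` over `K`, a
point `(c, m)` of the K3 surface of `D` over the point `c` of the plane, which generates `M` over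
`K`, and the quaternion algebras of `X` and `D` at these points are isomorphic. -/
def SameTwistedK3 (X : Cub ℂ) (D : Dat ℂ) (c : Fin 2 → K) : Prop :=
  ∃ (M : Type) (_ : Field M) (_ : Algebra K M) (n n' : Fin 3 → M) (m : M),
    Module.finrank K M = 3 ∧ X.Gen n n' ∧ D.Gen c m ∧
    Nonempty (ℍ[M, -det2 n, n 0 * n' 0] ≃ₐ[M]
      ℍ[M, (D.map (cc M)).sq (fun i => algebraMap K M (c i)),
        (D.map (cc M)).cls (fun i => algebraMap K M (c i)) m])

end Pool.Agent.TK
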