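import Pool.Agent.GSK.HermK
import Pool.Agent.GSK.Quat
import Pool.Agent.GSX.GSq

/-!
# GSK: the K3 surface of a cubic fourfold of the family and its quaternion algebra

`D`: the coefficients of two symmetric `2 × 2` matrices `A`, `B` of linear forms. For two symmetric
`2 × 2` matrices `n`, `n'` (entries 00, 01, 11) let `g_k = tr (n' B_k) - tr (n A_k)`. The surface
`S ⊂ ℙ⁵` of the points `(n : n')` with

`g_0 = 0`, `det n = det n'`,
`4 g_5 det n + (g_1, g_2) adj(n) (g_1, g_2)ᵀ = (g_3, g_4) adj(n') (g_3, g_4)ᵀ`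

is a K3 surface of degree 6 (for general `D`), in a quadric in `ℙ⁴`. The linear projection
`(n : n') ↦ n + n' = adj (1, s; s, t)`, from the line `n + n' = 0` of the quadric, makes it a triple
cover of the plane.

`K3 D s t n n'`: `(n, n')` is a point of `S` over the point `(1 : s : t)` of the plane, with
coordinates in `M`, normalised by `n + n' = (t, -s; -s, 1)`, and `M` is generated by the coordinates.
`K3.exists_eig`: then `M` and the quaternion algebra `(-det n, n_00 n'_00)`, the class of the rulings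
of the quadric `n(x) = n'(y)`, are the invariants of the pencil of hermitian forms `Cub.herm`.
-/

set_option autoImplicit false

noncomputable section

namespace Pool.Agent.GSK

open Matrix Pool.Agent.GSH Pool.Agent.GSX Pool.Agent.GSQ
open scoped Quaternion

variable {K : Type} [Field K] {M : Type} [Field M] [Algebra K M]

/-- the determinant of a symmetric matrix -/
def dt (n : Fin 3 → M) : M := n 0 * n 2 - n 1 ^ 2

/-- the trace of the product of two symmetric matrices -/
def trm (n : Fin 3 → M) (a : Fin 3 → K) : M :=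
  n 0 * algebraMap K M (a 0) + 2 * n 1 * algebraMap K M (a 1) + n 2 * algebraMap K M (a 2)

/-- the value `g adj(n) gᵀ` -/
def adq (n : Fin 3 → M) (x y : M) : M := n 2 * x ^ 2 - 2 * n 1 * (x * y) + n 0 * y ^ 2

/-- `g_k = tr (n' B_k) - tr (n A_k)` -/
def gS (D : Cub K) (n n' : Fin 3 → M) (k : Fin 6) : M := trm n' (D.b k) - trm n (D.a k)

/-- The generic point `(n : n')` of the K3 surface over the point `(1 : s : t)` of the plane. -/
structure K3 (D : Cub K) (s t : K) (n n' : Fin 3 → M) : Prop where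
  g0 : gS D n n' 0 = 0
  quad : dt n = dt n'
  cubic : 4 * gS D n n' 5 * dt n + adq n (gS D n n' 1) (gS D n n' 2) =
    adq n' (gS D n n' 3) (gS D n n' 4)
  c0 : n 0 + n' 0 = algebraMap K M t
  c1 : n 1 + n' 1 = -algebraMap K M s
  c2 : n 2 + n' 2 = 1
  top : IntermediateField.adjoin K (Set.range n) = ⊤

namespace K3

variable {D : Cub K} {s t : K} {n n' : Fin 3 → M}

theorem dd (h : K3 D s t n n') : algebraMap K M (t - s ^ 2) =
    (n 0 + n' 0) * (n 2 + n' 2) - (n 1 + n' 1) ^ 2 := by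
  rw [h.c0, h.c1, h.c2, map_sub, map_pow]
  ring

/-- `R adj(n') R = d n`, entry 00 -/
theorem r0 (h : K3 D s t n n') : algebraMap K M t ^ 2 * n' 2 + 2 * algebraMap K M s *
    algebraMap K M t * n' 1 + algebraMap K M s ^ 2 * n' 0 = algebraMap K M (t - s ^ 2) * n 0 := by
  have hs : algebraMap K M s = -(n 1 + n' 1) := by rw [h.c1, neg_neg]
  have hq := h.quad
  unfold dt at hq
  rw [h.dd, ← h.c0, hs]
  linear_combination -(n 0 + n' 0) * hq

/-- `R adj(n') R = d n`, entry 01 -/
theorem r1 (h : K3 D s t n n') : -(algebraMap K M s * algebraMap K M t * n' 2) -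
    (algebraMap K M t + algebraMap K M s ^ 2) * n' 1 - algebraMap K M s * n' 0 =
      algebraMap K M (t - s ^ 2) * n 1 := by
  have hs : algebraMap K M s = -(n 1 + n' 1) := by rw [h.c1, neg_neg]
  have hq := h.quad
  have h2 := h.c2
  unfold dt at hq
  rw [h.dd, ← h.c0, hs]
  linear_combination -(n 1 + n' 1) * hq + ((n 0 + n' 0) * n' 1 - (n 1 + n' 1) * n' 0) * h2

/-- `R adj(n') R = d n`, entry 11 -/
theorem r2 (h : K3 D s t n n') : algebraMap K M s ^ 2 * n' 2 + 2 * algebraMap K M s * n' 1 +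
    n' 0 = algebraMap K M (t - s ^ 2) * n 2 := by
  have hs : algebraMap K M s = -(n 1 + n' 1) := by rw [h.c1, neg_neg]
  have hq := h.quad
  have h2 := h.c2
  unfold dt at hq
  rw [h.dd, hs]
  linear_combination -(n 2 + n' 2) * hq + (2 * (n 1 + n' 1) * n' 1 - n' 0 * (n 2 + n' 2 + 1)) * h2

/-- `tr (adj(n') C_k) = d g_k` -/
theorem lin (h : K3 D s t n n') (k : Fin 6) : n' 2 * algebraMap K M (D.c s t k 0) -
    2 * n' 1 * algebraMap K M (D.c s t k 1) + n' 0 * algebraMap K M (D.c s t k 2) =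
      algebraMap K M (t - s ^ 2) * gS D n n' k := by
  have h0 := h.r0
  have h1 := h.r1
  have h2 := h.r2
  have e2 : algebraMap K M 2 = 2 := map_ofNat _ 2
  rw [map_sub, map_pow] at h0 h1 h2
  simp [Cub.c, gS, trm, e2]
  linear_combination -algebraMap K M (D.a k 0) * h0 - 2 * algebraMap K M (D.a k 1) * h1 -
    algebraMap K M (D.a k 2) * h2

theorem lin0 (h : K3 D s t n n') : n' 2 * algebraMap K M (D.c s t 0 0) -
    2 * n' 1 * algebraMap K M (D.c s t 0 1) + n' 0 * algebraMap K M (D.c s t 0 2) = 0 := by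
  rw [h.lin 0, h.g0, mul_zero]

theorem gm (h : K3 D s t n n') (k : Fin 6) : n' 0 * algebraMap K M (D.g s t (D.m s t 1) k) -
    n' 1 * algebraMap K M (D.g s t (D.m s t 0) k) = algebraMap K M (D.c s t 0 0) *
      (algebraMap K M (t - s ^ 2) * gS D n n' k) := by
  have h0 := h.lin0
  have hk := h.lin k
  have e2 : algebraMap K M 2 = 2 := map_ofNat _ 2
  simp only [Cub.g, Cub.tr, Cub.m, map_add, map_mul, e2]
  simp [e2]
  rw [map_sub, map_pow] at hk
  linear_combination algebraMap K M (D.c s t 0 0) * hk - algebraMap K M (D.c s t k 0) * h0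

/-- the hermitian matrix at the point -/
def Pn (D : Cub K) (s t : K) (n n' : Fin 3 → M) : Fin 6 → M :=
  ![2 * n' 2, -(2 * n' 1), -(gS D n n' 1 + algebraMap K M s * gS D n n' 2), 2 * n' 0,
    -(algebraMap K M s * gS D n n' 1 + algebraMap K M t * gS D n n' 2),
    -(2 * algebraMap K M (t - s ^ 2) * gS D n n' 5)]

/-- the hermitian matrix at the point -/
def Qn (D : Cub K) (n n' : Fin 3 → M) : Fin 3 → M := ![0, -gS D n n' 4, gS D n n' 3]

theorem dH_Pn (h : K3 D s t n n') :
    dH (algebraMap K M (t - s ^ 2)) (Pn D s t n n') (Qn D n n') = 0 := by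
  have h0 := h.r0
  have h1 := h.r1
  have h2 := h.r2
  have hq := h.quad
  have hc := h.cubic
  simp only [dt, adq] at hq hc
  simp [dH, Pn, Qn]
  rw [map_sub, map_pow] at h0 h1 h2
  linear_combination -2 * gS D n n' 1 ^ 2 * h2 + 4 * gS D n n' 1 * gS D n n' 2 * h1 -
    2 * gS D n n' 2 ^ 2 * h0 - 2 * (algebraMap K M t - algebraMap K M s ^ 2) * hc +
    8 * (algebraMap K M t - algebraMap K M s ^ 2) * gS D n n' 5 * hq

theorem kap_Pn : kap (algebraMap K M (t - s ^ 2)) (Pn D s t n n') (Qn D n n') = 4 * dt n' := by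
  simp [kap, Pn, Qn, dt]
  ring

theorem dH_smul (d r : M) (P : Fin 6 → M) (Q : Fin 3 → M) :
    dH d (fun i => r * P i) (fun i => r * Q i) = r ^ 3 * dH d P Q := by
  simp only [dH]
  ring

theorem kap_smul (d r : M) (P : Fin 6 → M) (Q : Fin 3 → M) :
    kap d (fun i => r * P i) (fun i => r * Q i) = r ^ 2 * kap d P Q := by
  simp only [kap]
  ring

/-- the scalar factor -/
def rho (D : Cub K) (s t : K) (n' : Fin 3 → M) : M :=
  -(algebraMap K M (D.c s t 0 0) * algebraMap K M (t - s ^ 2)) / n' 0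

theorem pM_eq (h : K3 D s t n n') (hn : n' 0 ≠ 0) :
    pM (D.herm s t) (n' 1 / n' 0) = fun i => rho D s t n' * Pn D s t n n' i := by
  funext i
  have hm := h.gm
  have h0 := h.lin0
  have e2 : algebraMap K M 2 = 2 := map_ofNat _ 2
  rw [pM, rho, mul_div_assoc', div_mul_eq_mul_div, div_sub' hn, div_left_inj' hn]
  have g1 := hm 1
  have g2 := hm 2
  have g5 := hm 5
  fin_cases i
  · simp [Cub.herm, Cub.hp, Pn, Cub.m, e2]
    linear_combination 2 * (algebraMap K M t - algebraMap K M s ^ 2) * h0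
  · simp [Cub.herm, Cub.hp, Pn, Cub.m, e2]
    ring
  · simp [Cub.herm, Cub.hp, Pn]
    rw [map_sub, map_pow] at g1 g2
    linear_combination g1 + algebraMap K M s * g2
  · simp [Cub.herm, Cub.hp, Pn, Cub.m, e2]
    ring
  · simp [Cub.herm, Cub.hp, Pn]
    rw [map_sub, map_pow] at g1 g2
    linear_combination algebraMap K M s * g1 + algebraMap K M t * g2
  · simp [Cub.herm, Cub.hp, Pn, e2]
    rw [map_sub, map_pow] at g5
    linear_combination 2 * (algebraMap K M t - algebraMap K M s ^ 2) * g5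

theorem qM_eq (h : K3 D s t n n') (hn : n' 0 ≠ 0) :
    qM (D.herm s t) (n' 1 / n' 0) = fun i => rho D s t n' * Qn D n n' i := by
  funext i
  have hm := h.gm
  rw [qM, rho, mul_div_assoc', div_mul_eq_mul_div, div_sub' hn, div_left_inj' hn]
  have g3 := hm 3
  have g4 := hm 4
  fin_cases i
  · simp [Cub.herm, Cub.hq, Qn]
  · simp [Cub.herm, Cub.hq, Qn]
    rw [map_sub, map_pow] at g4
    linear_combination g4
  · simp [Cub.herm, Cub.hq, Qn]
    rw [map_sub, map_pow] at g3
    linear_combination -g3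

/-! ### Generators -/

/-- the coordinates of `n'` determine the field -/
theorem top_of (h : K3 D s t n n') (hd : t - s ^ 2 ≠ 0) (S : IntermediateField K M) {τ : M}
    {u : Fin 3 → M} (hu : ∀ i, u i ∈ S) (hn : ∀ i, n' i = τ * u i) : S = ⊤ := by
  have h2 := h.r2
  have hc := h.c2
  have e : ∀ a : K, algebraMap K M a ∈ S := fun a => S.algebraMap_mem a
  have hw : τ * (algebraMap K M s ^ 2 * u 2 + 2 * algebraMap K M s * u 1 + u 0 +
      algebraMap K M (t - s ^ 2) * u 2) = algebraMap K M (t - s ^ 2) := by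
    rw [hn, hn, hn] at h2
    rw [hn] at hc
    linear_combination h2 + algebraMap K M (t - s ^ 2) * hc
  have hd' : algebraMap K M (t - s ^ 2) ≠ 0 := by
    rw [Ne, map_eq_zero]
    exact hd
  have hτ : τ ∈ S := by
    have h1 : algebraMap K M s ^ 2 * u 2 + 2 * algebraMap K M s * u 1 + u 0 +
        algebraMap K M (t - s ^ 2) * u 2 ≠ 0 := by
      intro h0
      rw [h0, mul_zero] at hw
      exact hd' hw.symm
    rw [eq_div_of_mul_eq h1 hw]
    refine S.div_mem (e _) (S.add_mem (S.add_mem (S.add_mem (S.mul_mem (pow_mem (e _) 2) (hu _))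
      (S.mul_mem (S.mul_mem ?_ (e _)) (hu _))) (hu _)) (S.mul_mem (e _) (hu _)))
    have := e 2
    rwa [map_ofNat] at this
  have hn' : ∀ i, n' i ∈ S := fun i => by
    rw [hn]
    exact S.mul_mem hτ (hu i)
  rw [eq_top_iff, ← h.top, IntermediateField.adjoin_le_iff]
  rintro _ ⟨i, rfl⟩
  fin_cases i
  · have h1 : n 0 = algebraMap K M t - n' 0 := by rw [← h.c0]; ring
    change n 0 ∈ S
    rw [h1]
    exact S.sub_mem (e _) (hn' _)
  · have h1 : n 1 = -algebraMap K M s - n' 1 := by rw [← h.c1]; ring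
    change n 1 ∈ S
    rw [h1]
    exact S.sub_mem (S.neg_mem (e _)) (hn' _)
  · have h1 : n 2 = 1 - n' 2 := by rw [← h.c2]; ring
    change n 2 ∈ S
    rw [h1]
    exact S.sub_mem S.one_mem (hn' _)

theorem bot_ne_top (hM : Module.finrank K M = 3) : (⊥ : IntermediateField K M) ≠ ⊤ := by
  intro h
  have h1 : Module.finrank K (⊥ : IntermediateField K M) = 1 := IntermediateField.finrank_bot
  rw [h, IntermediateField.finrank_top', hM] at h1
  omega

theorem n0'_ne (h : K3 D s t n n') (hM : Module.finrank K M = 3) (hd : t - s ^ 2 ≠ 0)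
    (hc : D.c s t 0 0 ≠ 0) : n' 0 ≠ 0 := by
  intro h0
  have h1 := h.lin0
  have hc' : algebraMap K M (D.c s t 0 0) ≠ 0 := by
    rw [Ne, map_eq_zero]
    exact hc
  refine bot_ne_top hM (h.top_of hd ⊥ (τ := n' 1)
    (u := fun i => algebraMap K M ((![0, 1, 2 * D.c s t 0 1 / D.c s t 0 0] : Fin 3 → K) i))
    (fun i => IntermediateField.algebraMap_mem _ _) fun i => ?_)
  have e2 : algebraMap K M 2 = 2 := map_ofNat _ 2
  fin_cases i
  · change n' 0 = n' 1 * algebraMap K M 0
    rw [h0, map_zero, mul_zero]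
  · change n' 1 = n' 1 * algebraMap K M 1
    rw [map_one, mul_one]
  · change n' 2 = n' 1 * algebraMap K M (2 * D.c s t 0 1 / D.c s t 0 0)
    rw [map_div₀, map_mul, e2, mul_div_assoc', eq_div_iff hc']
    rw [h0] at h1
    linear_combination h1

/-- `n' 2` in terms of `μ` -/
theorem n2'_eq (h : K3 D s t n n') (hn : n' 0 ≠ 0) (hc : D.c s t 0 0 ≠ 0) :
    n' 2 = n' 0 * ((2 * algebraMap K M (D.c s t 0 1) * (n' 1 / n' 0) -
      algebraMap K M (D.c s t 0 2)) / algebraMap K M (D.c s t 0 0)) := by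
  have hc' : algebraMap K M (D.c s t 0 0) ≠ 0 := by
    rw [Ne, map_eq_zero]
    exact hc
  have h1 := h.lin0
  rw [mul_div_assoc', eq_div_iff hc']
  field_simp
  linear_combination h1

theorem gen (h : K3 D s t n n') (hn : n' 0 ≠ 0) (hd : t - s ^ 2 ≠ 0) (hc : D.c s t 0 0 ≠ 0) :
    IntermediateField.adjoin K {n' 1 / n' 0} = ⊤ := by
  set S := IntermediateField.adjoin K {n' 1 / n' 0} with hS
  have hμ : n' 1 / n' 0 ∈ S := IntermediateField.mem_adjoin_simple_self K _
  have e : ∀ a : K, algebraMap K M a ∈ S := fun a => S.algebraMap_mem a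
  refine h.top_of hd S (τ := n' 0) (u := ![1, n' 1 / n' 0, (2 * algebraMap K M (D.c s t 0 1) *
    (n' 1 / n' 0) - algebraMap K M (D.c s t 0 2)) / algebraMap K M (D.c s t 0 0)])
    (fun i => ?_) fun i => ?_
  · fin_cases i
    · exact S.one_mem
    · exact hμ
    · refine S.div_mem (S.sub_mem (S.mul_mem (S.mul_mem ?_ (e _)) hμ) (e _)) (e _)
      have := e 2
      rwa [map_ofNat] at this
  · fin_cases i
    · exact (mul_one _).symm
    · exact (mul_div_cancel₀ _ hn).symm
    · exact h.n2'_eq hn hc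

/-- a generator does not satisfy a quadratic equation -/
theorem quad_zero (hM : Module.finrank K M = 3) {μ : M}
    (hμ : IntermediateField.adjoin K {μ} = ⊤) {a b c : K}
    (h : algebraMap K M a * μ ^ 2 + algebraMap K M b * μ + algebraMap K M c = 0) :
    a = 0 ∧ b = 0 ∧ c = 0 := by
  have hdeg := deg_minpoly hM hμ
  set p : Polynomial K := Polynomial.C a * Polynomial.X ^ 2 + Polynomial.C b * Polynomial.X +
    Polynomial.C c with hp
  have h1 : Polynomial.aeval μ p = 0 := by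
    rw [hp]
    simp only [map_add, map_mul, map_pow, Polynomial.aeval_C, Polynomial.aeval_X]
    exact h
  have h2 : p = 0 := by
    by_contra h0
    have h3 := Polynomial.natDegree_le_natDegree (minpoly.degree_le_of_ne_zero K μ h0 h1)
    rw [hdeg] at h3
    have h4 : p.natDegree ≤ 2 := Polynomial.natDegree_quadratic_le
    omega
  have c0 : p.coeff 0 = c := by rw [hp]; simp
  have c1 : p.coeff 1 = b := by rw [hp]; simp
  have c2 : p.coeff 2 = a := by rw [hp]; simp
  rw [h2] at c0 c1 c2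
  exact ⟨c2.symm, c1.symm, c0.symm⟩

theorem dt_ne (h : K3 D s t n n') (hM : Module.finrank K M = 3) (hd : t - s ^ 2 ≠ 0)
    (hc : D.c s t 0 0 ≠ 0) : dt n' ≠ 0 := by
  intro h0
  have hn := h.n0'_ne hM hd hc
  have hc' : algebraMap K M (D.c s t 0 0) ≠ 0 := by
    rw [Ne, map_eq_zero]
    exact hc
  have h1 := h.n2'_eq hn hc
  have e2 : algebraMap K M 2 = 2 := map_ofNat _ 2
  refine hc (quad_zero hM (h.gen hn hd hc) (a := D.c s t 0 0) (b := -(2 * D.c s t 0 1))
    (c := D.c s t 0 2) ?_).1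
  have h2 : n' 1 = n' 0 * (n' 1 / n' 0) := (mul_div_cancel₀ _ hn).symm
  set μ := n' 1 / n' 0
  rw [dt, h1, h2] at h0
  have h3 : n' 0 ^ 2 * ((2 * algebraMap K M (D.c s t 0 1) * μ -
      algebraMap K M (D.c s t 0 2)) / algebraMap K M (D.c s t 0 0) - μ ^ 2) = 0 := by
    linear_combination h0
  have h4 := (mul_eq_zero.1 h3).resolve_left (pow_ne_zero 2 hn)
  rw [sub_eq_zero, div_eq_iff hc'] at h4
  rw [map_neg, map_mul, e2]
  linear_combination -h4

theorem n0_ne (h : K3 D s t n n') (hM : Module.finrank K M = 3) (hd : t - s ^ 2 ≠ 0)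
    (hc : D.c s t 0 0 ≠ 0) (ht : t ≠ 0) (h2K : (2 : K) ≠ 0)
    (hB : t * D.c s t 0 1 + s * D.c s t 0 0 = 0 → s ^ 2 * D.c s t 0 0 ≠ t ^ 2 * D.c s t 0 2) :
    n 0 ≠ 0 := by
  intro h0
  have hn := h.n0'_ne hM hd hc
  have hc' : algebraMap K M (D.c s t 0 0) ≠ 0 := by
    rw [Ne, map_eq_zero]
    exact hc
  have h1 := h.n2'_eq hn hc
  have hr := h.r0
  have e2 : algebraMap K M 2 = 2 := map_ofNat _ 2
  have h2 : n' 1 = n' 0 * (n' 1 / n' 0) := (mul_div_cancel₀ _ hn).symm
  have hq := quad_zero hM (h.gen hn hd hc) (a := 0)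
    (b := 2 * t * (t * D.c s t 0 1 + s * D.c s t 0 0))
    (c := s ^ 2 * D.c s t 0 0 - t ^ 2 * D.c s t 0 2) ?_
  · obtain ⟨-, hb, hc2⟩ := hq
    refine hB ?_ (sub_eq_zero.1 hc2)
    exact (mul_eq_zero.1 hb).resolve_left (mul_ne_zero h2K ht)
  · set μ := n' 1 / n' 0
    rw [h0, mul_zero, h1, h2] at hr
    have h3 : n' 0 * (algebraMap K M t ^ 2 * (2 * algebraMap K M (D.c s t 0 1) * μ -
        algebraMap K M (D.c s t 0 2)) / algebraMap K M (D.c s t 0 0) + 2 * algebraMap K M s *
        algebraMap K M t * μ + algebraMap K M s ^ 2) = 0 := by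
      linear_combination hr
    have h4 := (mul_eq_zero.1 h3).resolve_left hn
    have h5 : algebraMap K M t ^ 2 * (2 * algebraMap K M (D.c s t 0 1) * μ -
        algebraMap K M (D.c s t 0 2)) + (2 * algebraMap K M s * algebraMap K M t * μ +
        algebraMap K M s ^ 2) * algebraMap K M (D.c s t 0 0) = 0 := by
      rw [add_assoc, div_add' _ _ _ hc', div_eq_zero_iff] at h4
      exact h4.resolve_right hc'
    simp only [map_zero, map_add, map_sub, map_mul, map_pow, e2]
    linear_combination h5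

/-! ### The quaternion algebra -/

/-- **The invariants of the pencil** are the cubic extension `M` and `(-det n, n_00 n'_00)`. -/
theorem exists_eig [CharZero K] (h : K3 D s t n n') (hM : Module.finrank K M = 3)
    (hd : t - s ^ 2 ≠ 0) (hc : D.c s t 0 0 ≠ 0) (ht : t ≠ 0)
    (hB : t * D.c s t 0 1 + s * D.c s t 0 0 = 0 → s ^ 2 * D.c s t 0 0 ≠ t ^ 2 * D.c s t 0 2)
    (hf : cub (D.herm s t) ≠ 0) :
    ∃ F : Eig (D.herm s t).pen M, Nonempty
      (ℍ[M, algebraMap K M (t - s ^ 2), F.c] ≃ₐ[M] ℍ[M, -dt n, n 0 * n' 0]) := by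
  have hn := h.n0'_ne hM hd hc
  have hn0 := h.n0_ne hM hd hc ht two_ne_zero hB
  have hc' : algebraMap K M (D.c s t 0 0) ≠ 0 := by
    rw [Ne, map_eq_zero]
    exact hc
  have hd' : algebraMap K M (t - s ^ 2) ≠ 0 := by
    rw [Ne, map_eq_zero]
    exact hd
  have hMz : CharZero M := charZero_of_injective_algebraMap (algebraMap K M).injective
  have hρ : rho D s t n' ≠ 0 := div_ne_zero (neg_ne_zero.2 (mul_ne_zero hc' hd')) hn
  have h1 : dH (algebraMap K M (D.herm s t).d) (pM (D.herm s t) (n' 1 / n' 0))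
      (qM (D.herm s t) (n' 1 / n' 0)) = 0 := by
    rw [h.pM_eq hn, h.qM_eq hn, dH_smul]
    change rho D s t n' ^ 3 * dH (algebraMap K M (t - s ^ 2)) (Pn D s t n n') (Qn D n n') = 0
    rw [h.dH_Pn, mul_zero]
  have h2 : kap (algebraMap K M (D.herm s t).d) (pM (D.herm s t) (n' 1 / n' 0))
      (qM (D.herm s t) (n' 1 / n' 0)) = rho D s t n' ^ 2 * (4 * dt n') := by
    rw [h.pM_eq hn, h.qM_eq hn, kap_smul]
    change rho D s t n' ^ 2 * kap (algebraMap K M (t - s ^ 2)) (Pn D s t n n') (Qn D n n') = _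
    rw [kap_Pn]
  have h3 : rho D s t n' ^ 2 * (4 * dt n') ≠ 0 :=
    mul_ne_zero (pow_ne_zero 2 hρ) (mul_ne_zero (by norm_num) (h.dt_ne hM hd hc))
  obtain ⟨F, -, hF0, x, y, hxy⟩ := GSK.exists_eig (D.herm s t) hd hM (h.gen hn hd hc) hf h1
    (by rw [h2]; exact h3)
  refine ⟨F, ?_⟩
  have e1 : F.c = -dt n * ((2 * rho D s t n' * x) ^ 2 -
      algebraMap K M (t - s ^ 2) * (2 * rho D s t n' * y) ^ 2) := by
    rw [hxy, h2, h.quad]
    change -(rho D s t n' ^ 2 * (4 * dt n')) * (x ^ 2 - algebraMap K M (t - s ^ 2) * y ^ 2) = _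
    ring
  obtain ⟨q1⟩ := Quat.norm hF0 e1
  obtain ⟨q2⟩ := Quat.swap (algebraMap K M (t - s ^ 2)) (-dt n)
  -- `d n_00 n'_00` is a norm
  have e2 : algebraMap K M (t - s ^ 2) * (n 0 * n' 0) = (algebraMap K M s * n 0 +
      algebraMap K M t * n 1) ^ 2 + dt n * algebraMap K M t ^ 2 := by
    have hs : algebraMap K M s = -(n 1 + n' 1) := by rw [h.c1, neg_neg]
    have hq := h.quad
    unfold dt at hq ⊢
    rw [h.dd, ← h.c0, hs]
    linear_combination -(n 0 * (n 0 + n' 0)) * hq
  have e3 : n 0 * n' 0 = algebraMap K M (t - s ^ 2) *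
      (((algebraMap K M s * n 0 + algebraMap K M t * n 1) / algebraMap K M (t - s ^ 2)) ^ 2 -
      (-dt n) * (algebraMap K M t / algebraMap K M (t - s ^ 2)) ^ 2) := by
    field_simp
    linear_combination e2
  obtain ⟨q3⟩ := Quat.norm (mul_ne_zero hn0 hn) e3
  exact ⟨(q1.trans q2).trans q3.symm⟩

end K3

end Pool.Agent.GSK
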