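import Pool.Agent.GSK.XK3

/-!
# GSK: the K3 surface of a cubic fourfold over `ℂ(s, t)`
-/

set_option autoImplicit false

noncomputable section

namespace Pool.Agent.GSK

open Matrix Pool.Agent.GSH Pool.Agent.GSX Pool.Agent.GSQ MvPolynomial
open scoped Quaternion

/-- an element of `ℂ[s, t]` which is 0 in `KK` has the value 0 everywhere -/
theorem ev_zero {P : MvPolynomial (Fin 2) ℂ} (h : algebraMap (MvPolynomial (Fin 2) ℂ) KK P = 0)
    (x y : ℂ) : eval ![x, y] P = 0 := by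
  have h1 : P = 0 := (IsFractionRing.injective (MvPolynomial (Fin 2) ℂ) KK) (by rw [h, map_zero])
  rw [h1, map_zero]

theorem alg_C (r : ℂ) : algebraMap ℂ KK r = algebraMap (MvPolynomial (Fin 2) ℂ) KK (C r) := by
  rw [IsScalarTower.algebraMap_apply ℂ (MvPolynomial (Fin 2) ℂ) KK]
  rfl

theorem tK_ne : tK ≠ 0 := by
  intro h
  have h2 := ev_zero h 0 1
  simp at h2

/-- the entries 00, 01, 11 of `C_0` in `ℂ[s, t]` -/
def cP (X' : Cub ℂ) (k : Fin 6) : Fin 3 → MvPolynomial (Fin 2) ℂ :=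
  ![(X 1 - X 0 ^ 2) * C (X'.b k 2) - (X 1 ^ 2 * C (X'.a k 0) - 2 * X 0 * X 1 * C (X'.a k 1) +
      X 0 ^ 2 * C (X'.a k 2)),
    -((X 1 - X 0 ^ 2) * C (X'.b k 1)) + (X 0 * X 1 * C (X'.a k 0) -
      (X 0 ^ 2 + X 1) * C (X'.a k 1) + X 0 * C (X'.a k 2)),
    (X 1 - X 0 ^ 2) * C (X'.b k 0) - (X 0 ^ 2 * C (X'.a k 0) - 2 * X 0 * C (X'.a k 1) +
      C (X'.a k 2))]

theorem c_eq (X' : Cub ℂ) (k : Fin 6) (i : Fin 3) : (X'.map (algebraMap ℂ KK)).c sK tK k i =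
    algebraMap (MvPolynomial (Fin 2) ℂ) KK (cP X' k i) := by
  have e2 : algebraMap (MvPolynomial (Fin 2) ℂ) KK 2 = 2 := map_ofNat _ 2
  fin_cases i
  · simp [Cub.c, cP, Cub.map, alg_C, sK, tK, e2]
  · simp [Cub.c, cP, Cub.map, alg_C, sK, tK]
  · simp [Cub.c, cP, Cub.map, alg_C, sK, tK, e2]

variable {X' : Cub ℂ}

theorem c00_ne (ha : X'.a 0 ≠ 0) : (X'.map (algebraMap ℂ KK)).c sK tK 0 0 ≠ 0 := by
  intro h
  rw [c_eq] at h
  have h1 := ev_zero h 0 1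
  have h2 := ev_zero h 0 (-1)
  have h3 := ev_zero h 1 0
  have h4 := ev_zero h 1 1
  simp [cP] at h1 h2 h3 h4
  apply ha
  have e0 : X'.a 0 0 = 0 := by linear_combination -(1 / 2) * h1 - (1 / 2) * h2
  have e2 : X'.a 0 2 = 0 := by linear_combination -h3 - (1 / 2) * h1 + (1 / 2) * h2
  have e1 : X'.a 0 1 = 0 := by linear_combination (1 / 2) * h4 + (1 / 2) * e0 + (1 / 2) * e2
  funext i
  fin_cases i
  · exact e0
  · exact e1
  · exact e2

theorem hB_of (hb : X'.b 0 ≠ 0) : tK * (X'.map (algebraMap ℂ KK)).c sK tK 0 1 +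
    sK * (X'.map (algebraMap ℂ KK)).c sK tK 0 0 = 0 →
    sK ^ 2 * (X'.map (algebraMap ℂ KK)).c sK tK 0 0 ≠
      tK ^ 2 * (X'.map (algebraMap ℂ KK)).c sK tK 0 2 := by
  intro h h'
  rw [c_eq, c_eq] at h h'
  have g : algebraMap (MvPolynomial (Fin 2) ℂ) KK (X 1 * cP X' 0 1 + X 0 * cP X' 0 0) = 0 := by
    rw [map_add, map_mul, map_mul]
    exact h
  have g' : algebraMap (MvPolynomial (Fin 2) ℂ) KK (X 0 ^ 2 * cP X' 0 0 - X 1 ^ 2 * cP X' 0 2) =
      0 := by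
    rw [map_sub, map_mul, map_mul, map_pow, map_pow, sub_eq_zero]
    exact h'
  have g2 := ev_zero g 0 1
  have k1 := ev_zero g' 1 0
  have k2 := ev_zero g' 0 1
  have k3 := ev_zero g' 0 2
  have k4 := ev_zero g' 1 2
  simp [cP] at g2 k1 k2 k3 k4
  have e0 : X'.b 0 0 = 0 := by linear_combination k2 + k3
  have e2' : X'.a 0 2 = 0 := by linear_combination k2 + e0
  have e2 : X'.b 0 2 = 0 := by linear_combination -k1 - e2'
  have e1' : X'.a 0 1 = 0 := by linear_combination -(1 / 4) * k4 + (1 / 4) * e2 - e0 + (3 / 4) * e2'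
  have e1 : X'.b 0 1 = 0 := by linear_combination -g2 - e1'
  apply hb
  funext i
  fin_cases i
  · exact e0
  · exact e1
  · exact e2

variable {M : Type} [Field M] [Algebra KK M] {n n' : Fin 3 → M}

theorem exists_eigK (hn : X'.NonDeg) (hf : cub ((X'.map (algebraMap ℂ KK)).herm sK tK) ≠ 0)
    (hM : Module.finrank KK M = 3) (h : K3 (X'.map (algebraMap ℂ KK)) sK tK n n') :
    ∃ F : Eig X'.pen M, Nonempty
      (ℍ[M, algebraMap KK M X'.pen.d, F.c] ≃ₐ[M] ℍ[M, -dt n, n 0 * n' 0]) :=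
  h.exists_eig hM dK_ne (c00_ne hn.a0) tK_ne (hB_of hn.b0) hf

end Pool.Agent.GSK
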